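import Pool.Agent.J4.H12.LO.Struct
import Pool.Agent.N675.M.Elim

/-! Elimination of the forms which do not depend on a given long variable
(`Pool.Agent.N675.M.elim`), for functions `F` with `F (p m) = g(p) G(m)`. -/

namespace Pool.Agent.N675.M.G12

open Finset Pool.Agent.N675 Pool.Agent.N781.A Pool.Agent.N781.FV
open Pool.Agent.N675.M
open Pool.Agent.N781.OM (MG)

theorem elim (hS : G12.S_STRUCT) (κ ι : Type) [Fintype κ] [DecidableEq κ] [Fintype ι] [DecidableEq ι]
    (a : ι → ℤ) (L : ι → κ → ℤ) (ha : ∀ i, a i ≠ 0) (j₀ : κ) (P00 R : ℕ) (ε : ℝ) (hε : 0 < ε) :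
    ∃ (T : ℕ) (δ η : ℝ) (K₀ : ℕ), 0 < T ∧ 0 < δ ∧ 0 < η ∧ η ≤ 1 ∧
    ∀ (B : κ → ℕ) (x : ℕ), (∀ i, K₀ ≤ B i) → K₀ ≤ x → (∀ i, B i ≤ R * x) →
    ∀ (F : ι → ℤ → ℂ) (g : ι → ℕ → ℂ) (F₂ : ι → ℤ → ℂ), MG F g F₂ P00 T →
      ε ≤ ER B (fun y => ‖cc a L F x y‖ ^ 2) →
      δ ≤ ER (Sum.elim (fun j => (T + 1) * B j) (fun _ : Unit => x)) (fun z =>
        ‖cc (fun i : {i // L i j₀ ≠ 0} => (T : ℤ) * L i j₀)
          (fun i : {i // L i j₀ ≠ 0} => (Sum.elim (L i) (fun _ => a i) : κ ⊕ Unit → ℤ))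
          (fun i => F i) ⌊η * B j₀⌋₊ z‖ ^ 2) := by
  classical
  obtain ⟨T, δ, η₁, hT, hδ, hη₁, h1⟩ := hS κ ι a L ha P00 R ε hε
  set η : ℝ := min η₁ 1 with hη
  have hη0 : 0 < η := lt_min hη₁ one_pos
  have hη1 : η ≤ 1 := min_le_right _ _
  obtain ⟨K₀, h2⟩ := h1 η hη0 (min_le_left _ _)
  obtain ⟨K₁, hK₁⟩ := exists_nat_ge (2 / η)
  set m := Fintype.card κ with hm
  refine ⟨T, δ / ((T : ℝ) + 1) ^ m, η, K₀ + K₁ + 1, hT, by positivity, hη0, hη1, ?_⟩
  intro B x hB hx hBx F g F₂ hF hbig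
  have hF1 := hF.1
  have h3 := h2 B x (fun i => by have := hB i; omega) (by omega) hBx F g F₂ hF hbig
  have hB0 : ∀ i, 0 < B i := fun i => lt_of_lt_of_le (by omega) (hB i)
  have fK : ∀ i, 2 ≤ ⌊η * B i⌋₊ ∧ ⌊η * B i⌋₊ ≤ B i := by
    intro i
    have h4 : (K₁ : ℝ) ≤ B i := by
      have := hB i
      exact_mod_cast (by omega : K₁ ≤ B i)
    have h5 : ((2 : ℕ) : ℝ) ≤ η * B i := by
      rw [div_le_iff₀ hη0] at hK₁
      push_cast
      nlinarith
    have h6 := fl le_rfl h5
    refine ⟨h6.2.2, ?_⟩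
    have h7 : ((⌊η * B i⌋₊ : ℕ) : ℝ) ≤ B i := by
      refine h6.2.1.trans ?_
      have : (0 : ℝ) ≤ B i := Nat.cast_nonneg _
      nlinarith
    exact_mod_cast h7
  set K : κ → ℕ := fun i => ⌊η * B i⌋₊ with hK
  have hK0 : ∀ j, 0 < K j := fun j => by have := (fK j).1; simp only [hK]; omega
  -- the new correlation
  set G : (κ → ℤ) → ℤ → ℝ := fun y n => ‖av (K j₀) fun t => ∏ i : {i // L i j₀ ≠ 0},
    F i ((T : ℤ) * L i j₀ * t + (a i * n + LL L i y))‖ ^ 2 with hG
  have hG0 : ∀ y n, 0 ≤ G y n := fun y n => sq_nonneg _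
  -- pointwise bound
  have hpt : ∀ y : κ → ℤ, ‖EE K fun k => cc a L F x (y + (T : ℤ) • k)‖ ^ 2
      ≤ ER K fun k => avr x fun n => G (y + (T : ℤ) • Function.update k j₀ 0) n := by
    intro y
    rw [resample K hK0 j₀]
    refine (Pool.Agent.N34.M.EE_sq_le K _).trans ?_
    refine ER_mono K fun k _ => ?_
    set y' : κ → ℤ := y + (T : ℤ) • Function.update k j₀ 0 with hy'
    have hform : ∀ (t : ℤ) (i : ι), LL L i (y + (T : ℤ) • Function.update k j₀ t)
        = LL L i y' + (T : ℤ) * L i j₀ * t := by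
      intro t i
      have e1 : (y + (T : ℤ) • Function.update k j₀ t) = y' + fun j => if j = j₀ then (T : ℤ) * t else 0 := by
        funext j
        by_cases hj : j = j₀
        · subst hj
          simp [hy']
        · simp [hy', Function.update_of_ne hj, hj]
      rw [e1]
      unfold LL
      simp only [Pi.add_apply, mul_add, Finset.sum_add_distrib, mul_ite, mul_zero,
        Finset.sum_ite_eq', Finset.mem_univ, if_true]
      ring
    have h5 : (av (K j₀) fun t => cc a L F x (y + (T : ℤ) • Function.update k j₀ t))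
        = av x fun n => (∏ i : {i // ¬ L i j₀ ≠ 0}, F i (a i * n + LL L i y'))
          * av (K j₀) fun t => ∏ i : {i // L i j₀ ≠ 0},
            F i ((T : ℤ) * L i j₀ * t + (a i * n + LL L i y')) := by
      unfold cc
      rw [av_comm]
      congr 1
      funext n
      rw [← av_mul_left]
      congr 1
      funext t
      rw [← Fintype.prod_subtype_mul_prod_subtype (fun i => L i j₀ ≠ 0)
        (fun i => F i (a i * n + LL L i (y + (T : ℤ) • Function.update k j₀ t))), mul_comm]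
      congr 1
      · refine Finset.prod_congr rfl fun i _ => ?_
        have h6 : L (i : ι) j₀ = 0 := not_not.mp i.2
        rw [hform t i, h6]
        congr 1
        ring
      · refine Finset.prod_congr rfl fun i _ => ?_
        rw [hform t i]
        congr 1
        ring
    rw [h5]
    refine (av_sq_le x _).trans ?_
    refine avr_mono x fun n => ?_
    rw [norm_mul, mul_pow]
    have h6 : ‖∏ i : {i // ¬ L i j₀ ≠ 0}, F i (a i * n + LL L i y')‖ ≤ 1 := by
      rw [norm_prod]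
      exact Finset.prod_le_one (fun _ _ => norm_nonneg _) fun i _ => hF1 _ _
    have h7 : ‖∏ i : {i // ¬ L i j₀ ≠ 0}, F i (a i * n + LL L i y')‖ ^ 2 ≤ 1 :=
      pow_le_one₀ (norm_nonneg _) h6
    calc _ ≤ 1 * ‖av (K j₀) fun t => ∏ i : {i // L i j₀ ≠ 0},
            F i ((T : ℤ) * L i j₀ * t + (a i * n + LL L i y'))‖ ^ 2 :=
          mul_le_mul_of_nonneg_right h7 (sq_nonneg _)
      _ = _ := one_mul _
  -- average over `y`
  have h4 : T1 B (T, K) (cc a L F x)
      ≤ ER K fun k => ER B fun y => avr x fun n =>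
        G (y + (T : ℤ) • Function.update k j₀ 0) n := by
    rw [← Pool.Agent.N34.M.ER_comm]
    exact ER_mono B fun y _ => hpt y
  have h5 : ∀ k ∈ Box K, (ER B fun y => avr x fun n =>
      G (y + (T : ℤ) • Function.update k j₀ 0) n)
      ≤ ((T : ℝ) + 1) ^ m * ER (fun j => (T + 1) * B j) (fun y => avr x fun n => G y n) := by
    intro k hk
    rw [mem_Box] at hk
    refine ER_enlarge B hB0 T ((T : ℤ) • Function.update k j₀ 0) (fun j => ?_) (fun j => ?_)
      (fun y => avr x fun n => G y n) fun y => ?_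
    · rw [Pi.smul_apply, smul_eq_mul]
      refine mul_nonneg (by positivity) ?_
      by_cases hj : j = j₀
      · subst hj; simp
      · rw [Function.update_of_ne hj]; have := (hk j).1; omega
    · rw [Pi.smul_apply, smul_eq_mul]
      refine mul_le_mul_of_nonneg_left ?_ (by positivity)
      by_cases hj : j = j₀
      · subst hj; simp
      · rw [Function.update_of_ne hj]
        have h8 := (hk j).2
        have h9 : ((K j : ℕ) : ℤ) ≤ B j := by exact_mod_cast (fK j).2
        linarith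
    · unfold avr
      exact div_nonneg (Finset.sum_nonneg fun n _ => hG0 _ _) (Nat.cast_nonneg _)
  have h6 : δ ≤ ((T : ℝ) + 1) ^ m * ER (fun j => (T + 1) * B j) (fun y => avr x fun n => G y n) := by
    refine h3.trans (h4.trans ?_)
    refine (ER_mono K h5).trans ?_
    rw [ER_const K hK0]
  rw [ER_sum, div_le_iff₀ (by positivity), mul_comm]
  refine h6.trans (le_of_eq ?_)
  congr 1
  congr 1
  funext y
  rw [ER_unit]
  congr 1
  funext n
  simp only [hG, hK]
  congr 2
  unfold cc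
  congr 1
  funext t
  refine Finset.prod_congr rfl fun i _ => ?_
  congr 2
  unfold LL
  rw [Fintype.sum_sum_type]
  simp
  ring

end Pool.Agent.N675.M.G12
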