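import Pool.Agent.J4.H12.LO.Stm
import Pool.Agent.N675.M.Cell
import Pool.Agent.N781.A.Eng

/-! The engine (`Pool.Agent.N675.M.eng`) for functions `F` with `F (p m) = g(p) G(m)`. -/

namespace Pool.Agent.N675.M.G12

open Finset Pool.Agent.N675 Pool.Agent.N781.A Pool.Agent.N781.FV Filter Topology
open Pool.Agent.N675.M
open Pool.Agent.N781.OM (MG)

theorem eng (hM : S_MACH) (hA : S_ARI) (hD : S_DILSS) (hMu : G12.S_MULT) : G12.S_ENG := by
  classical
  intro κκ Z I ι _ _ _ _ _ _ _ _ _ φ σ a L₀ ha s P00 hs δ ρ hδ hδ1 hρ hρ1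
  obtain ⟨κ0, hκ0, hκ01, P0, hmul⟩ := hMu κκ I ι σ a L₀ ha (δ / 4) (by positivity)
  set κ : ℝ := κ0 / 2 with hκdef
  have hκ : 0 < κ := by positivity
  have hκ1 : κ ≤ 1 / 2 := by rw [hκdef]; linarith
  set ε : ℝ := min (δ / 4) (ρ / 4) with hε
  have hε0 : 0 < ε := lt_min (by positivity) (by positivity)
  have hεδ : ε ≤ δ / 4 := min_le_left _ _
  have hερ : ε ≤ ρ / 4 := min_le_right _ _
  obtain ⟨C, hC⟩ := hD κκ Z I ι φ σ a L₀ ha s hs ε hε0
  set m := Fintype.card (Z × κκ) with hm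
  set ρ₃ : ℝ := ρ / (8 * 3 ^ m) with hρ₃
  have hρ₃0 : 0 < ρ₃ := by positivity
  obtain ⟨C₀, hC₀, hcell⟩ := eng_cell hM hA κκ Z I φ σ s hs δ ρ₃ hδ hδ1 hρ₃0
  set L := Fintype.card I with hL
  have hL0 : 0 < L := Fintype.card_pos
  obtain ⟨Ja, hJa⟩ := cell_mass κ hκ (by linarith)
  obtain ⟨Jb, hJb⟩ := exp_beats κ C₀ ρ₃ hκ hC₀ hρ₃0 (2 ^ L - 1)
  have hpow : Tendsto (fun j : ℕ => (1 + κ) ^ j) atTop atTop :=
    tendsto_pow_atTop_atTop_of_one_lt (by linarith)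
  obtain ⟨Jc, hJc⟩ := eventually_atTop.mp (hpow.eventually_ge_atTop ((P0 + P00 + 5 : ℕ) : ℝ))
  set J0 := max Ja (max Jb Jc) with hJ0
  obtain ⟨J1, hJ01, hJ1⟩ : ∃ J1, J0 ≤ J1 ∧ 16 * (|C| + 1) / ρ
      < ∑ j ∈ Finset.Ico J0 J1, 1 / ((j : ℝ) + 1) := by
    have hdiv := Real.tendsto_sum_range_one_div_nat_succ_atTop
    obtain ⟨b, hb1, hb2⟩ := ((hdiv.eventually_gt_atTop
      (16 * (|C| + 1) / ρ + ∑ j ∈ Finset.range J0, 1 / ((j : ℝ) + 1))).and
      (eventually_ge_atTop J0)).exists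
    refine ⟨b, hb2, ?_⟩
    rw [← Finset.sum_range_add_sum_Ico _ hb2] at hb1
    linarith
  set PR : Finset ℕ := (Finset.Ico J0 J1).biUnion (cell κ) with hPR
  have hPRprime : ∀ p ∈ PR, p.Prime := by
    intro p hp
    obtain ⟨j, _, hpj⟩ := Finset.mem_biUnion.mp hp
    exact mem_cell_prime hpj
  obtain ⟨KD, hKD⟩ := hC PR hPRprime
  -- the cells
  set PP : ℕ → ℕ := fun j => ⌊(1 + κ) ^ j⌋₊ with hPP
  have hPPj : ∀ j, J0 ≤ j → P0 + P00 + 5 ≤ PP j := by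
    intro j hj
    have := hJc j (((le_max_right _ _).trans (le_max_right _ _)).trans hj)
    exact Nat.le_floor this
  have hPPlow : ∀ j, (1 + κ) ^ j < PP j + 1 := fun j => Nat.lt_floor_add_one _
  have hPPup : ∀ j, (PP j : ℝ) ≤ (1 + κ) ^ j := fun j => Nat.floor_le (by positivity)
  have hcellP : ∀ j, J0 ≤ j → ∀ q ∈ cell κ j, PP j ≤ q ∧ q < 2 * PP j ∧
      (q : ℝ) ≤ (1 + κ) * (PP j + 1) := by
    intro j hj q hq
    have h1 := mem_cell_lower hκ hq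
    have h2 := mem_cell_upper hκ hq
    have h3 := hPPj j hj
    have h4 : (q : ℝ) ≤ (1 + κ) * (PP j + 1) := by
      rw [pow_succ] at h2
      have := hPPlow j
      nlinarith
    have h5 : ((P0 + P00 + 5 : ℕ) : ℝ) ≤ PP j := by exact_mod_cast h3
    have h6 : (5 : ℝ) ≤ PP j := by
      push_cast at h5
      have : (0 : ℝ) ≤ P0 := Nat.cast_nonneg _
      have : (0 : ℝ) ≤ P00 := Nat.cast_nonneg _
      linarith
    refine ⟨?_, ?_, h4⟩
    · have : (PP j : ℝ) < q := lt_of_le_of_lt (hPPup j) h1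
      exact_mod_cast this.le
    · have : (q : ℝ) < ((2 * PP j : ℕ) : ℝ) := by
        push_cast
        nlinarith
      exact_mod_cast this
  have hcellcard : ∀ j, J0 ≤ j → C₀ * (PP j : ℝ) ^ (2 ^ L - 2)
      ≤ (ρ₃ * (cell κ j).card) ^ (2 ^ L - 1) := by
    intro j hj
    have h1 := hJa j ((le_max_left _ _).trans hj)
    have h2 := hJb j (((le_max_left _ _).trans (le_max_right _ _)).trans hj)
    have h3 := hPPj j hj
    have hP0 : (0 : ℝ) < PP j := by exact_mod_cast (by omega : 0 < PP j)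
    have h4 : ∑ p ∈ cell κ j, 1 / (p : ℝ) ≤ (cell κ j).card * (1 / PP j) := by
      calc _ ≤ ∑ _p ∈ cell κ j, 1 / (PP j : ℝ) := by
            refine Finset.sum_le_sum fun p hp => ?_
            have : (PP j : ℝ) ≤ p := by exact_mod_cast (hcellP j hj p hp).1
            gcongr
        _ = _ := by rw [Finset.sum_const, nsmul_eq_mul]
    have h5 : (PP j : ℝ) / (4 * ((j : ℝ) + 1)) ≤ (cell κ j).card := by
      have h6 := h1.trans h4
      rw [mul_one_div, le_div_iff₀ hP0] at h6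
      calc _ = 1 / (4 * ((j : ℝ) + 1)) * PP j := by ring
        _ ≤ _ := h6
    have hm1 : (2 : ℕ) ^ L - 1 = (2 ^ L - 2) + 1 := by
      have : 2 ≤ 2 ^ L := by
        calc 2 = 2 ^ 1 := by norm_num
          _ ≤ 2 ^ L := Nat.pow_le_pow_right (by norm_num) hL0
      omega
    calc C₀ * (PP j : ℝ) ^ (2 ^ L - 2)
        = (C₀ * (4 * ((j : ℝ) + 1) / ρ₃) ^ (2 ^ L - 1)) * (PP j : ℝ) ^ (2 ^ L - 2)
          * (ρ₃ / (4 * ((j : ℝ) + 1))) ^ (2 ^ L - 1) := by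
          have h7 : (4 * ((j : ℝ) + 1) / ρ₃) ^ (2 ^ L - 1)
              * (ρ₃ / (4 * ((j : ℝ) + 1))) ^ (2 ^ L - 1) = 1 := by
            rw [← mul_pow]
            have : (4 * ((j : ℝ) + 1) / ρ₃) * (ρ₃ / (4 * ((j : ℝ) + 1))) = 1 := by
              field_simp
            rw [this, one_pow]
          calc C₀ * (PP j : ℝ) ^ (2 ^ L - 2) = C₀ * (PP j : ℝ) ^ (2 ^ L - 2) * 1 := by ring
            _ = C₀ * (PP j : ℝ) ^ (2 ^ L - 2) * ((4 * ((j : ℝ) + 1) / ρ₃) ^ (2 ^ L - 1)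
              * (ρ₃ / (4 * ((j : ℝ) + 1))) ^ (2 ^ L - 1)) := by rw [h7]
            _ = _ := by ring
      _ ≤ (PP j : ℝ) * (PP j : ℝ) ^ (2 ^ L - 2) * (ρ₃ / (4 * ((j : ℝ) + 1))) ^ (2 ^ L - 1) := by
          gcongr
      _ = (ρ₃ * (PP j / (4 * ((j : ℝ) + 1)))) ^ (2 ^ L - 1) := by
          have h8 : (PP j : ℝ) * (PP j : ℝ) ^ (2 ^ L - 2) = (PP j : ℝ) ^ (2 ^ L - 1) := by
            rw [hm1, pow_succ]
            ring
          rw [h8, ← mul_pow]
          congr 1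
          ring
      _ ≤ _ := by gcongr
  have hex : ∀ j, ∃ (Q' : ℕ) (δ₁ c₀ : ℝ) (K₀ : ℕ), 0 < δ₁ ∧ 0 < c₀ ∧ (J0 ≤ j →
      (∀ B K H : κκ → ℕ, (∀ i, PP j ≤ B i) → (∀ i, PP j ≤ K i) → (∀ i, PP j ≤ H i) →
      (∀ i, (H i : ℝ) ≤ c₀ * B i) →
      ∀ c c' : (κκ → ℤ) → ℂ, (∀ m, ‖c m‖ ≤ 1) → (∀ m, ‖c' m‖ ≤ 1) →
      ∀ (θ : ℕ → (Z × κκ → ℤ) → κκ → ℝ) (G : ℕ → Finset (Z × κκ → ℤ)),
      (∀ q ∈ cell κ j, G q ⊆ Box (fun zj : Z × κκ => H zj.2 / q)) →
      2 * ρ₃ * (cell κ j).card * (Box (fun zj : Z × κκ => H zj.2 / PP j)).card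
        ≤ ∑ q ∈ cell κ j, ((G q).card : ℝ) →
      (∀ q ∈ cell κ j, ∀ l ∈ G q, δ ≤ SS B s K (cub φ σ c ((s : ℤ) * q) l) (θ q l)) →
      (∀ q ∈ cell κ j, ∀ l ∈ G q,
        δ / 4 ≤ SS (fun i => B i / PP j) s (fun i => K i / PP j) (cub φ σ c' s l)
          (fun i => (q : ℝ) * θ q l i)) →
      ∃ q ∈ cell κ j, ∃ t : κκ → ℝ, MA Q' K t ∧ δ₁ ≤ ER (fun zj : Z × κκ => H zj.2 / q) (fun l =>
          SS B s K (cub φ σ c ((s : ℤ) * q) l) t)) ∧
      (∀ (B : κκ → ℕ) (x : ℕ) (K : κκ → ℕ) (s : ℕ), (∀ i, K₀ ≤ B i) → K₀ ≤ x → (∀ i, K₀ ≤ K i) →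
        ∀ q : ℕ, q.Prime → PP j ≤ q → (q : ℝ) ≤ (1 + κ0) * (PP j + 1) →
        ∀ (F : ι → ℤ → ℂ) (g : ι → ℕ → ℂ) (F₂ : ι → ℤ → ℂ) (P00 T : ℕ), MG F g F₂ P00 T →
        P00 ≤ q → q ≤ T →
        ∀ (N : I → κκ → ℤ) (θ : κκ → ℝ),
          SS (fun i => B i / q) s (fun i => K i / q) (fun y => ∏ i, cj (σ i)
              (cc a L₀ (fun i m => F i ((q : ℤ) * m)) (x / q) (y + N i))) θ
            ≤ 2 * SS (fun i => B i / PP j) s (fun i => K i / PP j)
              (fun y => ∏ i, cj (σ i) (cc a L₀ F₂ (x / PP j) (y + N i))) θ + δ / 4)) := by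
    intro j
    by_cases hj : J0 ≤ j
    · have h3 := hPPj j hj
      obtain ⟨Q', δ₁, c₀, h1, h2, h4⟩ := hcell (PP j) (cell κ j) (by omega)
        (fun q hq => ⟨(hcellP j hj q hq).1, (hcellP j hj q hq).2.1⟩) (hcellcard j hj)
      obtain ⟨K₀, hK₀⟩ := hmul (PP j) (by omega)
      exact ⟨Q', δ₁, c₀, K₀, h1, h2, fun _ => ⟨h4, hK₀⟩⟩
    · exact ⟨1, 1, 1, 0, one_pos, one_pos, fun h => absurd h hj⟩
  choose Qf δf cf Kf hδf hcf hmain using hex
  set JJ := Finset.Ico J0 J1 with hJJ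
  set P₁ : ℕ := ⌊(1 + κ) ^ J1⌋₊ with hP₁
  refine ⟨P₁, ∑ j ∈ JJ, Qf j, KD + ∑ j ∈ JJ, Kf j + 12 * P₁ + 12, 1 / (∑ j ∈ JJ, 1 / δf j + 1),
    1 / (∑ j ∈ JJ, 1 / cf j + 1), ?_, ?_, ?_⟩
  · have : 0 ≤ ∑ j ∈ JJ, 1 / δf j := Finset.sum_nonneg fun j _ => (one_div_pos.mpr (hδf j)).le
    positivity
  · have : 0 ≤ ∑ j ∈ JJ, 1 / cf j := Finset.sum_nonneg fun j _ => (one_div_pos.mpr (hcf j)).le
    positivity
  intro B x K H hKD' hKx hKK hKH hHD F g F₂ hFg hθ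
  have hF := hFg.1
  have hF₂ := hFg.2.1
  set c := cc a L₀ F x with hc
  have hcn : ∀ m, ‖c m‖ ≤ 1 := norm_cc_le a L₀ F hF x
  -- the frequencies
  have hθ' : ∀ q : ℕ, ∃ θ : (Z × κκ → ℤ) → κκ → ℝ, q.Prime → q ≤ P₁ →
      ρ ≤ ER (fun zj : Z × κκ => H zj.2 / q) (fun l =>
        if δ ≤ SS B s K (cub φ σ c ((s : ℤ) * q) l) (θ l) then (1 : ℝ) else 0) := by
    intro q
    by_cases hq : q.Prime ∧ q ≤ P₁
    · obtain ⟨θ, h⟩ := hθ q hq.1 hq.2
      exact ⟨θ, fun _ _ => h⟩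
    · exact ⟨fun _ _ => 0, fun h1 h2 => absurd ⟨h1, h2⟩ hq⟩
  choose θ hθ2 using hθ'
  set bad : ℕ → (Z × κκ → ℤ) → Prop := fun p l => ∃ θ : κκ → ℝ,
      SS (fun i => B i / p) s (fun i => K i / p)
      (cub φ σ (cc a L₀ (fun i m => F i ((p : ℤ) * m)) (x / p)) s l) (fun i => (p : ℝ) * θ i) + ε
            < SS B s K (cub φ σ (cc a L₀ F x) ((s : ℤ) * p) l) θ with hbad
  have hdil := hKD B x K H (fun i => by have := hKD' i; omega) (by omega)
    (fun i => by have := hKK i; omega) (fun i => by have := hKH i; omega) F hF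
  set G : ℕ → Finset (Z × κκ → ℤ) := fun q => (Box (fun zj : Z × κκ => H zj.2 / q)).filter
    (fun l => δ ≤ SS B s K (cub φ σ c ((s : ℤ) * q) l) (θ q l) ∧ ¬ bad q l) with hG
  have hqP₁ : ∀ j ∈ JJ, ∀ q ∈ cell κ j, q ≤ P₁ := by
    intro j hj q hq
    have h1 := mem_cell_upper hκ hq
    refine Nat.le_floor (h1.trans ?_)
    exact pow_le_pow_right₀ (by linarith) (by rw [hJJ, Finset.mem_Ico] at hj; omega)
  -- densities
  set β : ℕ → ℝ := fun q => ER (fun zj : Z × κκ => H zj.2 / q) (fun l => if bad q l then (1 : ℝ) else 0) with hβ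
  set γ : ℕ → ℝ := fun q => ((G q).card : ℝ) / (Box (fun zj : Z × κκ => H zj.2 / q)).card with hγ
  have hγβ : ∀ j ∈ JJ, ∀ q ∈ cell κ j, ρ - β q ≤ γ q := by
    intro j hj q hq
    have h1 := hθ2 q (mem_cell_prime hq) (hqP₁ j hj q hq)
    have h2 : ER (fun zj : Z × κκ => H zj.2 / q) (fun l =>
        if δ ≤ SS B s K (cub φ σ c ((s : ℤ) * q) l) (θ q l) then (1 : ℝ) else 0) - β q ≤ γ q := by
      rw [hβ, hγ]
      simp only [ER]
      rw [← Box_card, ← sub_div, ← Finset.sum_sub_distrib]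
      refine div_le_div_of_nonneg_right ?_ (by positivity)
      rw [hG]
      simp only
      rw [Finset.card_filter]
      push_cast
      refine Finset.sum_le_sum fun l _ => ?_
      by_cases h3 : δ ≤ SS B s K (cub φ σ c ((s : ℤ) * q) l) (θ q l)
      · by_cases h4 : bad q l
        · rw [if_pos h3, if_pos h4]
          split_ifs <;> norm_num
        · rw [if_pos h3, if_neg h4, if_pos ⟨h3, h4⟩]
          norm_num
      · rw [if_neg h3]
        split_ifs <;> norm_num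
    linarith
  have hdisj : ∀ i ∈ JJ, ∀ j ∈ JJ, i ≠ j → Disjoint (cell κ i) (cell κ j) :=
    fun i _ j _ hij => cell_disjoint hκ hij
  have hsplit : ∀ f : ℕ → ℝ, ∑ p ∈ PR, f p = ∑ j ∈ JJ, ∑ p ∈ cell κ j, f p := by
    intro f
    rw [hPR, Finset.sum_biUnion]
    intro i hi j hj hij
    exact hdisj i hi j hj hij
  obtain ⟨j, hj, hjc⟩ : ∃ j ∈ JJ, ρ / 2 * ∑ q ∈ cell κ j, 1 / (q : ℝ)
      ≤ ∑ q ∈ cell κ j, 1 / (q : ℝ) * γ q := by
    by_contra hcon
    push Not at hcon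
    have h1 : ∑ j ∈ JJ, ∑ q ∈ cell κ j, 1 / (q : ℝ) * γ q
        ≤ ∑ j ∈ JJ, ρ / 2 * ∑ q ∈ cell κ j, 1 / (q : ℝ) :=
      Finset.sum_le_sum fun j hj => (hcon j hj).le
    rw [← Finset.mul_sum, ← hsplit (fun q => 1 / (q : ℝ))] at h1
    have h2 : ∑ j ∈ JJ, ∑ q ∈ cell κ j, (1 / (q : ℝ)) * (ρ - β q)
        ≤ ∑ j ∈ JJ, ∑ q ∈ cell κ j, 1 / (q : ℝ) * γ q :=
      Finset.sum_le_sum fun j hj => Finset.sum_le_sum fun q hq =>
        mul_le_mul_of_nonneg_left (hγβ j hj q hq) (by positivity)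
    rw [← hsplit (fun q => (1 / (q : ℝ)) * (ρ - β q))] at h2
    have h3 : ∑ q ∈ PR, (1 / (q : ℝ)) * (ρ - β q)
        = ρ * ∑ q ∈ PR, 1 / (q : ℝ) - ∑ q ∈ PR, (1 / (q : ℝ)) * β q := by
      rw [Finset.mul_sum, ← Finset.sum_sub_distrib]
      exact Finset.sum_congr rfl fun q _ => by ring
    have h4 : ∑ q ∈ PR, (1 / (q : ℝ)) * β q ≤ C + ε * ∑ p ∈ PR, 1 / (p : ℝ) := by
      refine le_trans (le_of_eq ?_) hdil
      rfl
    set S : ℝ := ∑ p ∈ PR, 1 / (p : ℝ) with hS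
    have h5 : 4 * (|C| + 1) / ρ < S := by
      rw [hS, hsplit (fun p => 1 / (p : ℝ))]
      have h6 : ∑ j ∈ JJ, 1 / (4 * ((j : ℝ) + 1)) ≤ ∑ j ∈ JJ, ∑ p ∈ cell κ j, 1 / (p : ℝ) :=
        Finset.sum_le_sum fun j hj => hJa j ((le_max_left _ _).trans (by
          rw [hJJ, Finset.mem_Ico] at hj; exact hj.1))
      have h7 : ∑ j ∈ JJ, 1 / (4 * ((j : ℝ) + 1)) = 1 / 4 * ∑ j ∈ JJ, 1 / ((j : ℝ) + 1) := by
        rw [Finset.mul_sum]
        exact Finset.sum_congr rfl fun j _ => by field_simp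
      have h8 : 4 * (|C| + 1) / ρ = 1 / 4 * (16 * (|C| + 1) / ρ) := by ring
      rw [h7] at h6
      rw [h8]
      linarith
    rw [div_lt_iff₀ hρ] at h5
    have h6 : ε * S ≤ ρ / 4 * S := by
      have : 0 ≤ S := Finset.sum_nonneg fun _ _ => by positivity
      gcongr
    have h7 := le_abs_self C
    have h8 := abs_nonneg C
    nlinarith
  have hjJ : J0 ≤ j := by rw [hJJ, Finset.mem_Ico] at hj; exact hj.1
  obtain ⟨hm1, hm2⟩ := hmain j hjJ
  have hPj := hPPj j hjJ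
  have hPjR : (0 : ℝ) < PP j := by exact_mod_cast (by omega : 0 < PP j)
  have hPP₁ : PP j ≤ P₁ := by
    refine Nat.floor_le_floor ?_
    exact pow_le_pow_right₀ (by linarith) (by rw [hJJ, Finset.mem_Ico] at hj; omega)
  have hKfj : Kf j ≤ ∑ j ∈ JJ, Kf j :=
    Finset.single_le_sum (f := Kf) (fun _ _ => Nat.zero_le _) hj
  -- the sum of the densities
  have hγsum : ρ / 4 * (cell κ j).card ≤ ∑ q ∈ cell κ j, γ q := by
    have h1 : ∑ q ∈ cell κ j, 1 / (q : ℝ) * γ q ≤ 1 / PP j * ∑ q ∈ cell κ j, γ q := by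
      rw [Finset.mul_sum]
      refine Finset.sum_le_sum fun q hq => ?_
      have h2 : (PP j : ℝ) ≤ q := by exact_mod_cast (hcellP j hjJ q hq).1
      have h3 : 0 ≤ γ q := by positivity
      gcongr
    have h2 : (cell κ j).card * (1 / (2 * PP j)) ≤ ∑ q ∈ cell κ j, 1 / (q : ℝ) := by
      calc ((cell κ j).card : ℝ) * (1 / (2 * PP j)) = ∑ _q ∈ cell κ j, 1 / (2 * (PP j : ℝ)) := by
            rw [Finset.sum_const, nsmul_eq_mul]
        _ ≤ _ := by
            refine Finset.sum_le_sum fun q hq => ?_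
            have h3 : (q : ℝ) ≤ 2 * PP j := by exact_mod_cast (hcellP j hjJ q hq).2.1.le
            have h4 : (0 : ℝ) < q := by
              have := (mem_cell_prime hq).pos
              exact_mod_cast this
            gcongr
    have h3 : ρ / 2 * ((cell κ j).card * (1 / (2 * PP j))) ≤ 1 / PP j * ∑ q ∈ cell κ j, γ q := by
      refine le_trans ?_ (hjc.trans h1)
      gcongr
    have h4 : ρ / 2 * ((cell κ j).card * (1 / (2 * PP j)))
        = 1 / PP j * (ρ / 4 * (cell κ j).card) := by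
      field_simp
      ring
    rw [h4] at h3
    exact le_of_mul_le_mul_left h3 (by positivity)
  have hboxle : ∀ q ∈ cell κ j, ((Box (fun zj : Z × κκ => H zj.2 / PP j)).card : ℝ)
      ≤ 3 ^ m * (Box (fun zj : Z × κκ => H zj.2 / q)).card := by
    intro q hq
    obtain ⟨h1, h2, _⟩ := hcellP j hjJ q hq
    have hq0 : 0 < q := (mem_cell_prime hq).pos
    have hqP := hqP₁ j hj q hq
    rw [Box_card, Box_card, hm, ← Finset.card_univ, ← Finset.prod_const, ← Finset.prod_mul_distrib]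
    refine Finset.prod_le_prod (fun _ _ => Nat.cast_nonneg _) fun zj _ => ?_
    have hH12 := hKH zj.2
    have h3 : H zj.2 / PP j ≤ 3 * (H zj.2 / q) := by
      have h4 : H zj.2 / PP j * PP j ≤ H zj.2 := Nat.div_mul_le_self _ _
      have h5 : H zj.2 < H zj.2 / q * q + q := Nat.lt_div_mul_add hq0
      have h7 : 12 ≤ H zj.2 / q := by
        rw [Nat.le_div_iff_mul_le hq0]
        omega
      by_contra hcon
      push Not at hcon
      have h8 : 3 * (H zj.2 / q) * PP j < H zj.2 / PP j * PP j :=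
        Nat.mul_lt_mul_of_pos_right hcon (by omega)
      have h9 : (H zj.2 / q + 1) * q < (H zj.2 / q + 1) * (2 * PP j) :=
        Nat.mul_lt_mul_of_pos_left h2 (by omega)
      nlinarith
    exact_mod_cast h3
  have hsumG : 2 * ρ₃ * (cell κ j).card * (Box (fun zj : Z × κκ => H zj.2 / PP j)).card
        ≤ ∑ q ∈ cell κ j, ((G q).card : ℝ) := by
    have h1 : ∀ q ∈ cell κ j, γ q * ((Box (fun zj : Z × κκ => H zj.2 / PP j)).card / 3 ^ m) ≤ (G q).card := by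
      intro q hq
      have h2 := hboxle q hq
      have h3 : ((Box (fun zj : Z × κκ => H zj.2 / PP j)).card : ℝ) / 3 ^ m
          ≤ (Box (fun zj : Z × κκ => H zj.2 / q)).card := by
        rw [div_le_iff₀ (by positivity)]
        linarith
      have h4 : γ q * (Box (fun zj : Z × κκ => H zj.2 / q)).card ≤ (G q).card := by
        rw [hγ]
        simp only
        by_cases h0 : ((Box (fun zj : Z × κκ => H zj.2 / q)).card : ℝ) = 0
        · rw [h0, mul_zero]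
          positivity
        · rw [div_mul_cancel₀ _ h0]
      have h5 : 0 ≤ γ q := by positivity
      nlinarith
    have h2 := Finset.sum_le_sum h1
    rw [← Finset.sum_mul] at h2
    refine le_trans ?_ h2
    calc 2 * ρ₃ * (cell κ j).card * (Box (fun zj : Z × κκ => H zj.2 / PP j)).card
        = (ρ / 4 * (cell κ j).card) * ((Box (fun zj : Z × κκ => H zj.2 / PP j)).card / 3 ^ m) := by
          rw [hρ₃]
          field_simp
          ring
      _ ≤ _ := mul_le_mul_of_nonneg_right hγsum (by positivity)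
  obtain ⟨q, hq, t, hMAt, ht⟩ := hm1 B K H (fun i => by have := hKD' i; omega)
    (fun i => by have := hKK i; omega) (fun i => by have := hKH i; omega) (fun i => by
      refine (hHD i).trans ?_
      exact mul_le_mul_of_nonneg_right (inv_sum_le cf (fun i _ => hcf i) hj) (Nat.cast_nonneg _))
    c (cc a L₀ F₂ (x / PP j)) hcn (norm_cc_le a L₀ F₂ hF₂ _) θ G (fun q _ => Finset.filter_subset _ _)
    hsumG
    (fun q _ l hl => by
      rw [hG] at hl
      exact (Finset.mem_filter.mp hl).2.1)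
    (fun q hq l hl => by
      rw [hG] at hl
      obtain ⟨_, h1, h2⟩ := Finset.mem_filter.mp hl
      obtain ⟨h3, h4, h5⟩ := hcellP j hjJ q hq
      rw [hbad] at h2
      simp only [not_exists, not_lt] at h2
      have h6 := h2 (θ q l)
      have h7 := hm2 B x K s (fun i => by have := hKD' i; omega) (by omega)
        (fun i => by have := hKK i; omega) q (mem_cell_prime hq) h3
        (h5.trans (by rw [hκdef]; gcongr; linarith)) F g F₂ P00 P₁ hFg (by omega) (hqP₁ j hj q hq)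
        (fun i => (s : ℤ) • comb φ i l) (fun i => (q : ℝ) * θ q l i)
      have h8 : SS (fun i => B i / q) s (fun i => K i / q)
          (cub φ σ (cc a L₀ (fun i m => F i ((q : ℤ) * m)) (x / q)) s l)
            (fun i => (q : ℝ) * θ q l i)
          ≤ 2 * SS (fun i => B i / PP j) s (fun i => K i / PP j)
            (cub φ σ (cc a L₀ F₂ (x / PP j)) s l) (fun i => (q : ℝ) * θ q l i)
            + δ / 4 := h7
      linarith)
  refine ⟨q, mem_cell_prime hq, hqP₁ j hj q hq, t, ?_, ?_⟩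
  · obtain ⟨q', h1, h2, h3⟩ := hMAt
    have hQ : Qf j ≤ ∑ j ∈ JJ, Qf j :=
      Finset.single_le_sum (f := Qf) (fun _ _ => Nat.zero_le _) hj
    refine ⟨q', h1, h2.trans hQ, fun i => ?_⟩
    obtain ⟨m, hm⟩ := h3 i
    refine ⟨m, hm.trans ?_⟩
    gcongr
  · exact (inv_sum_le δf (fun i _ => hδf i) hj).trans ht

end Pool.Agent.N675.M.G12
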