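import Pool.Agent.W36.GK.K18
import Pool.Agent.W36.GU.GU5
import Pool.Agent.N675.Box

/-! The Gowers norms as averages over the cubes with positive sides. -/

set_option autoImplicit false

namespace Pool.Agent.J4.H12.LO

open Finset Pool.Agent.W36.GU Pool.Agent.W36.GV Pool.Agent.W36.GK
open Pool.Agent.N675 (Box mem_Box)

/-- the iterated derivative is the product over the vertices of the cube -/
theorem Dl_prod (k : ℕ) : ∀ (F : ℤ → ℝ) (h : Fin k → ℤ) (n : ℤ),
    Dl k F h n = ∏ ω : Fin k → Bool, F (n + ∑ j, if ω j then h j else 0) := by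
  induction k with
  | zero => intro F h n; simp [Dl]
  | succ k ih =>
    intro F h n
    have e1 : Dl (k + 1) F h n = Dl k (De (h 0) F) (Fin.tail h) n := rfl
    rw [e1, ih]
    have e2 : ∏ ω : Fin (k + 1) → Bool, F (n + ∑ j, if ω j then h j else 0)
        = ∏ z : Bool × (Fin k → Bool), F (n + ∑ j, if (Fin.cons z.1 z.2 : Fin (k + 1) → Bool) j
            then h j else 0) := by
      rw [← (Fin.consEquiv (fun _ => Bool)).prod_comp]
      rfl
    rw [e2, Fintype.prod_prod_type, Fintype.prod_bool, ← prod_mul_distrib]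
    refine prod_congr rfl fun ω _ => ?_
    rw [Fin.sum_univ_succ, Fin.sum_univ_succ]
    simp only [Fin.cons_zero, Fin.cons_succ, if_true, Bool.false_eq_true, if_false, zero_add]
    unfold De Fin.tail
    rw [mul_comm]
    congr 2
    ring

/-- sum over the cubes with positive sides -/
noncomputable def GP : ℕ → (ℤ → ℝ) → ℕ → ℝ
  | 0, F, X => ∑ n ∈ Icc (1 : ℤ) X, F n
  | k + 1, F, X => ∑ t ∈ Icc (1 : ℤ) X, GP k (De t F) X

theorem sum_Box_zero {β : Type*} [AddCommMonoid β] (X : ℕ) (Φ : (Fin 0 → ℤ) → β) :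
    ∑ h ∈ Box (fun _ : Fin 0 => X), Φ h = Φ (fun i => i.elim0) := by
  have : Box (fun _ : Fin 0 => X) = {fun i => i.elim0} := by
    ext h
    rw [mem_Box, mem_singleton]
    constructor
    · intro _; ext i; exact i.elim0
    · intro _ k; exact k.elim0
  rw [this, sum_singleton]

theorem sum_Box_succ {β : Type*} [AddCommMonoid β] (d X : ℕ) (Φ : (Fin (d + 1) → ℤ) → β) :
    ∑ h ∈ Box (fun _ : Fin (d + 1) => X), Φ h
      = ∑ t ∈ Icc (1 : ℤ) X, ∑ h ∈ Box (fun _ : Fin d => X), Φ (Fin.cons t h) := by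
  rw [← sum_product']
  symm
  apply sum_nbij' (fun q : ℤ × (Fin d → ℤ) => (Fin.cons q.1 q.2 : Fin (d + 1) → ℤ))
    (fun h => (h 0, Fin.tail h))
  · rintro ⟨t, h⟩ hq
    rw [mem_product, mem_Box, mem_Icc] at hq
    rw [mem_Box]
    intro k
    refine Fin.cases ?_ (fun k => ?_) k
    · simp only [Fin.cons_zero]; exact hq.1
    · simp only [Fin.cons_succ]; exact hq.2 k
  · intro h hh
    rw [mem_Box] at hh
    rw [mem_product, mem_Box, mem_Icc]
    exact ⟨hh 0, fun k => hh k.succ⟩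
  · rintro ⟨t, h⟩ _; simp [Fin.tail_cons]
  · intro h _; exact Fin.cons_self_tail h
  · rintro ⟨t, h⟩ _; rfl

theorem GP_eq (k : ℕ) (X : ℕ) : ∀ F : ℤ → ℝ, GP k F X =
    ∑ h ∈ Box (fun _ : Fin k => X), ∑ n ∈ Icc (1 : ℤ) X, Dl k F h n := by
  induction k with
  | zero => intro F; rw [sum_Box_zero]; rfl
  | succ k ih =>
    intro F
    rw [sum_Box_succ, GP]
    refine sum_congr rfl fun t _ => ?_
    rw [ih]
    refine sum_congr rfl fun h _ => sum_congr rfl fun n _ => ?_
    rw [Dl_cons]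

theorem sum_tr' {F : ℤ → ℝ} {X : ℕ} (h : Sup F X) (t : ℤ) (h' : Sup (fun n => F (n + t)) X) :
    ∑ n ∈ Icc (1 : ℤ) X, F (n + t) = ∑ n ∈ Icc (1 : ℤ) X, F n := by
  classical
  have e1 : ∑ n ∈ Icc (1 : ℤ) X, F (n + t) = ∑ n ∈ (Icc (1 : ℤ) X).filter (fun n => F (n + t) ≠ 0), F (n + t) := by
    rw [sum_filter_ne_zero]
  have e2 : ∑ n ∈ Icc (1 : ℤ) X, F n = ∑ n ∈ (Icc (1 : ℤ) X).filter (fun n => F n ≠ 0), F n := by
    rw [sum_filter_ne_zero]
  rw [e1, e2]
  refine sum_nbij' (fun n => n + t) (fun n => n - t) ?_ ?_ ?_ ?_ ?_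
  · intro n hn
    rw [mem_filter] at hn ⊢
    exact ⟨mem_Icc.2 (h _ hn.2), hn.2⟩
  · intro n hn
    rw [mem_filter] at hn ⊢
    have h1 : F (n - t + t) ≠ 0 := by rw [sub_add_cancel]; exact hn.2
    exact ⟨mem_Icc.2 (h' _ h1), h1⟩
  · intro n _; simp
  · intro n _; simp
  · intro n _; rfl

theorem GN_tr (k : ℕ) {X : ℕ} : ∀ {F : ℤ → ℝ}, Sup F X → ∀ t : ℤ, Sup (fun n => F (n + t)) X →
    GN k (fun n => F (n + t)) X = GN k F X := by
  induction k with
  | zero => intro F h t h'; exact sum_tr' h t h'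
  | succ k ih =>
    intro F h t h'
    rw [GN, GN]
    refine sum_congr rfl fun u _ => ?_
    have e : De u (fun n => F (n + t)) = fun n => De u F (n + t) := by
      funext n
      unfold De
      have : n + u + t = n + t + u := by ring
      simp only [this]
    rw [e]
    refine ih (De_sup h u) t ?_
    rw [← e]
    exact De_sup h' u

theorem GN_neg (k : ℕ) {X : ℕ} {F : ℤ → ℝ} (h : Sup F X) (t : ℤ) :
    GN k (De (-t) F) X = GN k (De t F) X := by
  have e : De (-t) F = fun n => De t F (n + -t) := by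
    funext n
    unfold De
    have : n + -t + t = n := by ring
    rw [this, mul_comm]
  rw [e]
  refine GN_tr k (De_sup h t) (-t) ?_
  rw [← e]
  exact De_sup h _

theorem GN_GP (k : ℕ) {X : ℕ} (hX : 1 ≤ X) : ∀ {F : ℤ → ℝ}, B1 F → Sup F X →
    |GN k F X - 2 ^ k * GP k F X| ≤ k * 3 ^ k * (X : ℝ) ^ k := by
  have hX0 : (0 : ℝ) < X := by exact_mod_cast hX
  induction k with
  | zero => intro F _ _; simp [GN, GP]
  | succ k ih =>
    intro F hF hs
    have e1 : GN (k + 1) F X = GN k (De 0 F) X + 2 * ∑ t ∈ Icc (1 : ℤ) X, GN k (De t F) X := by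
      rw [GN]
      have hsplit : Icc (-(X : ℤ)) X = Icc (-(X : ℤ)) (-1) ∪ ({0} ∪ Icc 1 X) := by
        ext n
        simp only [mem_union, mem_Icc, mem_singleton]
        omega
      rw [hsplit, sum_union, sum_union, sum_singleton]
      · have e2 : ∑ t ∈ Icc (-(X : ℤ)) (-1), GN k (De t F) X = ∑ t ∈ Icc (1 : ℤ) X, GN k (De t F) X := by
          refine sum_nbij' (fun t => -t) (fun t => -t) ?_ ?_ ?_ ?_ ?_
          · intro t ht; rw [mem_Icc] at ht ⊢; omega
          · intro t ht; rw [mem_Icc] at ht ⊢; omega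
          · intro t _; ring
          · intro t _; ring
          · intro t _
            exact (GN_neg k hs t).symm
        rw [e2]
        ring
      · rw [disjoint_left]
        intro n
        simp only [mem_Icc, mem_singleton]
        omega
      · rw [disjoint_left]
        intro n
        simp only [mem_union, mem_Icc, mem_singleton]
        omega
    have e3 : GN (k + 1) F X - 2 ^ (k + 1) * GP (k + 1) F X = GN k (De 0 F) X
        + 2 * ∑ t ∈ Icc (1 : ℤ) X, (GN k (De t F) X - 2 ^ k * GP k (De t F) X) := by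
      rw [e1, GP, sum_sub_distrib, ← mul_sum]
      ring
    rw [e3]
    refine (abs_add_le _ _).trans ?_
    have h1 := GN_le k hX (De_B1 hF 0)
    have h2 : |∑ t ∈ Icc (1 : ℤ) X, (GN k (De t F) X - 2 ^ k * GP k (De t F) X)|
        ≤ X * (k * 3 ^ k * (X : ℝ) ^ k) := by
      refine (abs_sum_le_sum_abs _ _).trans ?_
      refine (sum_le_card_nsmul _ _ _ fun t _ => ih (De_B1 hF t) (De_sup hs t)).trans ?_
      rw [nsmul_eq_mul, Int.card_Icc]
      simp
    rw [abs_mul, abs_two]
    obtain ⟨A, hA⟩ : ∃ A : ℝ, A = 3 ^ k * (X : ℝ) ^ (k + 1) := ⟨_, rfl⟩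
    have hA0 : 0 ≤ A := by rw [hA]; positivity
    have h3 : (X : ℝ) * (k * 3 ^ k * (X : ℝ) ^ k) = k * A := by rw [hA]; ring
    have h4 : ((k + 1 : ℕ) : ℝ) * 3 ^ (k + 1) * (X : ℝ) ^ (k + 1) = 3 * k * A + 3 * A := by
      rw [hA]; push_cast; ring
    rw [h3] at h2
    rw [h4]
    rw [← hA] at h1
    have h5 : 0 ≤ k * A := by positivity
    linarith

theorem GP_prod (k : ℕ) (X : ℕ) (F : ℤ → ℝ) : GP k F X =
    ∑ h ∈ Box (fun _ : Fin k => X), ∑ n ∈ Icc (1 : ℤ) X,
      ∏ ω : Fin k → Bool, F (n + ∑ j, if ω j then h j else 0) := by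
  rw [GP_eq]
  exact sum_congr rfl fun h _ => sum_congr rfl fun n _ => Dl_prod k F h n

/-- the indicator function of a window changes at few points under a translation -/
theorem ind_shift (M N X : ℕ) (e : ℤ) (d : ℕ) :
    ∑ n ∈ Icc (1 : ℤ) X, |win M N (fun _ => 1) (e + n + d) - win M N (fun _ => 1) (e + n)|
      ≤ 2 * d := by
  classical
  have h1 : ∀ n : ℤ, |win M N (fun _ => 1) (e + n + d) - win M N (fun _ => 1) (e + n)|
      ≤ (if n ∈ Ioc (M - e - d) (M - e) then (1 : ℝ) else 0)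
        + (if n ∈ Ioc (N - e - d) (N - e) then (1 : ℝ) else 0) := by
    intro n
    simp only [mem_Ioc]
    unfold win
    have hd : (0 : ℤ) ≤ d := Int.natCast_nonneg _
    by_cases a1 : (M : ℤ) < e + n + d ∧ e + n + d ≤ N <;>
      by_cases a2 : (M : ℤ) < e + n ∧ e + n ≤ N
    · rw [if_pos a1, if_pos a2, sub_self, abs_zero]
      positivity
    · rw [if_pos a1, if_neg a2, sub_zero, abs_one]
      have : (M - e - d < n ∧ n ≤ M - e) := by omega
      rw [if_pos this]
      have : (0 : ℝ) ≤ if (N : ℤ) - e - d < n ∧ n ≤ N - e then 1 else 0 := by positivity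
      linarith
    · rw [if_neg a1, if_pos a2, zero_sub, abs_neg, abs_one]
      have : (N - e - d < n ∧ n ≤ N - e) := by omega
      rw [if_pos this]
      have : (0 : ℝ) ≤ if (M : ℤ) - e - d < n ∧ n ≤ M - e then 1 else 0 := by positivity
      linarith
    · rw [if_neg a1, if_neg a2, sub_self, abs_zero]
      positivity
  refine (sum_le_sum fun n _ => h1 n).trans ?_
  rw [sum_add_distrib]
  have h2 : ∀ m : ℤ, ∑ n ∈ Icc (1 : ℤ) X, (if n ∈ Ioc (m - e - d) (m - e) then (1 : ℝ) else 0)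
      ≤ d := by
    intro m
    rw [← sum_filter, sum_const, nsmul_eq_mul, mul_one]
    have : ((Icc (1 : ℤ) X).filter (fun n => n ∈ Ioc (m - e - d) (m - e))).card
        ≤ (Ioc (m - e - d) (m - e)).card := by
      refine card_le_card fun n hn => ?_
      rw [mem_filter] at hn
      exact hn.2
    rw [Int.card_Ioc] at this
    have h3 : (m - e - (m - e - d)).toNat = d := by omega
    rw [h3] at this
    exact_mod_cast this
  have := h2 M
  have := h2 N
  linarith

end Pool.Agent.J4.H12.LO
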