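import Pool.Agent.J4.H12.LO.Stm
import Pool.Agent.N821.M.Mult

/-!
# Multiplicativity and change of scale, for functions `F` with `F (p m) = g(p) G(m)`
-/

set_option autoImplicit false
set_option linter.unusedSectionVars false

namespace Pool.Agent.N675.M.G12

open Finset Pool.Agent.N675 Pool.Agent.N781.FV Pool.Agent.N675.M
open Pool.Agent.N781.A (av cj ER)
open Pool.Agent.N821.A (norm_cj cj_sub cj_mul norm_av_le av_sub av_compare ratio sq_le_sq_add count_le)
open Pool.Agent.N821.M (norm_EE_le EE_sub EE_compare Box_mono one_sub_prod_le)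
open Pool.Agent.N781.OM (MG)

lemma cc_multG {ι : Type} [Fintype ι] [DecidableEq ι] {a b : ι → ℤ} {F : ι → ℤ → ℂ} {g : ι → ℕ → ℂ}
    {F₂ : ι → ℤ → ℂ} {P00 T q : ℕ}
    (hM : MG F g F₂ P00 T) (hq : q.Prime) (h1 : P00 ≤ q) (h2 : q ≤ T)
    (ha : ∀ i, ¬ (q : ℤ) ∣ a i) (X : ℕ) (hX : 0 < X) (m : ℤ) :
    ‖Pool.Agent.N781.A.cc a b (fun i m => F i ((q : ℤ) * m)) X m
      - (∏ t, g t q) * Pool.Agent.N781.A.cc a b F₂ X m‖
      ≤ 2 * Fintype.card ι * (1 / q + 1 / X) := by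
  classical
  have hX' : (0 : ℝ) < X := by exact_mod_cast hX
  obtain ⟨hF, hF₂, hg, hmul⟩ := hM
  unfold Pool.Agent.N781.A.cc av
  have e : (∑ n ∈ Icc (1 : ℤ) X, ∏ i, F i ((q : ℤ) * (a i * n + b i * m))) / (X : ℂ)
      - (∏ t, g t q) * ((∑ n ∈ Icc (1 : ℤ) X, ∏ i, F₂ i (a i * n + b i * m)) / (X : ℂ))
      = (∑ n ∈ Icc (1 : ℤ) X, (∏ i, F i ((q : ℤ) * (a i * n + b i * m))
          - (∏ t, g t q) * ∏ i, F₂ i (a i * n + b i * m))) / (X : ℂ) := by
    rw [Finset.sum_sub_distrib, ← Finset.mul_sum]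
    ring
  rw [e, norm_div, Complex.norm_natCast, div_le_iff₀ hX']
  have hG : ‖∏ t, g t q‖ ≤ 1 := by
    rw [norm_prod]
    exact Finset.prod_le_one (fun _ _ => norm_nonneg _) fun i _ => hg i q hq h1 h2
  have hterm : ∀ n : ℤ, ‖∏ i, F i ((q : ℤ) * (a i * n + b i * m))
      - (∏ t, g t q) * ∏ i, F₂ i (a i * n + b i * m)‖
      ≤ ∑ t, if (q : ℤ) ∣ a t * n + b t * m then (2 : ℝ) else 0 := by
    intro n
    by_cases hd : ∀ t, ¬ (q : ℤ) ∣ a t * n + b t * m
    · have h3 : ∏ i, F i ((q : ℤ) * (a i * n + b i * m))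
          = (∏ t, g t q) * ∏ i, F₂ i (a i * n + b i * m) := by
        rw [← Finset.prod_mul_distrib]
        exact Finset.prod_congr rfl fun i _ => hmul i q hq h1 h2 _ (hd i)
      rw [h3, sub_self, norm_zero]
      exact Finset.sum_nonneg fun t _ => by split_ifs <;> norm_num
    · push Not at hd
      obtain ⟨t, ht⟩ := hd
      have h4 : ‖∏ i, F i ((q : ℤ) * (a i * n + b i * m))
          - (∏ t, g t q) * ∏ i, F₂ i (a i * n + b i * m)‖ ≤ 2 := by
        refine (norm_sub_le _ _).trans ?_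
        have h5 : ‖∏ i, F i ((q : ℤ) * (a i * n + b i * m))‖ ≤ 1 := by
          rw [norm_prod]
          exact Finset.prod_le_one (fun _ _ => norm_nonneg _) fun i _ => hF i _
        have h6 : ‖∏ i, F₂ i (a i * n + b i * m)‖ ≤ 1 := by
          rw [norm_prod]
          exact Finset.prod_le_one (fun _ _ => norm_nonneg _) fun i _ => hF₂ i _
        have h7 : ‖(∏ t, g t q) * ∏ i, F₂ i (a i * n + b i * m)‖ ≤ 1 := by
          rw [norm_mul]
          exact mul_le_one₀ hG (norm_nonneg _) h6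
        linarith
      have h8 := Finset.single_le_sum
        (f := fun t => if (q : ℤ) ∣ a t * n + b t * m then (2 : ℝ) else 0)
        (fun t _ => by split_ifs <;> norm_num) (Finset.mem_univ t)
      simp only [if_pos ht] at h8
      exact h4.trans h8
  refine (norm_sum_le _ _).trans ?_
  refine (Finset.sum_le_sum fun n _ => hterm n).trans ?_
  rw [Finset.sum_comm]
  have h9 : ∀ t, ∑ n ∈ Icc (1 : ℤ) X, (if (q : ℤ) ∣ a t * n + b t * m then (2 : ℝ) else 0)
      ≤ 2 * (X / q + 1) := by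
    intro t
    rw [← Finset.sum_filter, Finset.sum_const, nsmul_eq_mul]
    have := count_le (c := b t * m) (X := X) hq (ha t)
    linarith
  refine (Finset.sum_le_sum fun t _ => h9 t).trans ?_
  rw [Finset.sum_const, Finset.card_univ, nsmul_eq_mul]
  apply le_of_eq
  field_simp

theorem mult : S_MULT := by
  intro κ I ι _ _ _ _ _ _ σ a L ha ε hε
  classical
  set k : ℝ := ((Fintype.card ι : ℕ) : ℝ) with hk
  set l : ℝ := ((Fintype.card I : ℕ) : ℝ) with hl
  set r : ℝ := ((Fintype.card κ : ℕ) : ℝ) with hr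
  have hk0 : 0 ≤ k := by positivity
  have hl0 : 0 ≤ l := by positivity
  have hr0 : 0 ≤ r := by positivity
  set τ : ℝ := min (1 / (6 * (r + 1))) (ε / (2 * (l * (4 * k + 6)) + 12 * r + 1)) with hτdef
  have hden : 0 < 2 * (l * (4 * k + 6)) + 12 * r + 1 := by positivity
  have hτ : 0 < τ := lt_min (by positivity) (by positivity)
  have hτr : τ * (6 * (r + 1)) ≤ 1 := by
    have := min_le_left (1 / (6 * (r + 1))) (ε / (2 * (l * (4 * k + 6)) + 12 * r + 1))
    rwa [← hτdef, le_div_iff₀ (by positivity)] at this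
  have hτ6 : τ ≤ 1 / 6 := by nlinarith
  have hτε : τ * (2 * (l * (4 * k + 6)) + 12 * r + 1) ≤ ε := by
    have := min_le_right (1 / (6 * (r + 1))) (ε / (2 * (l * (4 * k + 6)) + 12 * r + 1))
    rwa [← hτdef, le_div_iff₀ hden] at this
  refine ⟨τ, hτ, by linarith, ⌈1 / τ⌉₊ + ∑ t, (a t).natAbs + 1, fun P hP => ?_⟩
  refine ⟨⌈4 * (P : ℝ) * (1 / τ + 1)⌉₊, fun B x K s hB hx hK q hq hPq hqP F g F₂ P00 T hM h1 h2 N θ
    => ?_⟩
  have hPk : 1 / τ ≤ (P : ℝ) := (Nat.le_ceil _).trans (by exact_mod_cast (by omega))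
  have haq : ∀ t, ¬ (q : ℤ) ∣ a t := by
    intro t hd
    have h3 : q ≤ (a t).natAbs := by
      have h4 := Int.natAbs_dvd_natAbs.2 hd
      rw [Int.natAbs_natCast] at h4
      exact Nat.le_of_dvd (Int.natAbs_pos.2 (ha t)) h4
    have h5 : (a t).natAbs ≤ ∑ t, (a t).natAbs :=
      Finset.single_le_sum (f := fun t => (a t).natAbs) (fun _ _ => Nat.zero_le _)
        (Finset.mem_univ t)
    omega
  have hrB := fun j => ratio hτ hτ6 hPk hPq hqP ((Nat.le_ceil _).trans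
    (by exact_mod_cast hB j : ((⌈4 * (P : ℝ) * (1 / τ + 1)⌉₊ : ℕ) : ℝ) ≤ B j))
  have hrK := fun j => ratio hτ hτ6 hPk hPq hqP ((Nat.le_ceil _).trans
    (by exact_mod_cast hK j : ((⌈4 * (P : ℝ) * (1 / τ + 1)⌉₊ : ℕ) : ℝ) ≤ K j))
  obtain ⟨hx0, hx1, hx2, hx3⟩ := ratio hτ hτ6 hPk hPq hqP ((Nat.le_ceil _).trans
    (by exact_mod_cast hx : ((⌈4 * (P : ℝ) * (1 / τ + 1)⌉₊ : ℕ) : ℝ) ≤ x))
  have hprod : ∀ A : κ → ℕ, (∀ j, 0 < A j / q ∧ A j / q ≤ A j / P ∧
      1 - ((A j / q : ℕ) : ℝ) / ((A j / P : ℕ) : ℝ) ≤ 3 * τ ∧ 1 / ((A j / q : ℕ) : ℝ) ≤ τ) →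
      1 - ∏ j, (((A j / q : ℕ) : ℝ) / ((A j / P : ℕ) : ℝ)) ≤ r * (3 * τ) := by
    intro A hA
    refine Pool.Agent.N821.M.one_sub_prod_le (fun j => by positivity) (fun j => ?_) (fun j => (hA j).2.2.1)
    have h3 : (0 : ℝ) < ((A j / P : ℕ) : ℝ) := by
      exact_mod_cast lt_of_lt_of_le (hA j).1 (hA j).2.1
    rw [div_le_one h3]
    exact_mod_cast (hA j).2.1
  have hF := hM.1
  have hF₂ := hM.2.1
  have hq0 : (0 : ℝ) < q := by exact_mod_cast hq.pos
  have hqk : 1 / (q : ℝ) ≤ τ := by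
    have h3 : 1 / τ ≤ (q : ℝ) := hPk.trans (by exact_mod_cast hPq)
    rw [div_le_iff₀ hτ] at h3
    rw [div_le_iff₀ hq0]
    linarith
  -- the functions
  have hccb : ∀ (F' : ι → ℤ → ℂ), (∀ i m, ‖F' i m‖ ≤ 1) → ∀ X y, ‖cc a L F' X y‖ ≤ 1 := by
    intro F' hF' X y
    unfold cc
    refine norm_av_le zero_le_one fun n => ?_
    rw [norm_prod]
    exact Finset.prod_le_one (fun _ _ => norm_nonneg _) fun i _ => hF' i _
  set G0 : ℂ := ∏ t, g t q with hG0
  have hG0n : ‖G0‖ ≤ 1 := by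
    rw [hG0, norm_prod]
    exact Finset.prod_le_one (fun _ _ => norm_nonneg _) fun i _ => hM.2.2.1 i q hq h1 h2
  set G1 : ℂ := ∏ i, cj (σ i) G0 with hG1
  have hG1n : ‖G1‖ ≤ 1 := by
    rw [hG1, norm_prod]
    exact Finset.prod_le_one (fun _ _ => norm_nonneg _) fun i _ => by rw [norm_cj]; exact hG0n
  set E : ℝ := (4 * k + 6) * τ with hE
  have hE0 : 0 ≤ E := by positivity
  have hpt : ∀ y, ‖cc a L (fun i m => F i ((q : ℤ) * m)) (x / q) y - G0 * cc a L F₂ (x / P) y‖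
      ≤ E := by
    intro y
    have e1 := cc_multG (b := fun i => LL L i y) hM hq h1 h2 haq (x / q) hx0 1
    have e1a : ∀ (F' : ι → ℤ → ℂ) (X : ℕ),
        Pool.Agent.N781.A.cc a (fun i => LL L i y) F' X 1 = cc a L F' X y := by
      intro F' X
      unfold Pool.Agent.N781.A.cc cc
      simp only [mul_one]
    rw [e1a, e1a] at e1
    have e2 : ‖cc a L F₂ (x / q) y - cc a L F₂ (x / P) y‖ ≤ 2 * (3 * τ) := by
      unfold cc
      refine (av_compare hx0 hx1 fun n => ?_).trans (by linarith)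
      rw [norm_prod]
      exact Finset.prod_le_one (fun _ _ => norm_nonneg _) fun i _ => hF₂ i _
    have e3 : cc a L (fun i m => F i ((q : ℤ) * m)) (x / q) y - G0 * cc a L F₂ (x / P) y
        = (cc a L (fun i m => F i ((q : ℤ) * m)) (x / q) y - G0 * cc a L F₂ (x / q) y)
          + G0 * (cc a L F₂ (x / q) y - cc a L F₂ (x / P) y) := by ring
    rw [e3]
    refine (norm_add_le _ _).trans ?_
    have e4 : ‖G0 * (cc a L F₂ (x / q) y - cc a L F₂ (x / P) y)‖ ≤ 2 * (3 * τ) := by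
      rw [norm_mul]
      calc _ ≤ 1 * ‖cc a L F₂ (x / q) y - cc a L F₂ (x / P) y‖ :=
            mul_le_mul_of_nonneg_right hG0n (norm_nonneg _)
        _ ≤ _ := by rw [one_mul]; exact e2
    have e5 : 2 * (Fintype.card ι : ℝ) * (1 / q + 1 / ((x / q : ℕ) : ℝ)) ≤ 2 * k * (τ + τ) := by
      rw [← hk]
      exact mul_le_mul_of_nonneg_left (add_le_add hqk hx3) (by positivity)
    calc _ ≤ 2 * k * (τ + τ) + 2 * (3 * τ) := add_le_add (e1.trans e5) e4
      _ = E := by rw [hE]; ring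
  set Lf : (κ → ℤ) → ℂ := fun y => ∏ i, cj (σ i)
    (cc a L (fun i m => F i ((q : ℤ) * m)) (x / q) (y + N i)) with hLf
  set Rf : (κ → ℤ) → ℂ := fun y => ∏ i, cj (σ i) (cc a L F₂ (x / P) (y + N i)) with hRf
  have hLb : ∀ y, ‖Lf y‖ ≤ 1 := by
    intro y
    rw [hLf]
    dsimp only
    rw [norm_prod]
    exact Finset.prod_le_one (fun _ _ => norm_nonneg _) fun i _ => by
      rw [norm_cj]; exact hccb _ (fun i m => hF i _) _ _
  have hRb : ∀ y, ‖Rf y‖ ≤ 1 := by
    intro y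
    rw [hRf]
    dsimp only
    rw [norm_prod]
    exact Finset.prod_le_one (fun _ _ => norm_nonneg _) fun i _ => by
      rw [norm_cj]; exact hccb _ hF₂ _ _
  have hLR : ∀ y, ‖Lf y - G1 * Rf y‖ ≤ l * E := by
    intro y
    have e1 : G1 * Rf y = ∏ i, cj (σ i) (G0 * cc a L F₂ (x / P) (y + N i)) := by
      rw [hG1, hRf]
      dsimp only
      rw [← Finset.prod_mul_distrib]
      exact Finset.prod_congr rfl fun i _ => (cj_mul _ _ _).symm
    rw [e1, hLf]
    dsimp only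
    refine (prod_sub_le _ _ _ (fun i => ?_) (fun i => ?_)).trans ?_
    · rw [norm_cj]
      exact hccb _ (fun i m => hF i _) _ _
    · rw [norm_cj, norm_mul]
      exact mul_le_one₀ hG0n (norm_nonneg _) (hccb _ hF₂ _ _)
    · calc _ ≤ ∑ _i : I, E := Finset.sum_le_sum fun i _ => by
            rw [cj_sub, norm_cj]; exact hpt _
        _ = l * E := by rw [Finset.sum_const, Finset.card_univ, nsmul_eq_mul, ← hl]
  -- the inner averages
  have hinner : ∀ y : κ → ℤ,
      ‖EE (fun j => K j / q) fun k => Lf (y + (s : ℤ) • k) * eR (dot θ k)‖ ^ 2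
      ≤ ‖EE (fun j => K j / P) fun k => Rf (y + (s : ℤ) • k) * eR (dot θ k)‖ ^ 2
        + (2 * (l * E) + 12 * r * τ) := by
    intro y
    have hb1 : ‖EE (fun j => K j / q) fun k => Lf (y + (s : ℤ) • k) * eR (dot θ k)‖ ≤ 1 :=
      norm_EE_le zero_le_one fun n => by rw [norm_mul, norm_eR, mul_one]; exact hLb _
    have hb2 : ‖EE (fun j => K j / q) fun k => G1 * (Rf (y + (s : ℤ) • k) * eR (dot θ k))‖ ≤ 1 :=
      norm_EE_le zero_le_one fun n => by
        rw [norm_mul, norm_mul, norm_eR, mul_one]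
        exact mul_le_one₀ hG1n (norm_nonneg _) (hRb _)
    have hb3 : ‖EE (fun j => K j / q) fun k => Rf (y + (s : ℤ) • k) * eR (dot θ k)‖ ≤ 1 :=
      norm_EE_le zero_le_one fun n => by rw [norm_mul, norm_eR, mul_one]; exact hRb _
    have hb4 : ‖EE (fun j => K j / P) fun k => Rf (y + (s : ℤ) • k) * eR (dot θ k)‖ ≤ 1 :=
      norm_EE_le zero_le_one fun n => by rw [norm_mul, norm_eR, mul_one]; exact hRb _
    have d1 : ‖(EE (fun j => K j / q) fun k => Lf (y + (s : ℤ) • k) * eR (dot θ k))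
        - EE (fun j => K j / q) fun k => G1 * (Rf (y + (s : ℤ) • k) * eR (dot θ k))‖
        ≤ l * E := by
      rw [EE_sub]
      refine norm_EE_le (by positivity) fun n => ?_
      have : Lf (y + (s : ℤ) • n) * eR (dot θ n) - G1 * (Rf (y + (s : ℤ) • n) * eR (dot θ n))
          = (Lf (y + (s : ℤ) • n) - G1 * Rf (y + (s : ℤ) • n)) * eR (dot θ n) := by ring
      rw [this, norm_mul, norm_eR, mul_one]
      exact hLR _
    have d2 : ‖(EE (fun j => K j / q) fun k => Rf (y + (s : ℤ) • k) * eR (dot θ k))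
        - EE (fun j => K j / P) fun k => Rf (y + (s : ℤ) • k) * eR (dot θ k)‖
        ≤ 2 * (r * (3 * τ)) :=
      (EE_compare (fun j => (hrK j).1) (fun j => (hrK j).2.1) fun n => by
        rw [norm_mul, norm_eR, mul_one]; exact hRb _).trans
        (by have := hprod K hrK; linarith)
    have d3 : ‖EE (fun j => K j / q) fun k => G1 * (Rf (y + (s : ℤ) • k) * eR (dot θ k))‖ ^ 2
        ≤ ‖EE (fun j => K j / q) fun k => Rf (y + (s : ℤ) • k) * eR (dot θ k)‖ ^ 2 := by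
      have : (EE (fun j => K j / q) fun k => G1 * (Rf (y + (s : ℤ) • k) * eR (dot θ k)))
          = G1 * EE (fun j => K j / q) fun k => Rf (y + (s : ℤ) • k) * eR (dot θ k) := by
        unfold EE
        rw [← Finset.mul_sum, mul_div_assoc]
      rw [this, norm_mul]
      apply pow_le_pow_left₀ (by positivity)
      exact mul_le_of_le_one_left (norm_nonneg _) hG1n
    have s1 := sq_le_sq_add hb1 hb2 d1
    have s2 := sq_le_sq_add hb3 hb4 d2
    linarith
  -- the outer averages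
  set Vq : ℝ := ∏ j, ((B j / q : ℕ) : ℝ) with hVq
  set VP : ℝ := ∏ j, ((B j / P : ℕ) : ℝ) with hVP
  have hVq0 : 0 < Vq := Finset.prod_pos fun j _ => by exact_mod_cast (hrB j).1
  have hVqP : Vq ≤ VP := Finset.prod_le_prod (fun j _ => Nat.cast_nonneg _)
    fun j _ => by exact_mod_cast (hrB j).2.1
  have hVP0 : 0 < VP := hVq0.trans_le hVqP
  have hV2 : VP ≤ 2 * Vq := by
    have h3 := hprod B hrB
    rw [Finset.prod_div_distrib, ← hVq, ← hVP] at h3
    have : 1 / 2 ≤ Vq / VP := by nlinarith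
    rw [le_div_iff₀ hVP0] at this
    linarith
  set Gf : (κ → ℤ) → ℝ := fun y =>
    ‖EE (fun j => K j / P) fun k => Rf (y + (s : ℤ) • k) * eR (dot θ k)‖ ^ 2 with hGf
  have hG0' : ∀ y, 0 ≤ Gf y := fun y => by rw [hGf]; positivity
  have hout : ER (fun j => B j / q) Gf ≤ 2 * ER (fun j => B j / P) Gf := by
    unfold ER
    rw [← hVq, ← hVP, div_le_iff₀ hVq0]
    have e1 : ∑ y ∈ Box (fun j => B j / q), Gf y ≤ ∑ y ∈ Box (fun j => B j / P), Gf y :=
      Finset.sum_le_sum_of_subset_of_nonneg (Box_mono fun j => (hrB j).2.1) fun y _ _ => hG0' y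
    have e2 : (0 : ℝ) ≤ ∑ y ∈ Box (fun j => B j / P), Gf y :=
      Finset.sum_nonneg fun y _ => hG0' y
    refine e1.trans ?_
    set S := ∑ y ∈ Box (fun j => B j / P), Gf y
    have e3 : 2 * (S / VP) * Vq = S * (2 * Vq / VP) := by ring
    rw [e3]
    have e4 : 1 ≤ 2 * Vq / VP := by
      rw [le_div_iff₀ hVP0]
      linarith
    exact le_mul_of_one_le_right e2 e4
  have hfin : SS (fun j => B j / q) s (fun j => K j / q) Lf θ ≤
      ER (fun j => B j / q) Gf + (2 * (l * E) + 12 * r * τ) := by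
    unfold SS ER
    rw [← hVq, div_le_iff₀ hVq0, add_mul, div_mul_cancel₀ _ hVq0.ne']
    refine (Finset.sum_le_sum fun y _ => hinner y).trans ?_
    rw [Finset.sum_add_distrib, Finset.sum_const, nsmul_eq_mul, Box_card, ← hVq]
    linarith [mul_comm Vq (2 * (l * E) + 12 * r * τ)]
  have hlast : 2 * (l * E) + 12 * r * τ ≤ ε := by
    calc _ ≤ τ * (2 * (l * (4 * k + 6)) + 12 * r + 1) := by
          have : τ * (2 * (l * (4 * k + 6)) + 12 * r + 1) = 2 * (l * E) + 12 * r * τ + τ := by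
            rw [hE]; ring
          linarith
      _ ≤ ε := hτε
  have hSSR : SS (fun j => B j / P) s (fun j => K j / P) Rf θ = ER (fun j => B j / P) Gf := rfl
  rw [hSSR]
  linarith

end Pool.Agent.N675.M.G12
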