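import Pool.Agent.J4.H12.LO.Iso
import Pool.Agent.J4.H12.LO.Mult
import Pool.Agent.J4.H12.LO.Eng
import Pool.Agent.J4.H12.LO.Gn1
import Pool.Agent.N675.M.All

/-! Families of functions with `f (p m) = g(p) f₂(m)` at the primes and small averages over
arithmetic progressions: the averages over cubes. -/

set_option autoImplicit false

namespace Pool.Agent.N675.M.G12

open Finset Pool.Agent.N675 Pool.Agent.N781.A Pool.Agent.N781.FV
open Pool.Agent.N675.M
open Pool.Agent.N781.OM (MG)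
open Pool.Agent.J4.H12.LO (GP GP_prod ind_shift)
open Pool.Agent.W36.GU (win)

theorem eng_all : G12.S_ENG :=
  G12.eng Pool.Agent.N572.M.xx ari' (Pool.Agent.N344.M.dilss Pool.Agent.N591.M.dilsq) G12.mult

theorem step_all : G12.S_STEP :=
  G12.step perm' mono' Pool.Agent.N475.M.Shape.shape Pool.Agent.N803.M.U2.xx Pool.Agent.N34.M.maj
    G12.eng_all

theorem struct_all : G12.S_STRUCT :=
  G12.struct perm' mono' G12.step_all Pool.Agent.N27.M.gvn_main

theorem iso_all : ∀ N, S_ISO N := iso G12.struct_all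

/-- one function: `f (p m) = g(p) f₂(m)` at the primes of `[P0, T]` -/
def M1 (f : ℤ → ℝ) (P0 T : ℕ) : Prop :=
  (∀ m, |f m| ≤ 1) ∧ ∃ (g : ℕ → ℂ) (f₂ : ℤ → ℂ), (∀ m, ‖f₂ m‖ ≤ 1) ∧
    (∀ p, p.Prime → P0 ≤ p → p ≤ T → ‖g p‖ ≤ 1) ∧
    ∀ p, p.Prime → P0 ≤ p → p ≤ T → ∀ m : ℤ, ¬ (p : ℤ) ∣ m →
      ((f ((p : ℤ) * m) : ℝ) : ℂ) = g p * f₂ m

/-- a family of functions, one set of functions for each `X`, with `f (p m) = g(p) f₂(m)` at the
primes and small averages over the arithmetic progressions in `[- C X, C X]` with `X / C` terms -/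
structure Fam (Φ : ℕ → Set (ℤ → ℝ)) (P0 : ℕ) : Prop where
  mul : ∀ T : ℕ, ∃ X0 : ℕ, ∀ X : ℕ, X0 ≤ X → ∀ f ∈ Φ X, M1 f P0 T
  small : ∀ c : ℤ, c ≠ 0 → ∀ (C : ℕ) (ε : ℝ), 0 < ε → ∃ X0 : ℕ, ∀ X : ℕ, X0 ≤ X →
    ∀ (x : ℕ) (b : ℤ), x ≤ X → X ≤ C * x → |b| ≤ C * X → ∀ f ∈ Φ X,
      ‖av x fun t => ((f (c * t + b) : ℝ) : ℂ)‖ ≤ ε

/-- the forms of the cube -/
def Lk (k : ℕ) : (Fin k → Bool) → Fin k ⊕ (Fin k ⊕ Unit) → ℤ := fun ω =>
  Sum.elim (fun j => if ω j then 1 else 0) (Sum.elim (fun j => if ω j then 1 else 0) (fun _ => 1))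

/-- the correlations over the small cubes are small in mean square -/
theorem cube_small {Φ : ℕ → Set (ℤ → ℝ)} {P0 : ℕ} (hΦ : Fam Φ P0) (k R : ℕ) {ε : ℝ} (hε : 0 < ε) :
    ∃ X0 : ℕ, ∀ X : ℕ, X0 ≤ X → ∀ H : ℕ, H ≤ X → X ≤ R * H → ∀ f ∈ Φ X,
      ER (Sum.elim (fun _ : Fin k => H) (Sum.elim (fun _ : Fin k => X) (fun _ : Unit => X))) (fun y =>
        ‖cc (fun _ : Fin k → Bool => 1) (Lk k) (fun _ m => ((f m : ℝ) : ℂ)) H y‖ ^ 2) < ε := by
  classical
  obtain ⟨c, δ, R₁, T, K, hc, hδ, hiso⟩ := iso_all (Fintype.card (Fin k → Bool))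
    (Fin k ⊕ (Fin k ⊕ Unit)) (Fin k → Bool) (fun _ => 1) (Lk k) (fun _ => true) (fun _ => false)
    (fun _ => one_ne_zero) (Nat.le_succ _) (by
      intro ω hω
      obtain ⟨j, hj⟩ := Function.ne_iff.1 hω
      refine ⟨Sum.inl j, rfl, ?_⟩
      unfold Lk
      simp only [Sum.elim_inl, one_mul]
      cases h : ω j
      · exact absurd h hj
      · simp) P0 (R + 1) ε hε
  obtain ⟨X1, h1⟩ := hΦ.mul T
  obtain ⟨X2, h2⟩ := hΦ.small c hc (R * R₁ + R₁) (δ / 2) (by positivity)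
  refine ⟨X1 + X2 + R * K + K + 1, fun X hX H hHX hXH f hf => ?_⟩
  by_contra hcon
  push Not at hcon
  obtain ⟨hf1, g, f₂, hf₂, hg, hmul⟩ := h1 X (by omega) f hf
  have hR0 : 0 < R := by
    rcases Nat.eq_zero_or_pos R with h | h
    · subst h; omega
    · exact h
  have hKH : K ≤ H := by
    by_contra hlt
    push Not at hlt
    have : R * H ≤ R * K := Nat.mul_le_mul_left _ hlt.le
    omega
  have hRX : X ≤ R * X := Nat.le_mul_of_pos_left _ hR0
  have hRH : H ≤ R * H := Nat.le_mul_of_pos_left _ hR0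
  obtain ⟨x', b, g1, g2, g3, g4⟩ := hiso (Sum.elim (fun _ : Fin k => H)
      (Sum.elim (fun _ : Fin k => X) (fun _ : Unit => X))) H (by
        rintro (j | (j | j))
        · exact hKH
        · show K ≤ X
          omega
        · show K ≤ X
          omega) hKH (by
        rintro (j | (j | j))
        · show H ≤ (R + 1) * H
          nlinarith
        · show X ≤ (R + 1) * H
          nlinarith
        · show X ≤ (R + 1) * H
          nlinarith) (by
        rintro (j | (j | j)) _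
        · show H ≤ (R + 1) * H
          nlinarith
        · show H ≤ (R + 1) * X
          nlinarith
        · show H ≤ (R + 1) * X
          nlinarith)
      (fun _ m => ((f m : ℝ) : ℂ)) (fun _ => g) (fun _ => f₂)
      ⟨fun _ m => by rw [Complex.norm_real]; exact hf1 m, fun _ m => hf₂ m, fun _ => hg,
        fun _ => hmul⟩ hcon
  have h3 := h2 X (by omega) x' b (g1.trans hHX) (by
      calc X ≤ R * H := hXH
        _ ≤ R * (R₁ * x') := Nat.mul_le_mul_left _ g2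
        _ = R * R₁ * x' := by ring
        _ ≤ _ := Nat.mul_le_mul_right _ (Nat.le_add_right _ _)) (by
      refine g3.trans ?_
      have : R₁ * H ≤ (R * R₁ + R₁) * X := Nat.mul_le_mul (Nat.le_add_left _ _) hHX
      exact_mod_cast this) f hf
  have h4 : δ ≤ ‖av x' fun t => ((f (c * t + b) : ℝ) : ℂ)‖ := g4
  linarith

end Pool.Agent.N675.M.G12
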