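import Pool.Agent.J4.H12.LO.Gn2

/-! From the averages over small cubes to the Gowers norms on windows. -/

set_option autoImplicit false

namespace Pool.Agent.N675.M.G12

open Finset Pool.Agent.N675 Pool.Agent.N781.A Pool.Agent.N781.FV
open Pool.Agent.N675.M
open Pool.Agent.J4.H12.LO (GP GP_prod ind_shift)
open Pool.Agent.W36.GU (win)

/-- the value of the form of the cube -/
def lf {k : ℕ} (ω : Fin k → Bool) (z : Fin k ⊕ Unit → ℤ) : ℤ :=
  z (Sum.inr ()) + ∑ j, if ω j then z (Sum.inl j) else 0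

lemma lf_add {k : ℕ} (ω : Fin k → Bool) (z w : Fin k ⊕ Unit → ℤ) :
    lf ω (z + w) = lf ω z + lf ω w := by
  unfold lf
  have : ∑ j, (if ω j then (z + w) (Sum.inl j) else 0)
      = ∑ j, (if ω j then z (Sum.inl j) else 0) + ∑ j, (if ω j then w (Sum.inl j) else 0) := by
    rw [← sum_add_distrib]
    exact sum_congr rfl fun j _ => by split_ifs <;> simp
  rw [this, Pi.add_apply]
  ring

/-- the product over the cube of a function -/
noncomputable def pc (k : ℕ) (f : ℤ → ℝ) (z : Fin k ⊕ Unit → ℤ) : ℝ :=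
  ∏ ω : Fin k → Bool, f (lf ω z)

lemma pc_abs {k : ℕ} {f : ℤ → ℝ} (hf : ∀ n, |f n| ≤ 1) (z : Fin k ⊕ Unit → ℤ) : |pc k f z| ≤ 1 := by
  unfold pc
  rw [abs_prod]
  exact prod_le_one (fun _ _ => abs_nonneg _) fun _ _ => hf _

/-- the sum over the cubes as an average -/
lemma GP_avg (k : ℕ) {X : ℕ} (hX : 0 < X) (W : ℤ → ℝ) :
    ((GP k W X : ℝ) : ℂ) = (X : ℂ) ^ (k + 1) *
      EE (Sum.elim (fun _ : Fin k => X) (fun _ : Unit => X)) fun z => ((pc k W z : ℝ) : ℂ) := by
  have hX0 : (X : ℂ) ≠ 0 := by exact_mod_cast hX.ne'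
  rw [Pool.Agent.N565.A.EE_sum]
  simp only [Pool.Agent.N565.A.EE_unit, Sum.elim_inl, Sum.elim_inr]
  unfold EE av
  rw [GP_prod, prod_const, card_univ, Fintype.card_fin, ← Finset.sum_div]
  push_cast
  have e : ∀ h : Fin k → ℤ, ∑ n ∈ Icc (1 : ℤ) X, ((pc k W (Sum.elim h fun _ => n) : ℝ) : ℂ)
      = ∑ n ∈ Icc (1 : ℤ) X, ∏ ω : Fin k → Bool, ((W (n + ∑ j, if ω j then h j else 0) : ℝ) : ℂ) := by
    intro h
    refine sum_congr rfl fun n _ => ?_
    unfold pc lf
    push_cast
    rfl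
  simp only [e]
  rw [pow_succ]
  field_simp

/-- the window at a translated cube -/
lemma win_pc (k M N : ℕ) (f : ℤ → ℝ) (z : Fin k ⊕ Unit → ℤ) :
    pc k (win M N f) z = pc k (win M N (fun _ => 1)) z * pc k f z := by
  unfold pc
  rw [← prod_mul_distrib]
  refine prod_congr rfl fun ω _ => ?_
  unfold win
  split_ifs <;> simp

lemma abs_prod_sub_le {ι : Type} [Fintype ι] (a b : ι → ℝ) (ha : ∀ i, |a i| ≤ 1)
    (hb : ∀ i, |b i| ≤ 1) : |∏ i, a i - ∏ i, b i| ≤ ∑ i, |a i - b i| := by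
  classical
  have key : ∀ s : Finset ι, |∏ i ∈ s, a i - ∏ i ∈ s, b i| ≤ ∑ i ∈ s, |a i - b i| := by
    intro s
    induction s using Finset.induction_on with
    | empty => simp
    | insert i s hi ih =>
      rw [prod_insert hi, prod_insert hi, sum_insert hi]
      have e : a i * ∏ j ∈ s, a j - b i * ∏ j ∈ s, b j
          = (a i - b i) * ∏ j ∈ s, a j + b i * (∏ j ∈ s, a j - ∏ j ∈ s, b j) := by ring
      rw [e]
      refine (abs_add_le _ _).trans (add_le_add ?_ ?_)
      · rw [abs_mul]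
        refine mul_le_of_le_one_right (abs_nonneg _) ?_
        rw [abs_prod]
        exact prod_le_one (fun _ _ => abs_nonneg _) fun _ _ => ha _
      · rw [abs_mul]
        exact (mul_le_of_le_one_left (abs_nonneg _) (hb i)).trans ih
  exact key univ

/-- the window changes at few points under a small translation -/
lemma win_change (k M N : ℕ) {X H : ℕ} (hX : 0 < X) {w : Fin k ⊕ Unit → ℤ}
    (hw : w ∈ Box (Sum.elim (fun _ : Fin k => H) (fun _ : Unit => H))) :
    ER (Sum.elim (fun _ : Fin k => X) (fun _ : Unit => X)) (fun z =>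
      |pc k (win M N (fun _ => 1)) (z + w) - pc k (win M N (fun _ => 1)) z|)
      ≤ 2 ^ k * (2 * ((k + 1) * H / X)) := by
  classical
  have hXR : (0 : ℝ) < X := by exact_mod_cast hX
  have hwin : ∀ n : ℤ, |win M N (fun _ => 1) n| ≤ 1 := by
    intro n
    unfold win
    split_ifs <;> simp
  rw [mem_Box] at hw
  have hd : ∀ ω : Fin k → Bool, ∃ d : ℕ, lf ω w = d ∧ d ≤ (k + 1) * H := by
    intro ω
    have h1 : 0 ≤ lf ω w := by
      unfold lf
      refine add_nonneg (by have := (hw (Sum.inr ())).1; linarith) (sum_nonneg fun j _ => ?_)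
      split_ifs
      · have := (hw (Sum.inl j)).1; linarith
      · exact le_rfl
    have h2 : lf ω w ≤ ((k + 1) * H : ℕ) := by
      unfold lf
      have e1 : w (Sum.inr ()) ≤ H := (hw (Sum.inr ())).2
      have e2 : ∑ j, (if ω j then w (Sum.inl j) else 0) ≤ ∑ _j : Fin k, (H : ℤ) := by
        refine sum_le_sum fun j _ => ?_
        split_ifs
        · exact (hw (Sum.inl j)).2
        · positivity
      rw [sum_const, card_univ, Fintype.card_fin, nsmul_eq_mul] at e2
      push_cast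
      linarith
    exact ⟨(lf ω w).toNat, by omega, by omega⟩
  choose d hd1 hd2 using hd
  have h1 : ∀ z, |pc k (win M N (fun _ => 1)) (z + w) - pc k (win M N (fun _ => 1)) z|
      ≤ ∑ ω : Fin k → Bool, |win M N (fun _ => 1) (lf ω z + d ω) - win M N (fun _ => 1) (lf ω z)| := by
    intro z
    unfold pc
    refine (abs_prod_sub_le _ _ (fun _ => hwin _) (fun _ => hwin _)).trans (le_of_eq ?_)
    refine sum_congr rfl fun ω _ => ?_
    rw [lf_add, hd1]
  refine (ER_mono _ fun z _ => h1 z).trans ?_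
  have h2 : ER (Sum.elim (fun _ : Fin k => X) (fun _ : Unit => X)) (fun z =>
      ∑ ω : Fin k → Bool, |win M N (fun _ => 1) (lf ω z + d ω) - win M N (fun _ => 1) (lf ω z)|)
      = ∑ ω : Fin k → Bool, ER (Sum.elim (fun _ : Fin k => X) (fun _ : Unit => X)) (fun z =>
        |win M N (fun _ => 1) (lf ω z + d ω) - win M N (fun _ => 1) (lf ω z)|) := by
    unfold ER
    rw [← Finset.sum_div, Finset.sum_comm]
  rw [h2]
  have h3 : ∀ ω : Fin k → Bool, ER (Sum.elim (fun _ : Fin k => X) (fun _ : Unit => X)) (fun z =>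
        |win M N (fun _ => 1) (lf ω z + d ω) - win M N (fun _ => 1) (lf ω z)|)
      ≤ 2 * ((k + 1) * H / X) := by
    intro ω
    rw [ER_sum]
    have h4 : ∀ u : Fin k → ℤ, (ER (fun _ : Unit => X) fun v =>
        |win M N (fun _ => 1) (lf ω (Sum.elim u v) + d ω) - win M N (fun _ => 1) (lf ω (Sum.elim u v))|)
        ≤ 2 * ((k + 1) * H / X) := by
      intro u
      rw [ER_unit]
      unfold avr
      rw [div_le_iff₀ hXR]
      have h5 := ind_shift M N X (∑ j, if ω j then u j else 0) (d ω)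
      have h6 : ∀ n : ℤ, lf ω (Sum.elim u fun _ => n) = (∑ j, if ω j then u j else 0) + n := by
        intro n
        unfold lf
        simp only [Sum.elim_inl, Sum.elim_inr]
        ring
      simp only [h6]
      refine h5.trans ?_
      have h7 : (d ω : ℝ) ≤ (k + 1) * H := by exact_mod_cast hd2 ω
      calc 2 * (d ω : ℝ) ≤ 2 * ((k + 1) * H) := by linarith
        _ = _ := by field_simp
    refine (ER_mono _ fun u _ => h4 u).trans ?_
    exact ER_const_le _ (by positivity)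
  refine (sum_le_sum fun ω _ => h3 ω).trans (le_of_eq ?_)
  rw [sum_const, card_univ, nsmul_eq_mul, Fintype.card_fun, Fintype.card_bool, Fintype.card_fin]
  push_cast
  ring

/-- the average over a small cube is a correlation -/
lemma small_cube (k : ℕ) (f : ℤ → ℝ) (H : ℕ) (z : Fin k ⊕ Unit → ℤ) :
    (EE (Sum.elim (fun _ : Fin k => H) (fun _ : Unit => H)) fun w => ((pc k f (z + w) : ℝ) : ℂ))
      = EE (fun _ : Fin k => H) fun h => cc (fun _ : Fin k → Bool => 1) (Lk k)
        (fun _ m => ((f m : ℝ) : ℂ)) H (Sum.elim h z) := by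
  rw [Pool.Agent.N565.A.EE_sum]
  simp only [Pool.Agent.N565.A.EE_unit, Sum.elim_inl, Sum.elim_inr]
  congr 1
  funext h
  unfold cc
  congr 1
  funext n
  unfold pc
  push_cast
  refine prod_congr rfl fun ω _ => ?_
  congr 2
  rw [lf_add]
  unfold lf LL Lk
  rw [Fintype.sum_sum_type, Fintype.sum_sum_type]
  simp only [Sum.elim_inl, Sum.elim_inr, univ_unique, sum_singleton, one_mul, ite_mul, zero_mul]
  ring

theorem gp_small {Φ : ℕ → Set (ℤ → ℝ)} {P0 : ℕ} (hΦ : Fam Φ P0) (k : ℕ) {ε : ℝ} (hε : 0 < ε) :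
    ∃ X0 : ℕ, 0 < X0 ∧ ∀ X : ℕ, X0 ≤ X → ∀ f ∈ Φ X, ∀ M N : ℕ,
      |GP k (win M N f) X| ≤ ε * (X : ℝ) ^ (k + 1) := by
  classical
  set Ck : ℝ := 2 * (k + 1) + 2 ^ k * (2 * (k + 1)) with hCk
  have hCk0 : 0 < Ck := by positivity
  set η : ℝ := min 1 (ε / (2 * Ck)) with hη
  have hη0 : 0 < η := lt_min one_pos (by positivity)
  have hη1 : η ≤ 1 := min_le_left _ _
  have hη2 : Ck * η ≤ ε / 2 := by
    have h1 : η ≤ ε / (2 * Ck) := min_le_right _ _
    rw [le_div_iff₀ (by positivity)] at h1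
    linarith
  obtain ⟨R, hR⟩ := exists_nat_ge (2 / η)
  obtain ⟨X1, h1⟩ := cube_small hΦ k R (ε := (ε / 2) ^ 2) (by positivity)
  obtain ⟨X2, h2⟩ := hΦ.mul 0
  obtain ⟨X3, h3⟩ := exists_nat_ge (2 / η)
  refine ⟨X1 + X2 + X3 + 1, by omega, fun X hX f hf M N => ?_⟩
  have hX0 : 0 < X := by omega
  have hXR : (0 : ℝ) < X := by exact_mod_cast hX0
  have hf1 : ∀ m, |f m| ≤ 1 := (h2 X (by omega) f hf).1
  have hηX : ((2 : ℕ) : ℝ) ≤ η * X := by
    have e1 : (X3 : ℝ) ≤ X := by exact_mod_cast (by omega : X3 ≤ X)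
    rw [div_le_iff₀ hη0] at h3
    push_cast
    nlinarith
  obtain ⟨f1, f2, f3⟩ := fl le_rfl hηX
  set H : ℕ := ⌊η * X⌋₊ with hH
  have hHX : H ≤ X := by
    have : (H : ℝ) ≤ X := f2.trans (by nlinarith)
    exact_mod_cast this
  have hH0 : 0 < H := by omega
  have hXRH : X ≤ R * H := by
    have e1 : (X : ℝ) ≤ R * H := by
      have e2 : 2 / η * (η * X / 2) ≤ R * H := mul_le_mul hR f1 (by positivity) (by positivity)
      have e3 : 2 / η * (η * X / 2) = X := by field_simp
      linarith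
    exact_mod_cast e1
  have h4 := h1 X (by omega) H hHX hXRH f hf
  set BX : Fin k ⊕ Unit → ℕ := Sum.elim (fun _ : Fin k => X) (fun _ : Unit => X) with hBX
  set BH : Fin k ⊕ Unit → ℕ := Sum.elim (fun _ : Fin k => H) (fun _ : Unit => H) with hBH
  have hBX0 : ∀ j, 0 < BX j := by rintro (j | j) <;> exact hX0
  have hBH0 : ∀ j, 0 < BH j := by rintro (j | j) <;> exact hH0
  set W := win M N f with hW
  set I := win M N (fun _ => (1 : ℝ)) with hI
  have hW1 : ∀ n, |W n| ≤ 1 := Pool.Agent.W36.GU.win_abs hf1 M N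
  have hI1 : ∀ n, |I n| ≤ 1 := Pool.Agent.W36.GU.win_abs (fun _ => by simp) M N
  set A : ℂ := EE BX fun z => ((pc k W z : ℝ) : ℂ) with hA
  -- translation
  have h5 : ∀ w ∈ Box BH, ‖A - EE BX fun z => ((pc k I z * pc k f (z + w) : ℝ) : ℂ)‖
      ≤ Ck * η := by
    intro w hw
    have e1 : ‖A - EE BX fun z => ((pc k W (z + w) : ℝ) : ℂ)‖ ≤ 2 * ((k + 1) * H / X) := by
      rw [norm_sub_rev]
      refine (Pool.Agent.N34.M.EE_shift BX hBX0 w (fun z => ((pc k W z : ℝ) : ℂ)) (fun z => by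
        rw [Complex.norm_real]; exact pc_abs hW1 z)).trans ?_
      refine mul_le_mul_of_nonneg_left ?_ (by norm_num)
      have hwb := mem_Box.1 hw
      have e2 : ∀ j, |(w j : ℝ)| / BX j ≤ H / X := by
        intro j
        have e3 : |(w j : ℝ)| ≤ H := by
          have h6 := hwb j
          rw [abs_of_nonneg (by exact_mod_cast (by linarith [h6.1] : (0 : ℤ) ≤ w j))]
          rcases j with j | j
          · exact_mod_cast h6.2
          · exact_mod_cast h6.2
        have e4 : ((BX j : ℕ) : ℝ) = X := by rcases j with j | j <;> rfl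
        rw [e4]
        gcongr
      refine (sum_le_sum fun j _ => e2 j).trans (le_of_eq ?_)
      rw [sum_const, card_univ, nsmul_eq_mul, Fintype.card_sum, Fintype.card_fin,
        Fintype.card_unit]
      push_cast
      ring
    have e2 : ‖(EE BX fun z => ((pc k W (z + w) : ℝ) : ℂ))
        - EE BX fun z => ((pc k I z * pc k f (z + w) : ℝ) : ℂ)‖ ≤ 2 ^ k * (2 * ((k + 1) * H / X)) := by
      rw [Pool.Agent.N34.M.EE_sub]
      refine (norm_EE_le BX _).trans ?_
      refine le_trans (ER_mono _ fun z _ => ?_) (win_change k M N hX0 hw)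
      rw [← Complex.ofReal_sub, Complex.norm_real, Real.norm_eq_abs]
      have e3 : pc k W (z + w) - pc k I z * pc k f (z + w)
          = (pc k I (z + w) - pc k I z) * pc k f (z + w) := by
        rw [hW, win_pc]
        ring
      rw [e3, abs_mul]
      exact mul_le_of_le_one_right (abs_nonneg _) (pc_abs hf1 _)
    have e3 : A - (EE BX fun z => ((pc k I z * pc k f (z + w) : ℝ) : ℂ))
        = (A - EE BX fun z => ((pc k W (z + w) : ℝ) : ℂ))
          + ((EE BX fun z => ((pc k W (z + w) : ℝ) : ℂ))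
        - EE BX fun z => ((pc k I z * pc k f (z + w) : ℝ) : ℂ)) := by ring
    rw [e3]
    refine (norm_add_le _ _).trans ((add_le_add e1 e2).trans ?_)
    have e4 : 2 * ((k + 1) * H / X) + 2 ^ k * (2 * ((k + 1) * H / X)) = Ck * (H / X : ℝ) := by
      rw [hCk]; ring
    rw [e4]
    refine mul_le_mul_of_nonneg_left ?_ hCk0.le
    rw [div_le_iff₀ hXR]
    exact f2
  -- average over the translations
  have h6 : ‖A - EE BH fun w => EE BX fun z => ((pc k I z * pc k f (z + w) : ℝ) : ℂ)‖ ≤ Ck * η := by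
    have e1 : A = EE BH fun _ => A := (Pool.Agent.N34.M.EE_const BH hBH0 A).symm
    have e2 : A - (EE BH fun w => EE BX fun z => ((pc k I z * pc k f (z + w) : ℝ) : ℂ))
        = EE BH fun w => (A - EE BX fun z => ((pc k I z * pc k f (z + w) : ℝ) : ℂ)) := by
      conv_lhs => rw [e1]
      rw [Pool.Agent.N34.M.EE_sub]
    rw [e2]
    exact Pool.Agent.N34.M.EE_norm_le BH _ _ (by positivity) h5
  have h7 : ‖EE BH fun w => EE BX fun z => ((pc k I z * pc k f (z + w) : ℝ) : ℂ)‖ ≤ ε / 2 := by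
    rw [Pool.Agent.N34.M.EE_comm]
    have e1 : ∀ z, (EE BH fun w => ((pc k I z * pc k f (z + w) : ℝ) : ℂ))
        = ((pc k I z : ℝ) : ℂ) * EE BH fun w => ((pc k f (z + w) : ℝ) : ℂ) := by
      intro z
      rw [← Pool.Agent.N565.A.EE_const_mul]
      congr 1
      funext w
      push_cast
      rfl
    simp only [e1]
    have e2 : ‖EE BX fun z => ((pc k I z : ℝ) : ℂ) * EE BH fun w => ((pc k f (z + w) : ℝ) : ℂ)‖ ^ 2
        ≤ (ε / 2) ^ 2 := by
      refine (Pool.Agent.N34.M.EE_sq_le _ _).trans ?_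
      have e3 : ∀ z, ‖((pc k I z : ℝ) : ℂ) * EE BH fun w => ((pc k f (z + w) : ℝ) : ℂ)‖ ^ 2
          ≤ ER (fun _ : Fin k => H) fun h => ‖cc (fun _ : Fin k → Bool => 1) (Lk k)
            (fun _ m => ((f m : ℝ) : ℂ)) H (Sum.elim h z)‖ ^ 2 := by
        intro z
        rw [hBH, small_cube k f H z]
        refine le_trans ?_ (Pool.Agent.N34.M.EE_sq_le _ _)
        refine pow_le_pow_left₀ (norm_nonneg _) ?_ 2
        rw [norm_mul, Complex.norm_real]
        exact mul_le_of_le_one_left (norm_nonneg _) (pc_abs hI1 z)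
      refine (ER_mono _ fun z _ => e3 z).trans ?_
      rw [Pool.Agent.N34.M.ER_comm]
      rw [ER_sum (fun _ : Fin k => H) BX (fun y => ‖cc (fun _ : Fin k → Bool => 1) (Lk k)
        (fun _ m => ((f m : ℝ) : ℂ)) H y‖ ^ 2)] at h4
      exact h4.le
    exact (pow_le_pow_iff_left₀ (norm_nonneg _) (by positivity) two_ne_zero).1 e2
  have h8 : ‖A‖ ≤ ε := by
    have e1 : A = (A - EE BH fun w => EE BX fun z => ((pc k I z * pc k f (z + w) : ℝ) : ℂ))
      + EE BH fun w => EE BX fun z => ((pc k I z * pc k f (z + w) : ℝ) : ℂ) := by ring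
    rw [e1]
    refine (norm_add_le _ _).trans ?_
    linarith
  have h9 := GP_avg k hX0 W
  have h10 : |GP k W X| = ‖((GP k W X : ℝ) : ℂ)‖ := by rw [Complex.norm_real, Real.norm_eq_abs]
  rw [h10, h9, norm_mul, norm_pow, Complex.norm_natCast, mul_comm]
  exact mul_le_mul_of_nonneg_right h8 (by positivity)

end Pool.Agent.N675.M.G12
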