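import Pool.Agent.TH575.OM.Eqd4
import Pool.Agent.N675.M.Defs

/-! The balanced functions of the number of prime factors on arithmetic progressions. -/

set_option autoImplicit false

namespace Pool.Agent.J4.H12.LO

open Finset ArithmeticFunction
open Pool.Agent.TH575.OM (SA B0 Mn Mn_abs Mn_scale equi)

/-- the balanced function of `A ∘ Ω` -/
noncomputable def bf (A : ℕ → ℝ) (μ : ℝ) (n : ℤ) : ℝ :=
  if 0 < n then (A (cardFactors n.toNat) - μ) / 2 else 0

lemma bf_abs {A : ℕ → ℝ} (hA : B0 A) {μ : ℝ} (hμ : |μ| ≤ 1) (n : ℤ) : |bf A μ n| ≤ 1 := by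
  unfold bf
  split_ifs
  · have h1 := abs_le.1 (hA (cardFactors n.toNat))
    have h2 := abs_le.1 hμ
    rw [abs_le]
    constructor <;> linarith [h1.1, h1.2, h2.1, h2.2]
  · simp

lemma bf_mul (A : ℕ → ℝ) (μ : ℝ) {p : ℕ} (hp : p.Prime) (m : ℤ) :
    bf A μ ((p : ℤ) * m) = bf (fun l => A (l + 1)) μ m := by
  have hp0 : (0 : ℤ) < p := by exact_mod_cast hp.pos
  unfold bf
  by_cases hm : 0 < m
  · rw [if_pos (mul_pos hp0 hm), if_pos hm]
    have h1 : ((p : ℤ) * m).toNat = p * m.toNat := by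
      rw [Int.toNat_mul hp0.le hm.le, Int.toNat_natCast]
    have h2 : m.toNat ≠ 0 := by omega
    rw [h1, cardFactors_mul hp.ne_zero h2, cardFactors_apply_prime hp, add_comm 1]
  · rw [if_neg hm, if_neg]
    intro h
    exact hm (pos_of_mul_pos_right h hp0.le)

lemma SA_const (q b N : ℕ) (μ : ℝ) : SA (fun _ => μ) q b N = μ * SA (fun _ => 1) q b N := by
  unfold SA
  rw [mul_sum]
  exact sum_congr rfl fun n _ => by split_ifs <;> simp

lemma SA_abs {a : ℕ → ℝ} {M : ℝ} (hM : 0 ≤ M) (ha : ∀ l, |a l| ≤ M) (q b N : ℕ) :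
    |SA a q b N| ≤ M * N := by
  unfold SA
  refine (abs_sum_le_sum_abs _ _).trans ?_
  calc _ ≤ ∑ _n ∈ Icc 1 N, M := by
        refine sum_le_sum fun n _ => ?_
        split_ifs
        · exact ha _
        · simpa using hM
    _ = _ := by
      rw [sum_const, Nat.card_Icc, nsmul_eq_mul]
      simp
      ring

theorem cls_small (q C : ℕ) (hq : 0 < q) (hC : 0 < C) {ε : ℝ} (hε : 0 < ε) :
    ∃ X0 : ℕ, 0 < X0 ∧ ∀ X : ℕ, X0 ≤ X → ∀ N : ℕ, N ≤ C * X → ∀ b : ℕ, b < q → ∀ A, B0 A →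
      |SA A q b N - Mn A X * SA (fun _ => 1) q b N| ≤ ε * X := by
  have hCR : (0 : ℝ) < C := by exact_mod_cast hC
  have hC1 : (1 : ℝ) ≤ C := by exact_mod_cast hC
  have hqR : (0 : ℝ) < q := by exact_mod_cast hq
  have hq1 : (1 : ℝ) ≤ q := by exact_mod_cast hq
  set ε₁ : ℝ := ε / (3 * C) with hε₁
  have hε₁0 : 0 < ε₁ := by positivity
  set δ : ℝ := min (ε / 2) (1 / C) with hδ
  have hδ0 : 0 < δ := lt_min (by positivity) (by positivity)
  obtain ⟨x₁, h1⟩ := equi q hq ε₁ hε₁0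
  obtain ⟨x₂, h2⟩ := Mn_scale hδ0 hε₁0
  obtain ⟨K, hK⟩ := exists_nat_ge ((max x₁ x₂ + 1) / δ)
  refine ⟨K + 1, by omega, fun X hX N hN b hb A hA => ?_⟩
  have hX0 : (0 : ℝ) < X := by exact_mod_cast (by omega : 0 < X)
  have hNX : (N : ℝ) ≤ C * X := by exact_mod_cast hN
  have hμ : |Mn A X| ≤ 1 := Mn_abs hA hX0
  have hB1 : B0 (fun _ => (1 : ℝ)) := fun _ => by simp
  rcases lt_or_ge (N : ℝ) (δ * X) with h3 | h3
  · have e1 := SA_abs zero_le_one hA q b N
    have e2 := SA_abs zero_le_one hB1 q b N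
    have e3 : |Mn A X * SA (fun _ => 1) q b N| ≤ N := by
      rw [abs_mul]
      calc _ ≤ 1 * (1 * (N : ℝ)) := mul_le_mul hμ e2 (abs_nonneg _) zero_le_one
        _ = _ := by ring
    refine (abs_sub _ _).trans ?_
    have e4 : δ * X ≤ ε / 2 * X := mul_le_mul_of_nonneg_right (min_le_left _ _) hX0.le
    linarith
  · have hKX : max x₁ x₂ + 1 ≤ δ * X := by
      have e1 : (K : ℝ) ≤ X := by exact_mod_cast (by omega : K ≤ X)
      rw [div_le_iff₀ hδ0] at hK
      nlinarith
    have hN1 : x₁ ≤ N := by linarith [le_max_left x₁ x₂]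
    have hN2 : x₂ ≤ N := by linarith [le_max_right x₁ x₂]
    have hX2 : x₂ ≤ X := by
      have e1 : δ * X ≤ 1 * X := by
        refine mul_le_mul_of_nonneg_right ?_ hX0.le
        refine (min_le_right _ _).trans ?_
        rw [div_le_one hCR]
        exact hC1
      linarith [le_max_right x₁ x₂]
    have hN0 : (0 : ℝ) < N := lt_of_lt_of_le (by positivity) h3
    have hfl : ⌊(N : ℝ)⌋₊ = N := Nat.floor_natCast N
    have e1 := h1 N hN1 b hb A hA
    have e2 := h1 N hN1 b hb _ hB1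
    rw [hfl] at e1 e2
    have hMn1 : Mn (fun _ => 1) N = 1 := by
      unfold Mn SA
      rw [hfl]
      simp only [Nat.mod_one, if_true, sum_const, Nat.card_Icc, nsmul_eq_mul, mul_one]
      rw [Nat.add_sub_cancel]
      exact div_self hN0.ne'
    rw [hMn1] at e2
    have e3 : |Mn A N - Mn A X| ≤ ε₁ := by
      rcases le_or_gt (N : ℝ) X with h4 | h4
      · rw [abs_sub_comm]
        exact h2 X hX2 N h3 h4 A hA
      · refine h2 N hN2 X ?_ h4.le A hA
        calc δ * N ≤ (1 / C) * (C * X) := mul_le_mul (min_le_right _ _) hNX hN0.le (by positivity)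
          _ = X := by field_simp
    set S := SA A q b N
    set S1 := SA (fun _ => 1) q b N
    have f1 : |S - N * (Mn A N / q)| ≤ ε₁ * N := by
      have : S - N * (Mn A N / q) = (S / N - Mn A N / q) * N := by field_simp
      rw [this, abs_mul, abs_of_pos hN0]
      exact mul_le_mul_of_nonneg_right e1 hN0.le
    have f2 : |S1 - N * (1 / q)| ≤ ε₁ * N := by
      have : S1 - N * (1 / q) = (S1 / N - 1 / q) * N := by field_simp
      rw [this, abs_mul, abs_of_pos hN0]
      exact mul_le_mul_of_nonneg_right e2 hN0.le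
    have f3 : S - Mn A X * S1 = (S - N * (Mn A N / q)) + (N / q) * (Mn A N - Mn A X)
        - Mn A X * (S1 - N * (1 / q)) := by
      field_simp
      ring
    rw [f3]
    have f4 : |(N / q) * (Mn A N - Mn A X)| ≤ ε₁ * N := by
      rw [abs_mul, abs_of_nonneg (by positivity : 0 ≤ (N : ℝ) / q)]
      calc (N : ℝ) / q * |Mn A N - Mn A X| ≤ N * ε₁ := by
            refine mul_le_mul ?_ e3 (abs_nonneg _) hN0.le
            exact div_le_self hN0.le hq1
        _ = _ := by ring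
    have f5 : |Mn A X * (S1 - N * (1 / q))| ≤ ε₁ * N := by
      rw [abs_mul]
      calc _ ≤ 1 * (ε₁ * N) := mul_le_mul hμ f2 (abs_nonneg _) zero_le_one
        _ = _ := by ring
    have f6 : 3 * (ε₁ * N) ≤ ε * X := by
      calc 3 * (ε₁ * N) ≤ 3 * (ε₁ * (C * X)) := by gcongr
        _ = ε * X := by rw [hε₁]; field_simp
    have f7 := abs_sub ((S - N * (Mn A N / q)) + (N / q) * (Mn A N - Mn A X))
      (Mn A X * (S1 - N * (1 / q)))
    have f8 := abs_add_le (S - N * (Mn A N / q)) ((N / q) * (Mn A N - Mn A X))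
    linarith

/-- the sum over a progression in terms of residue classes -/
lemma sum_prog (q : ℕ) (hq : 0 < q) (b : ℤ) (x : ℕ) (A : ℕ → ℝ) (μ : ℝ) :
    2 * ∑ t ∈ Icc (1 : ℤ) x, bf A μ ((q : ℤ) * t + b) =
      (SA A q (b % q).toNat (b + q * x).toNat - μ * SA (fun _ => 1) q (b % q).toNat (b + q * x).toNat)
      - (SA A q (b % q).toNat b.toNat - μ * SA (fun _ => 1) q (b % q).toNat b.toNat) := by
  have hq0 : (0 : ℤ) < q := by exact_mod_cast hq
  set h : ℤ → ℝ := fun n => if (q : ℤ) ∣ n - b then bf A μ n else 0 with hh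
  have h0 : ∀ n : ℤ, n ≤ 0 → h n = 0 := by
    intro n hn
    simp only [hh]
    split_ifs
    · unfold bf
      rw [if_neg (by omega)]
    · rfl
  -- the progression
  have e1 : ∑ t ∈ Icc (1 : ℤ) x, bf A μ ((q : ℤ) * t + b) = ∑ n ∈ Ioc b (b + q * x), h n := by
    simp only [hh]
    rw [← sum_filter]
    refine sum_bij (fun t _ => (q : ℤ) * t + b) ?_ ?_ ?_ ?_
    · intro t ht
      rw [mem_Icc] at ht
      rw [mem_filter, mem_Ioc]
      refine ⟨⟨?_, ?_⟩, ?_⟩
      · nlinarith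
      · nlinarith
      · rw [add_sub_cancel_right]; exact dvd_mul_right _ _
    · intro t _ t' _ h
      have : (q : ℤ) * t = q * t' := by linarith
      exact mul_left_cancel₀ hq0.ne' this
    · intro n hn
      rw [mem_filter, mem_Ioc] at hn
      obtain ⟨t, ht⟩ := hn.2
      refine ⟨t, ?_, by rw [← ht]; ring⟩
      rw [mem_Icc]
      constructor
      · by_contra hcon
        have : t ≤ 0 := by omega
        nlinarith [hn.1.1]
      · have h1 : (q : ℤ) * t ≤ q * x := by linarith [hn.1.2]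
        exact le_of_mul_le_mul_left h1 hq0
    · intro t _; rfl
  -- splitting
  have hN : ∀ m : ℤ, ∑ n ∈ Ioc (0 : ℤ) m, h n = ∑ n ∈ Icc 1 m.toNat, h (n : ℤ) := by
    intro m
    symm
    refine sum_bij (fun n _ => (n : ℤ)) ?_ ?_ ?_ ?_
    · intro n hn
      rw [mem_Icc] at hn
      rw [mem_Ioc]
      omega
    · intro n _ n' _ h; exact_mod_cast h
    · intro n hn
      rw [mem_Ioc] at hn
      exact ⟨n.toNat, by rw [mem_Icc]; omega, by omega⟩
    · intro n _; rfl
  have e2 : ∑ n ∈ Ioc b (b + q * x), h n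
      = ∑ n ∈ Ioc (0 : ℤ) (b + q * x), h n - ∑ n ∈ Ioc (0 : ℤ) b, h n := by
    have hx0 : (0 : ℤ) ≤ q * x := by positivity
    rcases le_or_gt 0 b with hb | hb
    · have : Ioc (0 : ℤ) (b + q * x) = Ioc 0 b ∪ Ioc b (b + q * x) := by
        rw [Ioc_union_Ioc_eq_Ioc hb (by linarith)]
      rw [this, sum_union]
      · ring
      · rw [disjoint_left]
        intro n
        rw [mem_Ioc, mem_Ioc]
        omega
    · have h1 : ∑ n ∈ Ioc (0 : ℤ) b, h n = 0 := by
        rw [Ioc_eq_empty (by omega), sum_empty]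
      rw [h1, sub_zero]
      symm
      refine sum_subset ?_ ?_
      · intro n
        rw [mem_Ioc, mem_Ioc]
        omega
      · intro n _ hn
        apply h0
        rw [mem_Ioc] at hn
        by_contra hcon
        apply hn
        rename_i hmem
        rw [mem_Ioc] at hmem
        omega
  have e3 : ∀ N : ℕ, 2 * ∑ n ∈ Icc 1 N, h (n : ℤ)
      = SA A q (b % q).toNat N - μ * SA (fun _ => 1) q (b % q).toNat N := by
    intro N
    unfold SA
    rw [mul_sum, mul_sum, ← sum_sub_distrib]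
    refine sum_congr rfl fun n hn => ?_
    rw [mem_Icc] at hn
    have hc : (q : ℤ) ∣ (n : ℤ) - b ↔ n % q = (b % q).toNat % q := by
      have hb1 := Int.emod_nonneg b hq0.ne'
      have hb2 := Int.emod_lt_of_pos b hq0
      have h1 : (b % q).toNat % q = (b % q).toNat := Nat.mod_eq_of_lt (by omega)
      rw [h1, ← Int.emod_eq_emod_iff_emod_sub_eq_zero.trans (Int.dvd_iff_emod_eq_zero).symm]
      constructor
      · intro h
        have h2 : ((n % q : ℕ) : ℤ) = b % q := by push_cast; exact h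
        omega
      · intro h
        have h2 : ((n % q : ℕ) : ℤ) = ((b % q).toNat : ℤ) := by exact_mod_cast h
        push_cast at h2
        rw [h2]
        omega
    simp only [hh]
    by_cases h1 : (q : ℤ) ∣ (n : ℤ) - b
    · rw [if_pos h1, if_pos (hc.1 h1), if_pos (hc.1 h1)]
      unfold bf
      rw [if_pos (by omega), Int.toNat_natCast]
      ring
    · rw [if_neg h1, if_neg (fun h => h1 (hc.2 h)), if_neg (fun h => h1 (hc.2 h))]
      ring
  rw [e1, e2, mul_sub, hN, hN, e3, e3]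

/-- the average over a progression -/
lemma sum_small_pos (q C : ℕ) (hq : 0 < q) {ε : ℝ} (hε : 0 < ε) :
    ∃ X0 : ℕ, 0 < X0 ∧ ∀ X : ℕ, X0 ≤ X → ∀ (x : ℕ) (b : ℤ), x ≤ X → |b| ≤ C * X →
      ∀ A, B0 A → |∑ t ∈ Icc (1 : ℤ) x, bf A (Mn A X) ((q : ℤ) * t + b)| ≤ ε * X := by
  obtain ⟨X0, hX0, h⟩ := cls_small q (C + q) hq (by omega) hε
  have hq0 : (0 : ℤ) < q := by exact_mod_cast hq
  refine ⟨X0, hX0, fun X hX x b hx hb A hA => ?_⟩
  have e := sum_prog q hq b x A (Mn A X)
  have hb1 := Int.emod_nonneg b hq0.ne'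
  have hb2 := Int.emod_lt_of_pos b hq0
  have hr : (b % q).toNat < q := by omega
  have hbb := abs_le.1 hb
  have hN1 : (b + q * x).toNat ≤ (C + q) * X := by
    have h1 : (q : ℤ) * x ≤ q * X := by
      refine mul_le_mul_of_nonneg_left (by exact_mod_cast hx) hq0.le
    have h2 : b + q * x ≤ ((C + q) * X : ℕ) := by push_cast; nlinarith [hbb.2]
    omega
  have hN2 : b.toNat ≤ (C + q) * X := by
    have h2 : b ≤ ((C + q) * X : ℕ) := by push_cast; nlinarith [hbb.2]
    omega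
  have e1 := h X hX _ hN1 _ hr A hA
  have e2 := h X hX _ hN2 _ hr A hA
  have e3 := abs_sub (SA A q (b % q).toNat (b + q * x).toNat
    - Mn A X * SA (fun _ => 1) q (b % q).toNat (b + q * x).toNat)
    (SA A q (b % q).toNat b.toNat - Mn A X * SA (fun _ => 1) q (b % q).toNat b.toNat)
  rw [← e, abs_mul, abs_two] at e3
  linarith

lemma sum_reflect (c b : ℤ) (x : ℕ) (f : ℤ → ℝ) :
    ∑ t ∈ Icc (1 : ℤ) x, f (c * t + b) = ∑ t ∈ Icc (1 : ℤ) x, f (-c * t + (b + c * (x + 1))) := by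
  refine sum_nbij' (fun t => (x : ℤ) + 1 - t) (fun t => (x : ℤ) + 1 - t) ?_ ?_ ?_ ?_ ?_
  · intro t ht; rw [mem_Icc] at ht ⊢; omega
  · intro t ht; rw [mem_Icc] at ht ⊢; omega
  · intro t _; ring
  · intro t _; ring
  · intro t _
    congr 1
    ring

theorem single (c : ℤ) (hc : c ≠ 0) (C : ℕ) {ε : ℝ} (hε : 0 < ε) :
    ∃ X0 : ℕ, 0 < X0 ∧ ∀ X : ℕ, X0 ≤ X → ∀ (x : ℕ) (b : ℤ), x ≤ X → X ≤ C * x → |b| ≤ C * X →
      ∀ A, B0 A → ‖Pool.Agent.N781.A.av x fun t => ((bf A (Mn A X) (c * t + b) : ℝ) : ℂ)‖ ≤ ε := by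
  have hq : 0 < c.natAbs := Int.natAbs_pos.2 hc
  obtain ⟨X0, hX0, h⟩ := sum_small_pos c.natAbs (C + 2 * c.natAbs) hq
    (ε := ε / (C + 1)) (by positivity)
  refine ⟨X0, hX0, fun X hX x b hx hxC hb A hA => ?_⟩
  have hX1 : 0 < X := by omega
  have hx0 : 0 < x := by
    rcases Nat.eq_zero_or_pos x with h0 | h0
    · subst h0; omega
    · exact h0
  have hxR : (0 : ℝ) < x := by exact_mod_cast hx0
  have hsum : |∑ t ∈ Icc (1 : ℤ) x, bf A (Mn A X) (c * t + b)| ≤ ε / (C + 1) * X := by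
    have hbb := abs_le.1 hb
    rcases lt_or_gt_of_ne hc with hc0 | hc0
    · rw [sum_reflect]
      have e1 : -c = ((c.natAbs : ℕ) : ℤ) := by omega
      rw [e1]
      refine h X hX x _ hx ?_ A hA
      have e2 : |c * ((x : ℤ) + 1)| ≤ 2 * c.natAbs * X := by
        rw [abs_mul, Int.abs_eq_natAbs, abs_of_nonneg (by positivity)]
        have e3 : (x : ℤ) + 1 ≤ 2 * X := by
          have : (x : ℤ) ≤ X := by exact_mod_cast hx
          have : (1 : ℤ) ≤ X := by exact_mod_cast hX1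
          linarith
        calc (c.natAbs : ℤ) * ((x : ℤ) + 1) ≤ c.natAbs * (2 * X) :=
              mul_le_mul_of_nonneg_left e3 (by positivity)
          _ = _ := by ring
      refine (abs_add_le _ _).trans ?_
      push_cast
      push_cast at e2
      nlinarith
    · have e1 : c = ((c.natAbs : ℕ) : ℤ) := by omega
      have h2 := h X hX x b hx (by push_cast; nlinarith [abs_nonneg c]) A hA
      rw [← e1] at h2
      exact h2
  unfold Pool.Agent.N781.A.av
  have e1 : (∑ t ∈ Icc (1 : ℤ) x, ((bf A (Mn A X) (c * t + b) : ℝ) : ℂ)) / (x : ℂ)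
      = (((∑ t ∈ Icc (1 : ℤ) x, bf A (Mn A X) (c * t + b)) / x : ℝ) : ℂ) := by push_cast; rfl
  rw [e1, Complex.norm_real, Real.norm_eq_abs, abs_div, abs_of_pos hxR, div_le_iff₀ hxR]
  refine hsum.trans ?_
  have e2 : (X : ℝ) ≤ C * x := by exact_mod_cast hxC
  calc ε / (C + 1) * X ≤ ε / (C + 1) * (C * x) := mul_le_mul_of_nonneg_left e2 (by positivity)
    _ = ε * x * (C / (C + 1)) := by ring
    _ ≤ ε * x * 1 := by
        refine mul_le_mul_of_nonneg_left ?_ (by positivity)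
        rw [div_le_one (by positivity)]
        linarith
    _ = _ := mul_one _

end Pool.Agent.J4.H12.LO
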