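import Pool.Agent.J4.H12.LO.Gn3
import Pool.Agent.J4.H12.LO.Single
import Pool.Agent.J4.H12.IE.Inv
import Pool.Agent.W36.GK.K19

/-! The Gowers norms of the balanced functions of the number of prime factors are small on all windows;
products of such functions at linear forms against functions invariant under translations. -/

set_option autoImplicit false

namespace Pool.Agent.J4.H12.LO

open Finset Pool.Agent.W36.GU Pool.Agent.W36.GV Pool.Agent.W36.GK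
open Pool.Agent.N675.M.G12 (Fam M1 gp_small)
open Pool.Agent.TH575.OM (B0 Mn Mn_abs)

theorem gn_small {Φ : ℕ → Set (ℤ → ℝ)} {P0 : ℕ} (hΦ : Fam Φ P0) (k : ℕ) {ε : ℝ} (hε : 0 < ε) :
    ∃ X0 : ℕ, 0 < X0 ∧ ∀ X : ℕ, X0 ≤ X → ∀ f ∈ Φ X, ∀ M N : ℕ, N ≤ X →
      GN k (win M N f) X ≤ ε * (X : ℝ) ^ (k + 1) := by
  obtain ⟨X1, hX1, h1⟩ := gp_small hΦ k (ε := ε / (2 * 2 ^ k)) (by positivity)
  obtain ⟨X2, h2⟩ := hΦ.mul 0
  obtain ⟨X3, h3⟩ := exists_nat_ge (2 * (k * 3 ^ k : ℝ) / ε)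
  refine ⟨X1 + X2 + X3, by omega, fun X hX f hf M N hN => ?_⟩
  have hX0 : 1 ≤ X := by omega
  have hXR : (0 : ℝ) < X := by exact_mod_cast hX0
  have hf1 : ∀ m, |f m| ≤ 1 := (h2 X (by omega) f hf).1
  have e1 := GN_GP k hX0 (F := win M N f) (win_abs hf1 M N) (win_sup f M hN)
  have e2 := h1 X (by omega) f hf M N
  have e3 : (k : ℝ) * 3 ^ k * (X : ℝ) ^ k ≤ ε / 2 * (X : ℝ) ^ (k + 1) := by
    have e4 : (X3 : ℝ) ≤ X := by exact_mod_cast (by omega : X3 ≤ X)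
    have e5 : 2 * (k * 3 ^ k : ℝ) ≤ X * ε := by
      have := h3.trans e4
      rwa [div_le_iff₀ hε] at this
    rw [pow_succ]
    have e6 : 0 ≤ (X : ℝ) ^ k := by positivity
    nlinarith
  have e4 : GN k (win M N f) X ≤ 2 ^ k * GP k (win M N f) X + k * 3 ^ k * (X : ℝ) ^ k := by
    have := (abs_le.1 e1).2
    linarith
  have e5 : 2 ^ k * GP k (win M N f) X ≤ ε / 2 * (X : ℝ) ^ (k + 1) := by
    have e6 := (abs_le.1 e2).2
    have e7 : (0 : ℝ) < 2 ^ k := by positivity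
    calc 2 ^ k * GP k (win M N f) X ≤ 2 ^ k * (ε / (2 * 2 ^ k) * (X : ℝ) ^ (k + 1)) :=
          mul_le_mul_of_nonneg_left e6 e7.le
      _ = _ := by field_simp
  linarith

/-- the balanced functions of the number of prime factors -/
def PhiO (X : ℕ) : Set (ℤ → ℝ) := {f | ∃ A, B0 A ∧ f = bf A (Mn A X)}

theorem fam_O : Fam PhiO 0 := by
  refine ⟨fun T => ⟨1, ?_⟩, fun c hc C ε hε => ?_⟩
  · rintro X hX f ⟨A, hA, rfl⟩
    have hμ : |Mn A X| ≤ 1 := Mn_abs hA (by exact_mod_cast hX)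
    refine ⟨bf_abs hA hμ, fun _ => 1, fun m => ((bf (fun l => A (l + 1)) (Mn A X) m : ℝ) : ℂ),
      fun m => ?_, fun p _ _ _ => by simp, fun p hp _ _ m _ => ?_⟩
    · rw [Complex.norm_real]
      exact bf_abs (fun l => hA _) hμ m
    · rw [one_mul, bf_mul A _ hp]
  · obtain ⟨X0, -, h⟩ := single c hc C hε
    refine ⟨X0, ?_⟩
    rintro X hX x b h1 h2 h3 f ⟨A, hA, rfl⟩
    exact h X hX x b h1 h2 h3 A hA

/-- a function of one form of the family against functions invariant under translations -/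
theorem fam_inv {Φ : ℕ → Set (ℤ → ℝ)} {P0 : ℕ} (hΦ : Fam Φ P0) {D K : ℕ} {Λ : Fin D → ℤ}
    (hΛ : Λ ≠ 0) (v : Fin K → Fin D → ℤ) (hv : ∀ l, dot Λ (v l) ≠ 0) {ε : ℝ} (hε : 0 < ε) :
    ∃ X0 : ℕ, 0 < X0 ∧ ∀ X : ℕ, X0 ≤ X → ∀ f ∈ Φ X, ∀ (c : ℤ) (M N : ℕ), N ≤ X →
      ∀ P P' : Fin D → ℤ, (∀ j, P' j - P j ≤ X) → ∀ g : Fin K → (Fin D → ℤ) → ℝ,
      (∀ l y, |g l y| ≤ 1) → (∀ l y, g l (y + v l) = g l y) →
      |∑ y ∈ box P P', win M N f (dot Λ y + c) * ∏ l, g l y| ≤ ε * (X : ℝ) ^ D := by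
  obtain ⟨D', rfl⟩ : ∃ D', D = D' + 1 := by
    obtain ⟨j, -⟩ := Function.ne_iff.1 hΛ
    exact ⟨D - 1, by have := j.2; omega⟩
  obtain ⟨η, hη, X1, h2⟩ := Pool.Agent.J4.H12.IE.inv_small (K := K) hΛ (Fin.cons Λ v) (by
    intro l
    refine Fin.cases ?_ (fun l => ?_) l
    · rw [Fin.cons_zero]; exact (dot_self_pos hΛ).ne'
    · rw [Fin.cons_succ]; exact hv l) hε
  obtain ⟨X2, hX2, h3⟩ := gn_small hΦ (K + 2) hη
  obtain ⟨X3, h4⟩ := hΦ.mul 0
  refine ⟨X1 + X2 + X3, by omega, fun X hX f hf c M N hN P P' hP g hg hgi => ?_⟩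
  have hf1 : ∀ m, |f m| ≤ 1 := (h4 X (by omega) f hf).1
  have h5 := h2 X (by omega) c P P' hP (win M N f) (win_abs hf1 _ _) (win_sup _ _ hN)
    (h3 X (by omega) f hf M N hN) (Fin.cons (fun _ => 1) g) (by
      intro l y
      refine Fin.cases ?_ (fun l => ?_) l
      · rw [Fin.cons_zero]; simp
      · rw [Fin.cons_succ]; exact hg l y) (by
      intro l y
      refine Fin.cases ?_ (fun l => ?_) l
      · rw [Fin.cons_zero]
      · rw [Fin.cons_succ, Fin.cons_succ]; exact hgi l y)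
  refine le_trans (le_of_eq ?_) h5
  congr 1
  refine sum_congr rfl fun y _ => ?_
  rw [Fin.prod_univ_succ, Fin.cons_zero, one_mul]
  simp only [Fin.cons_succ]

end Pool.Agent.J4.H12.LO
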