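import Pool.Agent.J4.H12.LO.Gn4

/-! Products of functions of a family at linear forms against functions invariant under
translations. -/

set_option autoImplicit false

namespace Pool.Agent.J4.H12.LO

open Finset Pool.Agent.W36.GU Pool.Agent.W36.GV Pool.Agent.W36.GK
open Pool.Agent.N675.M.G12 (Fam M1 gp_small)
open Pool.Agent.TH575.OM (B0 Mn Mn_abs)

lemma win_B1 {F : ℤ → ℝ} (hF : B1 F) (M N : ℕ) : B1 (win M N F) := fun n => win_abs hF M N n

/-- one difference: the functions `F` and `E` at the form `Λ i0`, other functions at the other forms -/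
theorem fam_one {Φ : ℕ → Set (ℤ → ℝ)} {P0 : ℕ} (hΦ : Fam Φ P0) {D r K : ℕ}
    (Λ : Fin r → Fin D → ℤ) (hΛ0 : ∀ i, Λ i ≠ 0) (hΛ : ∀ i j, i ≠ j → Indep (Λ i) (Λ j))
    (v : Fin K → Fin D → ℤ) (hv : ∀ i l, dot (Λ i) (v l) ≠ 0) (i0 : Fin r) {ε : ℝ} (hε : 0 < ε) :
    ∃ X0 : ℕ, 0 < X0 ∧ ∀ X : ℕ, X0 ≤ X → ∀ f ∈ Φ X, ∀ H : Fin r → ℤ → ℝ, (∀ i, B1 (H i)) →
      ∀ g : Fin K → (Fin D → ℤ) → ℝ, (∀ l y, |g l y| ≤ 1) → (∀ l y, g l (y + v l) = g l y) →
      ∀ (c : Fin r → ℤ) (M N : ℕ), N ≤ X → ∀ P P' : Fin D → ℤ, (∀ j, P' j - P j ≤ X) →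
      |∑ y ∈ box P P', win M N f (dot (Λ i0) y + c i0) *
        ((∏ i ∈ univ.erase i0, H i (dot (Λ i) y + c i)) * ∏ l, g l y)| ≤ ε * (X : ℝ) ^ D := by
  classical
  have hex : ∀ l : Fin r, ∃ u : Fin D → ℤ, dot (Λ i0) u ≠ 0 ∧ (l ≠ i0 → dot (Λ l) u = 0) := by
    intro l
    by_cases hl : l = i0
    · exact ⟨Λ i0, (dot_self_pos (hΛ0 i0)).ne', fun h => absurd hl h⟩
    · obtain ⟨u, hu1, hu2⟩ := exists_dir (hΛ i0 l (Ne.symm hl))
      exact ⟨u, hu2, fun _ => hu1⟩
  choose u hu1 hu2 using hex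
  obtain ⟨X0, hX0, h⟩ := fam_inv hΦ (hΛ0 i0) (Fin.append u v) (by
    intro l
    refine Fin.addCases (fun l => ?_) (fun l => ?_) l
    · rw [Fin.append_left]; exact hu1 l
    · rw [Fin.append_right]; exact hv i0 l) hε
  refine ⟨X0, hX0, fun X hX f hf H hH g hg hgi c M N hN P P' hP => ?_⟩
  have h2 := h X hX f hf (c i0) M N hN P P' hP
    (Fin.append (fun l y => if l = i0 then 1 else H l (dot (Λ l) y + c l)) g) (by
      intro l y
      refine Fin.addCases (fun l => ?_) (fun l => ?_) l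
      · rw [Fin.append_left]
        split_ifs
        · simp
        · exact hH l _
      · rw [Fin.append_right]; exact hg l y) (by
      intro l y
      refine Fin.addCases (fun l => ?_) (fun l => ?_) l
      · rw [Fin.append_left, Fin.append_left]
        split_ifs with hl
        · rfl
        · rw [dot_add, hu2 l hl, add_zero]
      · rw [Fin.append_right, Fin.append_right]; exact hgi l y)
  refine le_trans (le_of_eq ?_) h2
  congr 1
  refine sum_congr rfl fun y _ => ?_
  congr 1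
  rw [Fin.prod_univ_add]
  simp only [Fin.append_left, Fin.append_right]
  congr 1
  rw [← mul_prod_erase univ (fun l => if l = i0 then (1 : ℝ) else H l (dot (Λ l) y + c l))
    (mem_univ i0), if_pos rfl, one_mul]
  exact prod_congr rfl fun l hl => by rw [if_neg (ne_of_mem_erase hl)]

theorem fam_forms {Φ : ℕ → Set (ℤ → ℝ)} {P0 : ℕ} (hΦ : Fam Φ P0) {D r K : ℕ}
    (Λ : Fin r → Fin D → ℤ) (hΛ0 : ∀ i, Λ i ≠ 0) (hΛ : ∀ i j, i ≠ j → Indep (Λ i) (Λ j))
    (v : Fin K → Fin D → ℤ) (hv : ∀ i l, dot (Λ i) (v l) ≠ 0) {ε : ℝ} (hε : 0 < ε) :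
    ∃ X0 : ℕ, 0 < X0 ∧ ∀ X : ℕ, X0 ≤ X → ∀ F E : Fin r → ℤ → ℝ, (∀ i, B1 (F i)) → (∀ i, B1 (E i)) →
      (∀ i, ∃ f ∈ Φ X, ∀ n, 0 < n → F i n - E i n = 2 * f n) →
      ∀ g : Fin K → (Fin D → ℤ) → ℝ, (∀ l y, |g l y| ≤ 1) → (∀ l y, g l (y + v l) = g l y) →
      ∀ (c : Fin r → ℤ) (M N : Fin r → ℕ), (∀ i, N i ≤ X) → ∀ P P' : Fin D → ℤ,
      (∀ j, P' j - P j ≤ X) →
      |∑ y ∈ box P P', (∏ i, win (M i) (N i) (F i) (dot (Λ i) y + c i)
        - ∏ i, win (M i) (N i) (E i) (dot (Λ i) y + c i)) * ∏ l, g l y| ≤ ε * (X : ℝ) ^ D := by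
  classical
  have h1 := fun i0 => fam_one hΦ Λ hΛ0 hΛ v hv i0 (ε := ε / (2 * (r + 1))) (by positivity)
  choose X0 hX0 h using h1
  refine ⟨∑ i, X0 i + 1, by omega, fun X hX F E hF hE hd g hg hgi c M N hN P P' hP => ?_⟩
  have hX0' : ∀ i, X0 i ≤ X := fun i =>
    (single_le_sum (f := X0) (fun _ _ => Nat.zero_le _) (mem_univ i)).trans (by omega)
  choose f hf hfd using hd
  set E0 : ℝ := ε / (r + 1) * (X : ℝ) ^ D with hE0
  have hE00 : 0 ≤ E0 := by positivity
  -- telescoping, one index at a time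
  set a : Fin r → (Fin D → ℤ) → ℝ := fun i y => win (M i) (N i) (F i) (dot (Λ i) y + c i) with ha
  set b : Fin r → (Fin D → ℤ) → ℝ := fun i y => win (M i) (N i) (E i) (dot (Λ i) y + c i) with hb
  have hdiff : ∀ i y, a i y - b i y = 2 * win (M i) (N i) (f i) (dot (Λ i) y + c i) := by
    intro i y
    simp only [ha, hb]
    unfold win
    split_ifs with h1
    · exact hfd i _ (by omega)
    · ring
  have key : ∀ T : Finset (Fin r), |∑ y ∈ box P P', (∏ i, (if i ∈ T then a i y else b i y)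
      - ∏ i, b i y) * ∏ l, g l y| ≤ T.card * E0 := by
    intro T
    induction T using Finset.induction_on with
    | empty => simp
    | insert j T hj ih =>
      set Hf : Fin r → ℤ → ℝ := fun i => if i ∈ T then win (M i) (N i) (F i)
        else win (M i) (N i) (E i) with hHf
      have hH1 : ∀ i, B1 (Hf i) := by
        intro i
        simp only [hHf]
        split_ifs
        · exact win_B1 (hF i) _ _
        · exact win_B1 (hE i) _ _
      have h3 := h j X (hX0' j) (f j) (hf j) Hf hH1 g hg hgi c (M j) (N j) (hN j) P P' hP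
      have h4 : ∀ y, ∏ i, (if i ∈ insert j T then a i y else b i y)
          - ∏ i, (if i ∈ T then a i y else b i y)
          = 2 * (win (M j) (N j) (f j) (dot (Λ j) y + c j) *
            ∏ i ∈ univ.erase j, Hf i (dot (Λ i) y + c i)) := by
        intro y
        rw [← mul_prod_erase univ (fun i => if i ∈ insert j T then a i y else b i y) (mem_univ j),
          ← mul_prod_erase univ (fun i => if i ∈ T then a i y else b i y) (mem_univ j),
          if_pos (mem_insert_self _ _), if_neg hj]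
        have e1 : ∏ i ∈ univ.erase j, (if i ∈ insert j T then a i y else b i y)
            = ∏ i ∈ univ.erase j, Hf i (dot (Λ i) y + c i) := by
          refine prod_congr rfl fun i hi => ?_
          have hij := ne_of_mem_erase hi
          simp only [hHf, ha, hb]
          by_cases hiT : i ∈ T
          · simp [hiT]
          · simp [hiT, hij]
        have e2 : ∏ i ∈ univ.erase j, (if i ∈ T then a i y else b i y)
            = ∏ i ∈ univ.erase j, Hf i (dot (Λ i) y + c i) := by
          refine prod_congr rfl fun i _ => ?_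
          simp only [hHf, ha, hb]
          by_cases hiT : i ∈ T <;> simp [hiT]
        rw [e1, e2, ← sub_mul, hdiff]
        ring
      have h5 : ∑ y ∈ box P P', (∏ i, (if i ∈ insert j T then a i y else b i y) - ∏ i, b i y)
          * ∏ l, g l y = 2 * ∑ y ∈ box P P', win (M j) (N j) (f j) (dot (Λ j) y + c j) *
            ((∏ i ∈ univ.erase j, Hf i (dot (Λ i) y + c i)) * ∏ l, g l y)
          + ∑ y ∈ box P P', (∏ i, (if i ∈ T then a i y else b i y) - ∏ i, b i y) * ∏ l, g l y := by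
        rw [mul_sum, ← sum_add_distrib]
        refine sum_congr rfl fun y _ => ?_
        have e3 := h4 y
        have e4 : ∏ i, (if i ∈ insert j T then a i y else b i y)
          = ∏ i, (if i ∈ T then a i y else b i y)
          + 2 * (win (M j) (N j) (f j) (dot (Λ j) y + c j) *
            ∏ i ∈ univ.erase j, Hf i (dot (Λ i) y + c i)) := by linarith
        rw [e4]
        ring
      rw [h5, card_insert_of_notMem hj]
      refine (abs_add_le _ _).trans ?_
      rw [abs_mul, abs_two]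
      push_cast
      have h6 : 2 * (ε / (2 * (r + 1)) * (X : ℝ) ^ D) = E0 := by
        rw [hE0]; field_simp
      linarith
  have h7 := key univ
  simp only [mem_univ, if_true, card_univ, Fintype.card_fin] at h7
  refine h7.trans ?_
  rw [hE0, ← mul_assoc]
  refine mul_le_mul_of_nonneg_right ?_ (by positivity)
  have h8 : (r : ℝ) * (ε / (r + 1)) = ε * (r / (r + 1)) := by ring
  rw [h8]
  have h9 : (r : ℝ) / (r + 1) ≤ 1 := by rw [div_le_one (by positivity)]; linarith
  calc ε * ((r : ℝ) / (r + 1)) ≤ ε * 1 := mul_le_mul_of_nonneg_left h9 hε.le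
    _ = ε := mul_one _

end Pool.Agent.J4.H12.LO
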