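import Pool.Agent.J4.H12.LO.Elim
import Pool.Agent.N675.M.Cluster

/-! Isolation of one form: if the correlations are large in mean square, then one of the functions has
large averages over arithmetic progressions. -/

namespace Pool.Agent.N675.M.G12

open Finset Pool.Agent.N675 Pool.Agent.N781.A Pool.Agent.N781.FV
open Pool.Agent.N675.M
open Pool.Agent.N781.OM (MG)

/-- isolation of one form -/
def S_ISO (N : ℕ) : Prop :=
  ∀ (κ ι : Type) [Fintype κ] [DecidableEq κ] [Fintype ι] [DecidableEq ι] (a : ι → ℤ)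
    (L : ι → κ → ℤ) (lg : κ → Bool) (i₀ : ι), (∀ i, a i ≠ 0) → Fintype.card ι ≤ N + 1 →
    (∀ i, i ≠ i₀ → ∃ t, lg t = true ∧ a i * L i₀ t ≠ a i₀ * L i t) →
    ∀ (P00 R : ℕ) (ε : ℝ), 0 < ε → ∃ (c : ℤ) (δ : ℝ) (R₁ T K : ℕ), c ≠ 0 ∧ 0 < δ ∧
    ∀ (B : κ → ℕ) (x : ℕ), (∀ i, K ≤ B i) → K ≤ x → (∀ i, B i ≤ R * x) →
      (∀ i, lg i = true → x ≤ R * B i) →
    ∀ (F : ι → ℤ → ℂ) (g : ι → ℕ → ℂ) (F₂ : ι → ℤ → ℂ), MG F g F₂ P00 T →
      ε ≤ ER B (fun y => ‖cc a L F x y‖ ^ 2) →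
      ∃ (x' : ℕ) (b : ℤ), x' ≤ x ∧ x ≤ R₁ * x' ∧ |b| ≤ R₁ * x ∧
        δ ≤ ‖av x' fun t => F i₀ (c * t + b)‖

lemma ex_of_ER {κ : Type} [Fintype κ] [DecidableEq κ] (B : κ → ℕ) (hB : ∀ j, 0 < B j)
    (f : (κ → ℤ) → ℝ) {ε : ℝ} (h : ε ≤ ER B f) : ∃ y ∈ Box B, ε ≤ f y := by
  by_contra hcon
  push Not at hcon
  have hP : (0 : ℝ) < ∏ j, (B j : ℝ) := Finset.prod_pos fun j _ => by exact_mod_cast hB j
  have hne : (Box B).Nonempty := by
    refine ⟨fun _ => 1, ?_⟩
    rw [mem_Box]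
    intro j
    have := hB j
    exact ⟨le_rfl, by exact_mod_cast this⟩
  have h1 : ∑ y ∈ Box B, f y < ∑ _y ∈ Box B, ε := Finset.sum_lt_sum_of_nonempty hne hcon
  rw [Finset.sum_const, nsmul_eq_mul, Box_card] at h1
  unfold ER at h
  rw [le_div_iff₀ hP] at h
  linarith

theorem iso (hS : G12.S_STRUCT) : ∀ N, S_ISO N := by
  classical
  intro N
  induction N with
  | zero =>
    intro κ ι _ _ _ _ a L lg i₀ ha hcard _ P00 R ε hε
    refine ⟨a i₀, ε, 1 + ∑ j, (L i₀ j).natAbs * R, 0, 1, ha i₀, hε, ?_⟩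
    intro B x hB hx hBx _ F g F₂ hF hbig
    obtain ⟨y, hy, hy2⟩ := ex_of_ER B (fun j => hB j) _ hbig
    have hsub : ∀ i : ι, i = i₀ := by
      have : Subsingleton ι := Fintype.card_le_one_iff_subsingleton.mp hcard
      exact fun i => Subsingleton.elim _ _
    have huniv : (Finset.univ : Finset ι) = {i₀} := by
      ext i
      simp [hsub i]
    refine ⟨x, LL L i₀ y, le_rfl, ?_, ?_, ?_⟩
    · have : 1 * x ≤ (1 + ∑ j, (L i₀ j).natAbs * R) * x := Nat.mul_le_mul_right _ (by omega)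
      simpa using this
    · rw [mem_Box] at hy
      unfold LL
      have h1 : |∑ j, L i₀ j * y j| ≤ ∑ j, (((L i₀ j).natAbs * R * x : ℕ) : ℤ) := by
        refine (Finset.abs_sum_le_sum_abs _ _).trans (Finset.sum_le_sum fun j _ => ?_)
        rw [abs_mul]
        push_cast
        have h2 := hy j
        have h3 : |y j| ≤ R * x := by
          rw [abs_of_nonneg (by linarith)]
          have h4 : ((B j : ℕ) : ℤ) ≤ R * x := by exact_mod_cast hBx j
          linarith
        rw [mul_assoc]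
        refine mul_le_mul_of_nonneg_left h3 (abs_nonneg _)
      refine h1.trans ?_
      rw [← Nat.cast_sum, ← Finset.sum_mul]
      have : (∑ j, (L i₀ j).natAbs * R) * x ≤ (1 + ∑ j, (L i₀ j).natAbs * R) * x :=
        Nat.mul_le_mul_right _ (by omega)
      exact_mod_cast this
    · have h1 : cc a L F x y = av x fun t => F i₀ (a i₀ * t + LL L i₀ y) := by
        unfold cc
        congr 1
        funext n
        rw [huniv, Finset.prod_singleton]
      have h2 := norm_cc_le a L F hF.1 x y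
      rw [← h1]
      have h3 : ‖cc a L F x y‖ ^ 2 ≤ ‖cc a L F x y‖ := by
        have := norm_nonneg (cc a L F x y)
        nlinarith
      exact hy2.trans h3
  | succ N ih =>
    intro κ ι _ _ _ _ a L lg i₀ ha hcard hsep P00 R ε hε
    by_cases hne : Fintype.card ι ≤ N + 1
    · exact ih κ ι a L lg i₀ ha hne hsep P00 R ε hε
    -- another form
    obtain ⟨i₁, hi₁⟩ : ∃ i₁, i₁ ≠ i₀ := by
      have : 1 < Fintype.card ι := by omega
      have := Fintype.one_lt_card_iff_nontrivial.mp this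
      exact exists_ne i₀
    obtain ⟨t₀, hlg, ht₀⟩ := hsep i₁ hi₁
    -- the direction
    set vn : ℤ := -L i₁ t₀ with hvn
    set vt : ℤ := a i₁ with hvt
    set Lp : ι → κ ⊕ Unit → ℤ := fun i => Sum.elim (L i) (fun _ => a i * vn + L i t₀ * vt) with hLp
    set V : ι → ℤ := fun i => a i * vn + L i t₀ * vt with hV
    have hV1 : V i₁ = 0 := by simp only [hV, hvn, hvt]; ring
    have hV0 : V i₀ ≠ 0 := by
      intro h
      apply ht₀
      simp only [hV, hvn, hvt] at h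
      linarith
    -- parameters
    set C₁ : ℝ := 4 * |(vn : ℝ)| + |(vt : ℝ)| * R with hC₁
    have hC₁0 : 0 ≤ C₁ := by positivity
    set ηu : ℝ := min 1 (ε / (2 * (C₁ + 1))) with hηu
    have hηu0 : 0 < ηu := lt_min one_pos (by positivity)
    have hηu1 : ηu ≤ 1 := min_le_left _ _
    obtain ⟨Te, δe, ηe, Ke, hTe, hδe, hηe, hηe1, hel⟩ := G12.elim hS (κ ⊕ Unit) ι a Lp ha
      (Sum.inr ()) P00 (R + 1) (ε / 2) (by positivity)
    -- new system
    set a' : {i // Lp i (Sum.inr ()) ≠ 0} → ℤ := fun i => (Te : ℤ) * Lp i (Sum.inr ()) with ha'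
    set L' : {i // Lp i (Sum.inr ()) ≠ 0} → (κ ⊕ Unit) ⊕ Unit → ℤ :=
      fun i => Sum.elim (Lp i) (fun _ => a i) with hL'
    set lg' : (κ ⊕ Unit) ⊕ Unit → Bool := Sum.elim (Sum.elim lg (fun _ => true)) (fun _ => true)
      with hlg'
    have hTe0 : (Te : ℤ) ≠ 0 := by exact_mod_cast hTe.ne'
    have ha'0 : ∀ i, a' i ≠ 0 := fun i => mul_ne_zero hTe0 i.2
    have hi₀' : Lp i₀ (Sum.inr ()) ≠ 0 := hV0
    set i₀' : {i // Lp i (Sum.inr ()) ≠ 0} := ⟨i₀, hi₀'⟩ with hi₀'def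
    have hsep' : ∀ i, i ≠ i₀' → ∃ t, lg' t = true ∧ a' i * L' i₀' t ≠ a' i₀' * L' i t := by
      rintro ⟨i, hi⟩ hne'
      have hii : i ≠ i₀ := by
        intro h
        apply hne'
        rw [hi₀'def, Subtype.mk.injEq]
        exact h
      obtain ⟨t, ht, ht2⟩ := hsep i hii
      by_contra hcon
      push Not at hcon
      have e1 : (Te : ℤ) * V i * L i₀ t = (Te : ℤ) * V i₀ * L i t := hcon (Sum.inl (Sum.inl t)) ht
      have e2 : (Te : ℤ) * V i * a i₀ = (Te : ℤ) * V i₀ * a i := hcon (Sum.inr ()) rfl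
      apply ht2
      have e3 : (Te : ℤ) * V i₀ * (a i * L i₀ t) = (Te : ℤ) * V i₀ * (a i₀ * L i t) := by
        calc (Te : ℤ) * V i₀ * (a i * L i₀ t) = ((Te : ℤ) * V i₀ * a i) * L i₀ t := by ring
          _ = ((Te : ℤ) * V i * a i₀) * L i₀ t := by rw [← e2]
          _ = a i₀ * ((Te : ℤ) * V i * L i₀ t) := by ring
          _ = a i₀ * ((Te : ℤ) * V i₀ * L i t) := by rw [e1]
          _ = _ := by ring
      exact mul_left_cancel₀ (mul_ne_zero hTe0 hV0) e3
    have hcard' : Fintype.card {i // Lp i (Sum.inr ()) ≠ 0} ≤ N + 1 := by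
      have h1 : Fintype.card {i // Lp i (Sum.inr ()) ≠ 0} < Fintype.card ι := by
        refine Fintype.card_subtype_lt (x := i₁) ?_
        intro h
        exact h hV1
      omega
    obtain ⟨R', hR'⟩ := exists_nat_ge (4 * ((Te : ℝ) + 1) * (R + 1) / (ηe * ηu) + R + 1)
    obtain ⟨cf, δf, Rf, T, K, hcf, hδf, hTK⟩ := ih ((κ ⊕ Unit) ⊕ Unit) {i // Lp i (Sum.inr ()) ≠ 0}
      a' L' lg' i₀' ha'0 hcard' hsep' P00 R' δe hδe
    obtain ⟨K₁, hK₁⟩ := exists_nat_ge (((Ke + K + 2 : ℕ) : ℝ) / ηu)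
    obtain ⟨K₂, hK₂⟩ := exists_nat_ge (2 * ((Ke + K + 2 : ℕ) : ℝ) / (ηe * ηu))
    refine ⟨cf, δf, R' * Rf + Rf, Te + T, Ke + K + K₁ + K₂ + 1, hcf, hδf,
      fun B x hB hx hBx hlong F g F₂ hF hbig => ?_⟩
    have hB0 : ∀ i, 0 < B i := fun i => lt_of_lt_of_le (by omega) (hB i)
    have hx0 : 0 < x := by omega
    have hxR : (0 : ℝ) < x := by exact_mod_cast hx0
    -- the size of the new parameter
    have hM2 : 2 ≤ Ke + K + 2 := by omega
    have hUx : ((Ke + K + 2 : ℕ) : ℝ) ≤ ηu * x := by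
      have : (K₁ : ℝ) ≤ x := by exact_mod_cast (by omega : K₁ ≤ x)
      rw [div_le_iff₀ hηu0] at hK₁
      nlinarith
    obtain ⟨fU1, fU2, fU3⟩ := fl hM2 hUx
    set U₀ : ℕ := ⌊ηu * x⌋₊ with hU₀
    have hU₀x : U₀ ≤ x := by
      have : (U₀ : ℝ) ≤ x := by
        refine fU2.trans ?_
        nlinarith
      exact_mod_cast this
    have hU₀0 : 0 < U₀ := by omega
    have h1 := addu a L vn vt t₀ B x U₀ hB0 hx0 hU₀0 F hF.1
    have h2 : 4 * |(vn : ℝ)| * U₀ / x + |(vt : ℝ)| * U₀ / B t₀ ≤ ε / 2 := by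
      have hBt : (0 : ℝ) < B t₀ := by exact_mod_cast hB0 t₀
      have e1 : 4 * |(vn : ℝ)| * U₀ / x ≤ 4 * |(vn : ℝ)| * ηu := by
        rw [div_le_iff₀ hxR]
        calc 4 * |(vn : ℝ)| * U₀ ≤ 4 * |(vn : ℝ)| * (ηu * x) := by gcongr
          _ = _ := by ring
      have e2 : |(vt : ℝ)| * U₀ / B t₀ ≤ |(vt : ℝ)| * R * ηu := by
        rw [div_le_iff₀ hBt]
        have e3 : (x : ℝ) ≤ R * B t₀ := by exact_mod_cast hlong t₀ hlg
        calc |(vt : ℝ)| * U₀ ≤ |(vt : ℝ)| * (ηu * (R * B t₀)) := by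
              refine mul_le_mul_of_nonneg_left (fU2.trans ?_) (abs_nonneg _)
              exact mul_le_mul_of_nonneg_left e3 hηu0.le
          _ = _ := by ring
      have e4 : C₁ * ηu ≤ ε / 2 := by
        calc C₁ * ηu ≤ C₁ * (ε / (2 * (C₁ + 1))) :=
              mul_le_mul_of_nonneg_left (min_le_right _ _) hC₁0
          _ = (ε / 2) * (C₁ / (C₁ + 1)) := by field_simp
          _ ≤ (ε / 2) * 1 := by
              refine mul_le_mul_of_nonneg_left ?_ (by positivity)
              rw [div_le_one (by positivity)]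
              linarith
          _ = _ := mul_one _
      have e5 : C₁ * ηu = 4 * |(vn : ℝ)| * ηu + |(vt : ℝ)| * R * ηu := by rw [hC₁]; ring
      linarith
    have h3 : ε / 2 ≤ ER (Sum.elim B (fun _ : Unit => U₀)) (fun z => ‖cc a Lp F x z‖ ^ 2) := by
      have h4 : ER B (fun y => ‖cc a L F x y‖ ^ 2)
          ≤ ER (Sum.elim B (fun _ : Unit => U₀)) (fun z => ‖cc a Lp F x z‖ ^ 2)
            + (4 * |(vn : ℝ)| * U₀ / x + |(vt : ℝ)| * U₀ / B t₀) := h1
      linarith
    have h4 := hel (Sum.elim B (fun _ : Unit => U₀)) x (by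
        rintro (i | i)
        · show Ke ≤ B i
          have := hB i; omega
        · show Ke ≤ U₀
          omega) (by omega) (by
        rintro (i | i)
        · show B i ≤ (R + 1) * x
          have := hBx i
          nlinarith
        · show U₀ ≤ (R + 1) * x
          nlinarith) F g F₂ (mg_mono hF (by omega)) h3
    -- apply the induction hypothesis
    have hU₀R : ηu * x / 2 ≤ (U₀ : ℝ) := fU1
    have hx'big : ((Ke + K + 2 : ℕ) : ℝ) ≤ ηe * U₀ := by
      have e1 : (K₂ : ℝ) ≤ x := by exact_mod_cast (by omega : K₂ ≤ x)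
      have e2 : 2 * ((Ke + K + 2 : ℕ) : ℝ) ≤ (ηe * ηu) * x := by
        have := hK₂.trans e1
        rw [div_le_iff₀ (by positivity)] at this
        linarith [mul_comm (ηe * ηu) (x : ℝ)]
      have e3 : ηe * (ηu * x / 2) ≤ ηe * U₀ := mul_le_mul_of_nonneg_left hU₀R hηe.le
      nlinarith
    obtain ⟨f1, f2, f3⟩ := fl hM2 hx'big
    set x' : ℕ := ⌊ηe * U₀⌋₊ with hx'
    have hx'U : x' ≤ U₀ := by
      have : (x' : ℝ) ≤ U₀ := by
        refine f2.trans ?_
        have : (0 : ℝ) ≤ U₀ := Nat.cast_nonneg _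
        nlinarith
      exact_mod_cast this
    have hxx' : (x : ℝ) ≤ 4 / (ηe * ηu) * x' := by
      have e1 : ηe * (ηu * x / 2) ≤ ηe * U₀ := mul_le_mul_of_nonneg_left hU₀R hηe.le
      rw [div_mul_eq_mul_div, le_div_iff₀ (by positivity)]
      nlinarith
    have hR'1 : (R : ℝ) + 1 ≤ R' := by
      have : 0 ≤ 4 * ((Te : ℝ) + 1) * (R + 1) / (ηe * ηu) := by positivity
      linarith
    have hR'2 : ((Te : ℝ) + 1) * (R + 1) * x ≤ R' * x' := by
      have e1 : 4 * ((Te : ℝ) + 1) * (R + 1) / (ηe * ηu) ≤ R' := by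
        have : (0 : ℝ) ≤ R := Nat.cast_nonneg _
        linarith
      calc ((Te : ℝ) + 1) * (R + 1) * x ≤ ((Te : ℝ) + 1) * (R + 1) * (4 / (ηe * ηu) * x') := by
            gcongr
        _ = 4 * ((Te : ℝ) + 1) * (R + 1) / (ηe * ηu) * x' := by ring
        _ ≤ _ := by gcongr
    have hR'2' : (Te + 1) * (R + 1) * x ≤ R' * x' := by exact_mod_cast hR'2
    have hR'1' : R + 1 ≤ R' := by exact_mod_cast hR'1
    have hxR'x' : x ≤ R' * x' := by
      calc x ≤ (Te + 1) * (R + 1) * x :=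
            Nat.le_mul_of_pos_left _ (Nat.mul_pos (Nat.succ_pos _) (Nat.succ_pos _))
        _ ≤ _ := hR'2'
    obtain ⟨x₂, b, g1, g2, g3, g4⟩ := hTK (Sum.elim (fun j => (Te + 1) *
      (Sum.elim B (fun _ : Unit => U₀) j)) (fun _ : Unit => x)) x' (by
        rintro ((i | i) | i)
        · show K ≤ (Te + 1) * B i
          have := hB i
          exact le_trans (by omega) (Nat.le_mul_of_pos_left (B i) (Nat.succ_pos Te))
        · show K ≤ (Te + 1) * U₀
          exact le_trans (by omega) (Nat.le_mul_of_pos_left U₀ (Nat.succ_pos Te))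
        · show K ≤ x
          omega) (by omega) (by
        rintro ((i | i) | i)
        · show (Te + 1) * B i ≤ R' * x'
          have e1 := hBx i
          calc (Te + 1) * B i ≤ (Te + 1) * (R * x) := Nat.mul_le_mul_left _ e1
            _ = (Te + 1) * R * x := by ring
            _ ≤ (Te + 1) * (R + 1) * x :=
                Nat.mul_le_mul_right _ (Nat.mul_le_mul_left _ (Nat.le_succ R))
            _ ≤ _ := hR'2'
        · show (Te + 1) * U₀ ≤ R' * x'
          calc (Te + 1) * U₀ ≤ (Te + 1) * x := Nat.mul_le_mul_left _ hU₀x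
            _ ≤ (Te + 1) * (R + 1) * x :=
                Nat.mul_le_mul_right _ (Nat.le_mul_of_pos_right _ (Nat.succ_pos R))
            _ ≤ _ := hR'2'
        · show x ≤ R' * x'
          exact hxR'x') (by
        rintro ((i | i) | i) hi
        · show x' ≤ R' * ((Te + 1) * B i)
          have e1 := hlong i hi
          calc x' ≤ x := hx'U.trans hU₀x
            _ ≤ R * B i := e1
            _ ≤ R' * ((Te + 1) * B i) := by
                refine Nat.mul_le_mul (by omega) ?_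
                exact Nat.le_mul_of_pos_left _ (Nat.succ_pos _)
        · show x' ≤ R' * ((Te + 1) * U₀)
          calc x' ≤ U₀ := hx'U
            _ ≤ (Te + 1) * U₀ := Nat.le_mul_of_pos_left _ (Nat.succ_pos _)
            _ ≤ _ := Nat.le_mul_of_pos_left _ (by omega)
        · show x' ≤ R' * x
          calc x' ≤ x := hx'U.trans hU₀x
            _ ≤ _ := Nat.le_mul_of_pos_left _ (by omega))
      (fun i => F i) (fun i => g i) (fun i => F₂ i)
      ⟨fun i m => hF.1 _ m, fun i m => hF.2.1 _ m, fun i p hp h0 h1 => hF.2.2.1 _ p hp h0 (by omega),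
        fun i p hp h0 h1 m hm => hF.2.2.2 _ p hp h0 (by omega) m hm⟩ h4
    have hx'x : x' ≤ x := hx'U.trans hU₀x
    refine ⟨x₂, b, g1.trans hx'x, ?_, ?_, g4⟩
    · calc x ≤ R' * x' := hxR'x'
        _ ≤ R' * (Rf * x₂) := Nat.mul_le_mul_left _ g2
        _ = R' * Rf * x₂ := by ring
        _ ≤ _ := Nat.mul_le_mul_right _ (Nat.le_add_right _ _)
    · refine g3.trans ?_
      have : Rf * x' ≤ (R' * Rf + Rf) * x := Nat.mul_le_mul (Nat.le_add_left _ _) hx'x
      exact_mod_cast this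

end Pool.Agent.N675.M.G12
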