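import Pool.Agent.J4.H12.LO.Stm
import Pool.Agent.N675.M.Step

/-! One step of the descent (`Pool.Agent.N675.M.step`) for functions `F` with `F (p m) = g(p) G(m)`. -/

namespace Pool.Agent.N675.M.G12

open Finset Pool.Agent.N675 Pool.Agent.N781.A Pool.Agent.N781.FV
open Pool.Agent.N675.M
open Pool.Agent.N781.OM (MG)

lemma mg_mono {ι : Type} {F F₂ : ι → ℤ → ℂ} {g : ι → ℕ → ℂ} {P0 T T' : ℕ}
    (h : MG F g F₂ P0 T) (hT : T' ≤ T) : MG F g F₂ P0 T' :=
  ⟨h.1, h.2.1, fun i p hp h0 h1 => h.2.2.1 i p hp h0 (h1.trans hT),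
    fun i p hp h0 h1 => h.2.2.2 i p hp h0 (h1.trans hT)⟩

theorem step (hP : S_PERM) (hM : S_MONO) (hSh : S_SHAPE) (hU : S_U2) (hJ : S_MAJ) (hE : G12.S_ENG) :
    G12.S_STEP := by
  classical
  intro κ ι _ _ _ _ a L ha j s P00 hs δ hδ0 hδ1
  obtain ⟨Z, I, fZ, dZ, fI, dI, neI, φ, σ, hφ⟩ := hSh j
  obtain ⟨c₁, hc₁, hU2⟩ := hU κ
  set r : ℝ := (Fintype.card κ : ℝ) with hr
  have hr0 : 0 ≤ r := Nat.cast_nonneg _
  have hsR : (0 : ℝ) < s := by exact_mod_cast hs
  have hjR : (0 : ℝ) ≤ j := Nat.cast_nonneg _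
  -- the size of the first windows
  obtain ⟨η₀, hη₀0, hη₀1, hη₀2, -⟩ := ex3 (C₁ := r * s * (j + 1)) (C₂ := s) (C₃ := 0)
    (b₁ := δ / 16) (b₂ := c₁ * (δ / 4)) (b₃ := 1) (by positivity) (by positivity) le_rfl
    (by positivity) (by positivity) one_pos
  refine ⟨η₀, hη₀0, fun η hη0 hη => ?_⟩
  set δ₂ : ℝ := min 1 (c₁ * (δ / 4) * (η / 2) ^ (Fintype.card κ)) with hδ₂
  have hδ₂0 : 0 < δ₂ := lt_min one_pos (by positivity)
  obtain ⟨P₁, Q', KE, δE, c₀, hδE, hc₀, hENG⟩ := hE κ Z I ι φ σ a L ha s P00 hs δ₂ (δ / 2) hδ₂0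
    (min_le_left _ _) (by positivity) (by linarith)
  set δ' : ℝ := min 1 δE with hδ'
  have hδ'0 : 0 < δ' := lt_min one_pos hδE
  obtain ⟨Q₂, hQ₂, hMAJ⟩ := hJ κ Q' (δ' / 16) (by positivity)
  set T₁ : ℕ := Q'.factorial with hT₁
  have hT₁0 : 0 < T₁ := Nat.factorial_pos _
  set T : ℕ := T₁ * P₁.factorial with hT
  have hT0 : 0 < T := Nat.mul_pos hT₁0 (Nat.factorial_pos _)
  have hT₁R : (0 : ℝ) < T₁ := by exact_mod_cast hT₁0
  have hTR : (0 : ℝ) < T := by exact_mod_cast hT0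
  have hQ₂R : (0 : ℝ) < Q₂ := by exact_mod_cast hQ₂
  have hfR : (0 : ℝ) < (P₁.factorial : ℝ) := by exact_mod_cast Nat.factorial_pos _
  have hP₁T : P₁ ≤ T := by
    have h1 : P₁ ≤ P₁.factorial := Nat.self_le_factorial _
    exact h1.trans (Nat.le_mul_of_pos_left _ hT₁0)
  -- sizes of the other windows
  obtain ⟨ηa, hηa0, hηa1, hηa2, hηa3⟩ := ex3 (C₁ := 1) (C₂ := r * (8 / η)) (C₃ := r * s)
    (b₁ := c₁ * (δ / 4) * (η / 2)) (b₂ := δ / 16) (b₃ := δ' / 16) (by positivity) (by positivity)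
    (by positivity) (by positivity) (by positivity) (by positivity)
  obtain ⟨η₂, hη₂0, hη₂1, hη₂2, hη₂3⟩ := ex3 (C₁ := 1) (C₂ := j * (r * (8 / η)))
    (C₃ := j * (r * s)) (b₁ := c₀) (b₂ := δ / 16) (b₃ := δ' / 16) (by positivity) (by positivity)
    (by positivity) (by positivity) (by positivity) (by positivity)
  obtain ⟨η₃, hη₃0, hη₃1, hη₃2, -⟩ := ex3 (C₁ := Q₂) (C₂ := r * (s * Q')) (C₃ := 0)
    (b₁ := ηa / 2) (b₂ := δ' / 16) (b₃ := 1) (by positivity) (by positivity)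
    le_rfl (by positivity) (by positivity) one_pos
  obtain ⟨η₄, hη₄0, hη₄1, hη₄2, -⟩ := ex3 (C₁ := r * (8 * T₁ / η₃)) (C₂ := r * (s * T₁)) (C₃ := 0)
    (b₁ := δ' / 16) (b₂ := δ' / 16) (b₃ := 1) (by positivity) (by positivity)
    le_rfl (by positivity) (by positivity) one_pos
  obtain ⟨η₁, hη₁0, hη₁1, hη₁2, -⟩ := ex3 (C₁ := r * (8 * P₁.factorial / η₄))
    (C₂ := j * (r * (16 * T / η₂))) (C₃ := 0)
    (b₁ := δ' / 16) (b₂ := δ' / 16) (b₃ := 1) (by positivity) (by positivity)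
    le_rfl (by positivity) (by positivity) one_pos
  refine ⟨T, δ' / 2, η₁, hT0, by positivity, by linarith [min_le_left 1 δE], hη₁0,
    fun η' hη'0 hη' => ?_⟩
  -- the lower bound for the sides
  set M : ℕ := 2 * P₁ + KE + 2 with hMdef
  have hM2 : 2 ≤ M := by omega
  obtain ⟨K₀, hK₀⟩ : ∃ K₀ : ℕ, KE ≤ K₀ ∧ 1 ≤ K₀ ∧ ∀ b : ℕ, K₀ ≤ b → (M : ℝ) ≤ η * b ∧
      (M : ℝ) ≤ ηa * b ∧ (M : ℝ) ≤ η₂ * b ∧ (M : ℝ) ≤ η₃ * b ∧ (M : ℝ) ≤ η₄ * b
      ∧ (M : ℝ) ≤ η' * b := by
    have key : ∀ e : ℝ, 0 < e → ∃ K : ℕ, ∀ b : ℕ, K ≤ b → (M : ℝ) ≤ e * b := by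
      intro e he
      obtain ⟨K, hK⟩ := exists_nat_ge ((M : ℝ) / e)
      refine ⟨K, fun b hb => ?_⟩
      have hb' : (K : ℝ) ≤ b := by exact_mod_cast hb
      rw [div_le_iff₀ he] at hK
      nlinarith
    obtain ⟨k1, h1⟩ := key η hη0
    obtain ⟨k2, h2⟩ := key ηa hηa0
    obtain ⟨k3, h3⟩ := key η₂ hη₂0
    obtain ⟨k4, h4⟩ := key η₃ hη₃0
    obtain ⟨k5, h5⟩ := key η₄ hη₄0
    obtain ⟨k6, h6⟩ := key η' hη'0
    refine ⟨KE + 1 + k1 + k2 + k3 + k4 + k5 + k6, by omega, by omega, fun b hb => ⟨h1 b (by omega),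
      h2 b (by omega), h3 b (by omega), h4 b (by omega), h5 b (by omega), h6 b (by omega)⟩⟩
  obtain ⟨hK1, hK1', hK2⟩ := hK₀
  refine ⟨K₀, fun B x hB hx F g F₂ hF hNN => ?_⟩
  set c : (κ → ℤ) → ℂ := cc a L F x with hcdef
  have hc : ∀ m, ‖c m‖ ≤ 1 := norm_cc_le a L F hF.1 x
  have hB0 : ∀ i, 0 < B i := fun i => lt_of_lt_of_le (by omega) (hB i)
  have hBR : ∀ i, (0 : ℝ) < B i := fun i => by exact_mod_cast hB0 i
  set H : κ → ℕ := fun i => ⌊η * B i⌋₊ with hHdef
  set K' : κ → ℕ := fun i => ⌊ηa * B i⌋₊ with hK'def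
  set H' : κ → ℕ := fun i => ⌊η₂ * B i⌋₊ with hH'def
  set K₂ : κ → ℕ := fun i => ⌊η₃ * B i⌋₊ with hK₂def
  set K₃ : κ → ℕ := fun i => ⌊η₄ * B i⌋₊ with hK₃def
  set H'' : κ → ℕ := fun i => ⌊η' * B i⌋₊ with hH''def
  have fH := fun i => fl hM2 (hK2 (B i) (hB i)).1
  have fK' := fun i => fl hM2 (hK2 (B i) (hB i)).2.1
  have fH' := fun i => fl hM2 (hK2 (B i) (hB i)).2.2.1
  have fK₂ := fun i => fl hM2 (hK2 (B i) (hB i)).2.2.2.1
  have fK₃ := fun i => fl hM2 (hK2 (B i) (hB i)).2.2.2.2.1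
  have fH'' := fun i => fl hM2 (hK2 (B i) (hB i)).2.2.2.2.2
  have pH : ∀ i, 0 < H i := fun i => by have := (fH i).2.2; simp only [hHdef]; omega
  have pK' : ∀ i, 0 < K' i := fun i => by have := (fK' i).2.2; simp only [hK'def]; omega
  have pH' : ∀ i, 0 < H' i := fun i => by have := (fH' i).2.2; simp only [hH'def]; omega
  have pK₂ : ∀ i, 0 < K₂ i := fun i => by have := (fK₂ i).2.2; simp only [hK₂def]; omega
  have pK₃ : ∀ i, 0 < K₃ i := fun i => by have := (fK₃ i).2.2; simp only [hK₃def]; omega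
  have pH'' : ∀ i, 0 < H'' i := fun i => by have := (fH'' i).2.2; simp only [hH''def]; omega
  have pHR : ∀ i, (0 : ℝ) < H i := fun i => by exact_mod_cast pH i
  -- quotients
  have qpos : ∀ q : ℕ, q.Prime → q ≤ P₁ → ∀ i, 0 < H' i / q := by
    intro q hq hqP i
    refine Nat.div_pos ?_ hq.pos
    have := (fH' i).2.2
    simp only [hH'def]
    omega
  -- bounds for the errors
  have hsη : r * (s * η) * (j + 1) ≤ δ / 16 := by
    calc r * (s * η) * (j + 1) = r * s * (j + 1) * η := by ring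
      _ ≤ r * s * (j + 1) * η₀ := by gcongr
      _ ≤ _ := hη₀1
  have eH : ∀ i, (s : ℝ) * H i / B i ≤ s * η := by
    intro i
    rw [div_le_iff₀ (hBR i)]
    have := (fH i).2.1
    calc (s : ℝ) * H i ≤ s * (η * B i) := by
          refine mul_le_mul_of_nonneg_left this hsR.le
      _ = _ := by ring
  -- first reduction of the windows
  have hA : ∀ q : ℕ, q.Prime → q ≤ P₁ →
      3 * (δ / 4) ≤ NN B ((s, H) :: (s, K') :: List.replicate j (s * q, fun i => H' i / q)) c := by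
    intro q hq hqP
    have hq0 : (0 : ℝ) < q := by exact_mod_cast hq.pos
    have m1 := mono_rep hP hM B s q H (fun i => H' i / q) hB0 pH (qpos q hq hqP) c hc j
      [(s, H), (s, H)]
    have m2 : NN B (List.replicate (j + 2) (s, H)) c
        = NN B (List.replicate j (s, H) ++ [(s, H), (s, H)]) c := by
      congr 1
      rw [List.replicate_add]
      rfl
    have m3 : NN B (List.replicate j (s * q, fun i => H' i / q) ++ [(s, H), (s, H)]) c
        = NN B ((s, H) :: (s, H) :: List.replicate j (s * q, fun i => H' i / q)) c := by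
      refine hP κ B _ _ c ?_
      refine List.perm_append_comm.trans ?_
      rfl
    have m4 := hM κ B s 1 H K' ((s, H) :: List.replicate j (s * q, fun i => H' i / q)) c hc hB0
      pH pK'
    rw [mul_one] at m4
    have m5 : NN B ((s, K') :: (s, H) :: List.replicate j (s * q, fun i => H' i / q)) c
        = NN B ((s, H) :: (s, K') :: List.replicate j (s * q, fun i => H' i / q)) c :=
      hP κ B _ _ c (List.Perm.swap _ _ _)
    have e1 : (j : ℝ) * ∑ i, (4 * (q : ℝ) * ((H' i / q : ℕ) : ℝ) / H i + s * (H i : ℝ) / B i)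
        ≤ j * (r * (8 / η)) * η₂ + j * (r * (s * η)) := by
      have e2 : ∑ i, (4 * (q : ℝ) * ((H' i / q : ℕ) : ℝ) / H i + s * (H i : ℝ) / B i)
          ≤ r * (8 / η * η₂ + s * η) := by
        refine sum_le_card _ fun i => ?_
        have h1 : (q : ℝ) * ((H' i / q : ℕ) : ℝ) ≤ H' i := by
          exact_mod_cast Nat.mul_div_le (H' i) q
        have h2 := (fH' i).2.1
        have h3 := (fH i).1
        have h4 : 4 * (q : ℝ) * ((H' i / q : ℕ) : ℝ) / H i ≤ 8 / η * η₂ := by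
          rw [div_le_iff₀ (pHR i)]
          calc 4 * (q : ℝ) * ((H' i / q : ℕ) : ℝ) = 4 * (q * ((H' i / q : ℕ) : ℝ)) := by ring
            _ ≤ 4 * (H' i) := by linarith
            _ ≤ 4 * (η₂ * B i) := by
                refine mul_le_mul_of_nonneg_left h2 (by norm_num)
            _ = 8 / η * η₂ * (η * B i / 2) := by field_simp; ring
            _ ≤ 8 / η * η₂ * H i := mul_le_mul_of_nonneg_left h3 (by positivity)
        linarith [eH i]
      calc _ ≤ (j : ℝ) * (r * (8 / η * η₂ + s * η)) := mul_le_mul_of_nonneg_left e2 hjR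
        _ = _ := by ring
    have e3 : ∑ i, (4 * ((1 : ℕ) : ℝ) * (K' i : ℝ) / H i + s * (H i : ℝ) / B i)
        ≤ r * (8 / η) * ηa + r * (s * η) := by
      have e4 : ∑ i, (4 * ((1 : ℕ) : ℝ) * (K' i : ℝ) / H i + s * (H i : ℝ) / B i)
          ≤ r * (8 / η * ηa + s * η) := by
        refine sum_le_card _ fun i => ?_
        have h2 := (fK' i).2.1
        have h3 := (fH i).1
        have h4 : 4 * ((1 : ℕ) : ℝ) * (K' i : ℝ) / H i ≤ 8 / η * ηa := by
          rw [div_le_iff₀ (pHR i)]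
          push_cast
          calc 4 * 1 * (K' i : ℝ) ≤ 4 * (ηa * B i) := by
                rw [mul_one]
                refine mul_le_mul_of_nonneg_left h2 (by norm_num)
            _ = 8 / η * ηa * (η * B i / 2) := by field_simp; ring
            _ ≤ 8 / η * ηa * H i := mul_le_mul_of_nonneg_left h3 (by positivity)
        linarith [eH i]
      calc _ ≤ r * (8 / η * ηa + s * η) := e4
        _ = _ := by ring
    rw [m3] at m1
    rw [m5] at m4
    rw [m2] at hNN
    have e5 : j * (r * (s * η)) + r * (s * η) ≤ δ / 16 := by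
      calc j * (r * (s * η)) + r * (s * η) = r * (s * η) * (j + 1) := by ring
        _ ≤ _ := hsη
    have e6 : NN B ((s, H) :: (s, H) :: List.replicate j (s * q, fun i => H' i / q)) c
        ≤ NN B ((s, H) :: (s, K') :: List.replicate j (s * q, fun i => H' i / q)) c
          + ∑ i, (4 * ((1 : ℕ) : ℝ) * (K' i : ℝ) / H i + s * (H i : ℝ) / B i) := m4
    have e7 := m1.trans (add_le_add_left e6 _)
    linarith [hNN.trans m1]
  -- the cubes
  have hB' : ∀ q : ℕ, q.Prime → q ≤ P₁ → ∃ θ : (Z × κ → ℤ) → κ → ℝ,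
      δ / 2 ≤ ER (fun zj : Z × κ => H' zj.2 / q) (fun l =>
        if δ₂ ≤ SS B s K' (cub φ σ c ((s : ℤ) * q) l) (θ l) then (1 : ℝ) else 0) := by
    intro q hq hqP
    set f : (Z × κ → ℤ) → ℝ := fun l => GX (T1 B (s, H)) [(s, K')] (cub φ σ c ((s : ℤ) * q) l)
      with hf
    have hcub : ∀ l, ∀ m, ‖cub φ σ c ((s : ℤ) * q) l m‖ ≤ 1 := fun l m => cub_bound φ σ hc _ _ _
    have e1 : NN B ((s, H) :: (s, K') :: List.replicate j (s * q, fun i => H' i / q)) c
        = ER (fun zj : Z × κ => H' zj.2 / q) f := by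
      have h1 : NN B ((s, H) :: (s, K') :: List.replicate j (s * q, fun i => H' i / q)) c
          = NN B ((s, H) :: (List.replicate j (s * q, fun i => H' i / q) ++ [(s, K')])) c := by
        refine hP κ B _ _ c (List.Perm.cons _ ?_)
        exact (List.perm_append_singleton _ _).symm
      rw [h1]
      show GX (T1 B (s, H)) (List.replicate j (s * q, fun i => H' i / q) ++ [(s, K')]) c = _
      rw [GX_append, hφ κ]
      simp only [hf]
      push_cast
      rfl
    have e2 := hA q hq hqP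
    rw [e1] at e2
    have e3 := ER_markov (fun zj : Z × κ => H' zj.2 / q) (f := f) (δ := δ / 4) (by positivity)
      (fun l _ => GX_le_one (fun c hc => T1_le_one B _ c hc) _ _ (hcub l)) e2
    have hK1 : ∀ i, (s : ℝ) * H i ≤ c₁ * (δ / 4) * B i := by
      intro i
      calc (s : ℝ) * H i ≤ s * (η * B i) := by
            refine mul_le_mul_of_nonneg_left (fH i).2.1 hsR.le
        _ = s * η * B i := by ring
        _ ≤ s * η₀ * B i := by
            have := hBR i
            gcongr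
        _ ≤ _ := mul_le_mul_of_nonneg_right hη₀2 (hBR i).le
    have hK2' : ∀ i, (K' i : ℝ) ≤ c₁ * (δ / 4) * H i := by
      intro i
      calc (K' i : ℝ) ≤ ηa * B i := (fK' i).2.1
        _ ≤ c₁ * (δ / 4) * (η / 2) * B i := by
            rw [one_mul] at hηa1
            exact mul_le_mul_of_nonneg_right hηa1 (hBR i).le
        _ = c₁ * (δ / 4) * (η * B i / 2) := by ring
        _ ≤ _ := mul_le_mul_of_nonneg_left (fH i).1 (by positivity)
    have hex : ∀ l, δ / 4 ≤ f l → ∃ θ : κ → ℝ, δ₂ ≤ SS B s K' (cub φ σ c ((s : ℤ) * q) l) θ := by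
      intro l hl
      obtain ⟨θ, hθ⟩ := hU2 B s H K' (cub φ σ c ((s : ℤ) * q) l) (δ / 4) (hcub l) hB0 hs pH pK'
        (by positivity) hK1 hK2' hl
      refine ⟨θ, le_trans ((min_le_right _ _).trans ?_) hθ⟩
      refine mul_le_mul_of_nonneg_left ?_ (by positivity)
      rw [← Finset.prod_div_distrib, ← Finset.card_univ, ← Finset.prod_const]
      refine Finset.prod_le_prod (fun i _ => by positivity) fun i _ => ?_
      rw [le_div_iff₀ (hBR i)]
      have := (fH i).1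
      linarith
    refine ⟨fun l => if h : δ / 4 ≤ f l then (hex l h).choose else 0, ?_⟩
    have e4 : 2 * (δ / 4) ≤ ER (fun zj : Z × κ => H' zj.2 / q) (fun l =>
        if δ / 4 ≤ f l then (1 : ℝ) else 0) := by
      convert e3 using 2
    have e5 : ER (fun zj : Z × κ => H' zj.2 / q) (fun l => if δ / 4 ≤ f l then (1 : ℝ) else 0)
        ≤ ER (fun zj : Z × κ => H' zj.2 / q) (fun l =>
          if δ₂ ≤ SS B s K' (cub φ σ c ((s : ℤ) * q) l)
            ((fun l => if h : δ / 4 ≤ f l then (hex l h).choose else 0) l) then (1 : ℝ) else 0) := by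
      refine ER_mono _ fun l _ => ?_
      by_cases h : δ / 4 ≤ f l
      · have h2 := (hex l h).choose_spec
        simp only [h, dif_pos, if_true]
        rw [if_pos h2]
      · rw [if_neg h]
        split_ifs <;> norm_num
    linarith
  -- the engine
  obtain ⟨q, hq, hqP, θ, hMA, hER⟩ := hENG B x K' H' (fun i => hK1.trans (hB i)) (hK1.trans hx)
    (fun i => by have := (fK' i).2.2; simp only [hK'def]; omega)
    (fun i => by have := (fH' i).2.2; simp only [hH'def]; omega)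
    (fun i => by
      have h1 := (fH' i).2.1
      rw [one_mul] at hη₂1
      calc (H' i : ℝ) ≤ η₂ * B i := h1
        _ ≤ c₀ * B i := mul_le_mul_of_nonneg_right hη₂1 (hBR i).le) F g F₂ (mg_mono hF hP₁T) hB'
  have hER' : δ' ≤ ER (fun zj : Z × κ => H' zj.2 / q) (fun l =>
      SS B s K' (cub φ σ c ((s : ℤ) * q) l) θ) := le_trans (min_le_right _ _) hER
  -- removal of the phase
  have hph : ∀ l, SS B s K' (cub φ σ c ((s : ℤ) * q) l) θ
      ≤ T1 B (s * T₁, K₃) (cub φ σ c ((s : ℤ) * q) l) + δ' / 4 := by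
    intro l
    have hcub : ∀ m, ‖cub φ σ c ((s : ℤ) * q) l m‖ ≤ 1 := fun m => cub_bound φ σ hc _ _ _
    obtain ⟨q', hq'0, hq'Q, h1⟩ := hMAJ B s K' K₂ (cub φ σ c ((s : ℤ) * q) l) θ hcub hB0 pK₂ (by
      intro i
      have h2 := (fK₂ i).2.1
      have h3 := (fK' i).1
      have h4 : (Q₂ : ℝ) * K₂ i ≤ K' i := by
        calc (Q₂ : ℝ) * K₂ i ≤ Q₂ * (η₃ * B i) := mul_le_mul_of_nonneg_left h2 hQ₂R.le
          _ = Q₂ * η₃ * B i := by ring
          _ ≤ ηa / 2 * B i := mul_le_mul_of_nonneg_right hη₃1 (hBR i).le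
          _ = ηa * B i / 2 := by ring
          _ ≤ _ := h3
      exact_mod_cast h4) hMA
    have hdvd : q' ∣ T₁ := Nat.dvd_factorial hq'0 hq'Q
    obtain ⟨u, hu⟩ := hdvd
    have hu0 : (0 : ℝ) ≤ u := Nat.cast_nonneg _
    have huT : (u : ℝ) ≤ T₁ := by
      have : u ≤ T₁ := by rw [hu]; exact Nat.le_mul_of_pos_left _ hq'0
      exact_mod_cast this
    have h2 := hM κ B (s * q') u K₂ K₃ [] (cub φ σ c ((s : ℤ) * q) l) hcub hB0 pK₂ pK₃
    have h3 : s * q' * u = s * T₁ := by rw [hu]; ring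
    rw [h3] at h2
    have h4 : T1 B (s * q', K₂) (cub φ σ c ((s : ℤ) * q) l)
        ≤ T1 B (s * T₁, K₃) (cub φ σ c ((s : ℤ) * q) l)
          + ∑ i, (4 * (u : ℝ) * (K₃ i : ℝ) / K₂ i + ((s * q' : ℕ) : ℝ) * (K₂ i : ℝ) / B i) := h2
    have h5 : ∑ i, (4 * (u : ℝ) * (K₃ i : ℝ) / K₂ i + ((s * q' : ℕ) : ℝ) * (K₂ i : ℝ) / B i)
        ≤ δ' / 16 + δ' / 16 := by
      have h6 : ∑ i, (4 * (u : ℝ) * (K₃ i : ℝ) / K₂ i + ((s * q' : ℕ) : ℝ) * (K₂ i : ℝ) / B i)
          ≤ r * (8 * T₁ / η₃ * η₄ + s * Q' * η₃) := by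
        refine sum_le_card _ fun i => ?_
        have pK₂R : (0 : ℝ) < K₂ i := by exact_mod_cast pK₂ i
        have a1 : 4 * (u : ℝ) * (K₃ i : ℝ) / K₂ i ≤ 8 * T₁ / η₃ * η₄ := by
          rw [div_le_iff₀ pK₂R]
          calc 4 * (u : ℝ) * (K₃ i : ℝ) ≤ 4 * T₁ * (η₄ * B i) := by
                have := (fK₃ i).2.1
                have h0 : (0 : ℝ) ≤ K₃ i := Nat.cast_nonneg _
                gcongr
            _ = 8 * T₁ / η₃ * η₄ * (η₃ * B i / 2) := by field_simp; ring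
            _ ≤ _ := mul_le_mul_of_nonneg_left (fK₂ i).1 (by positivity)
        have a2 : ((s * q' : ℕ) : ℝ) * (K₂ i : ℝ) / B i ≤ s * Q' * η₃ := by
          rw [div_le_iff₀ (hBR i)]
          push_cast
          have hq'R : (q' : ℝ) ≤ Q' := by exact_mod_cast hq'Q
          calc (s : ℝ) * q' * (K₂ i : ℝ) ≤ s * Q' * (η₃ * B i) := by
                have := (fK₂ i).2.1
                have h0 : (0 : ℝ) ≤ K₂ i := Nat.cast_nonneg _
                gcongr
            _ = _ := by ring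
        linarith
      have h7 : r * (8 * T₁ / η₃ * η₄ + s * Q' * η₃) = r * (8 * T₁ / η₃) * η₄ + r * (s * Q') * η₃ := by
        ring
      linarith
    have h8 : ∑ i, (s : ℝ) * (K' i : ℝ) / B i ≤ δ' / 16 := by
      have h9 : ∑ i, (s : ℝ) * (K' i : ℝ) / B i ≤ r * (s * ηa) := by
        refine sum_le_card _ fun i => ?_
        rw [div_le_iff₀ (hBR i)]
        calc (s : ℝ) * K' i ≤ s * (ηa * B i) := mul_le_mul_of_nonneg_left (fK' i).2.1 hsR.le
          _ = _ := by ring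
      have h10 : r * (s * ηa) = r * s * ηa := by ring
      linarith
    linarith
  have hF1 : δ' - δ' / 4 ≤ NN B ((s * T₁, K₃) :: List.replicate j (s * q, fun i => H' i / q)) c := by
    have h1 : NN B ((s * T₁, K₃) :: List.replicate j (s * q, fun i => H' i / q)) c
        = ER (fun zj : Z × κ => H' zj.2 / q) (fun l =>
          T1 B (s * T₁, K₃) (cub φ σ c ((s : ℤ) * q) l)) := by
      show GX (T1 B (s * T₁, K₃)) (List.replicate j (s * q, fun i => H' i / q)) c = _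
      rw [hφ κ]
      push_cast
      rfl
    rw [h1]
    have h2 := ER_le_add (fun zj : Z × κ => H' zj.2 / q) (e := δ' / 4) (by positivity)
      (fun l _ => hph l)
    linarith
  -- common windows
  have hqR : (0 : ℝ) < q := by exact_mod_cast hq.pos
  have g1 := hM κ B (s * T₁) P₁.factorial K₃ H'' (List.replicate j (s * q, fun i => H' i / q)) c hc
    hB0 pK₃ pH''
  have g2 : s * T₁ * P₁.factorial = s * T := by rw [hT]; ring
  rw [g2] at g1
  have hdvd2 : q ∣ T := Dvd.dvd.mul_left (Nat.dvd_factorial hq.pos hqP) _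
  obtain ⟨u, hu⟩ := hdvd2
  have g3 := mono_rep hP hM B (s * q) u (fun i => H' i / q) H'' hB0 (qpos q hq hqP) pH'' c hc j
    [(s * T, H'')]
  have g4 : s * q * u = s * T := by rw [hu]; ring
  rw [g4] at g3
  have g5 : NN B (List.replicate j (s * q, fun i => H' i / q) ++ [(s * T, H'')]) c
      = NN B ((s * T, H'') :: List.replicate j (s * q, fun i => H' i / q)) c :=
    hP κ B _ _ c (List.perm_append_singleton _ _)
  have g6 : NN B (List.replicate j (s * T, H'') ++ [(s * T, H'')]) c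
      = NN B (List.replicate (j + 1) (s * T, H'')) c := by
    refine hP κ B _ _ c ?_
    rw [List.replicate_succ]
    exact List.perm_append_singleton _ _
  rw [g5, g6] at g3
  have g7 : ∑ i, (4 * (P₁.factorial : ℝ) * (H'' i : ℝ) / K₃ i + ((s * T₁ : ℕ) : ℝ) * (K₃ i : ℝ) / B i)
      ≤ δ' / 16 + δ' / 16 := by
    have h6 : ∑ i, (4 * (P₁.factorial : ℝ) * (H'' i : ℝ) / K₃ i
        + ((s * T₁ : ℕ) : ℝ) * (K₃ i : ℝ) / B i) ≤ r * (8 * P₁.factorial / η₄ * η' + s * T₁ * η₄) := by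
      refine sum_le_card _ fun i => ?_
      have pK₃R : (0 : ℝ) < K₃ i := by exact_mod_cast pK₃ i
      have a1 : 4 * (P₁.factorial : ℝ) * (H'' i : ℝ) / K₃ i ≤ 8 * P₁.factorial / η₄ * η' := by
        rw [div_le_iff₀ pK₃R]
        calc 4 * (P₁.factorial : ℝ) * (H'' i : ℝ) ≤ 4 * P₁.factorial * (η' * B i) := by
              have := (fH'' i).2.1
              gcongr
          _ = 8 * P₁.factorial / η₄ * η' * (η₄ * B i / 2) := by field_simp; ring
          _ ≤ _ := mul_le_mul_of_nonneg_left (fK₃ i).1 (by positivity)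
      have a2 : ((s * T₁ : ℕ) : ℝ) * (K₃ i : ℝ) / B i ≤ s * T₁ * η₄ := by
        rw [div_le_iff₀ (hBR i)]
        push_cast
        calc (s : ℝ) * T₁ * (K₃ i : ℝ) ≤ s * T₁ * (η₄ * B i) := by
              have := (fK₃ i).2.1
              gcongr
          _ = _ := by ring
      linarith
    have h7 : r * (8 * P₁.factorial / η₄ * η' + s * T₁ * η₄)
        = r * (8 * P₁.factorial / η₄) * η' + r * (s * T₁) * η₄ := by ring
    have h8 : r * (8 * P₁.factorial / η₄) * η' ≤ r * (8 * P₁.factorial / η₄) * η₁ := by gcongr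
    linarith
  have g8 : (j : ℝ) * ∑ i, (4 * (u : ℝ) * (H'' i : ℝ) / ((H' i / q : ℕ) : ℝ)
        + ((s * q : ℕ) : ℝ) * ((H' i / q : ℕ) : ℝ) / B i) ≤ δ' / 16 + δ' / 16 := by
    have h6 : ∑ i, (4 * (u : ℝ) * (H'' i : ℝ) / ((H' i / q : ℕ) : ℝ)
        + ((s * q : ℕ) : ℝ) * ((H' i / q : ℕ) : ℝ) / B i) ≤ r * (16 * T / η₂ * η' + s * η₂) := by
      refine sum_le_card _ fun i => ?_
      have hdp : (0 : ℝ) < ((H' i / q : ℕ) : ℝ) := by exact_mod_cast qpos q hq hqP i
      have b1 : (q : ℝ) * ((H' i / q : ℕ) : ℝ) ≤ H' i := by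
        exact_mod_cast Nat.mul_div_le (H' i) q
      have b2 : (H' i : ℝ) / 2 ≤ q * ((H' i / q : ℕ) : ℝ) := by
        have h1 := (fH' i).2.2
        have h2 : H' i < q * (H' i / q) + q := by
          have := Nat.div_add_mod (H' i) q
          have h3 := Nat.mod_lt (H' i) hq.pos
          omega
        have h3 : 2 * q ≤ H' i := by simp only [hH'def]; omega
        have h4 : (H' i : ℝ) < q * ((H' i / q : ℕ) : ℝ) + q := by exact_mod_cast h2
        have h5 : (2 : ℝ) * q ≤ H' i := by exact_mod_cast h3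
        linarith
      have a1 : 4 * (u : ℝ) * (H'' i : ℝ) / ((H' i / q : ℕ) : ℝ) ≤ 16 * T / η₂ * η' := by
        rw [div_le_iff₀ hdp]
        have hTu : (T : ℝ) = q * u := by rw [hu]; push_cast; ring
        calc 4 * (u : ℝ) * (H'' i : ℝ) ≤ 4 * u * (η' * B i) := by
              have := (fH'' i).2.1
              gcongr
          _ = 16 * u / η₂ * η' * (η₂ * B i / 2 / 2) := by field_simp; ring
          _ ≤ 16 * u / η₂ * η' * (H' i / 2) := by
              have := (fH' i).1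
              have h0 : η₂ * B i / 2 / 2 ≤ (H' i : ℝ) / 2 := by linarith
              exact mul_le_mul_of_nonneg_left h0 (by positivity)
          _ ≤ 16 * u / η₂ * η' * (q * ((H' i / q : ℕ) : ℝ)) :=
              mul_le_mul_of_nonneg_left b2 (by positivity)
          _ = _ := by rw [hTu]; ring
      have a2 : ((s * q : ℕ) : ℝ) * ((H' i / q : ℕ) : ℝ) / B i ≤ s * η₂ := by
        rw [div_le_iff₀ (hBR i)]
        push_cast
        calc (s : ℝ) * q * ((H' i / q : ℕ) : ℝ) = s * (q * ((H' i / q : ℕ) : ℝ)) := by ring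
          _ ≤ s * (η₂ * B i) := by
              refine mul_le_mul_of_nonneg_left (b1.trans (fH' i).2.1) hsR.le
          _ = _ := by ring
      linarith
    have h7 : (j : ℝ) * (r * (16 * T / η₂ * η' + s * η₂))
        = j * (r * (16 * T / η₂)) * η' + j * (r * s) * η₂ := by ring
    have h8 : j * (r * (16 * T / η₂)) * η' ≤ j * (r * (16 * T / η₂)) * η₁ := by gcongr
    have h9 := mul_le_mul_of_nonneg_left h6 hjR
    linarith
  have g9 : NN B ((s * T₁, K₃) :: List.replicate j (s * q, fun i => H' i / q)) c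
      ≤ NN B ((s * T, H'') :: List.replicate j (s * q, fun i => H' i / q)) c
        + ∑ i, (4 * (P₁.factorial : ℝ) * (H'' i : ℝ) / K₃ i
          + ((s * T₁ : ℕ) : ℝ) * (K₃ i : ℝ) / B i) := g1
  linarith

end Pool.Agent.N675.M.G12
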