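import Mathlib
import Pool.Agent.N675.M.Stm2
import Pool.Agent.N781.OM.Minor

/-! Statements of the steps of the structure theorem (`Pool.Agent.N675.M`), for functions `F` with
`F (p m) = g(p) G(m)` at the primes. -/

namespace Pool.Agent.N675.M.G12

open Finset Pool.Agent.N675 Pool.Agent.N781.A Pool.Agent.N781.FV Pool.Agent.N675.M
open Pool.Agent.N781.OM (MG)

/-- multiplicativity -/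
def S_MULT : Prop :=
  ∀ (κ I ι : Type) [Fintype κ] [DecidableEq κ] [Fintype I] [DecidableEq I] [Fintype ι]
    [DecidableEq ι] (σ : I → Bool) (a : ι → ℤ) (L : ι → κ → ℤ), (∀ i, a i ≠ 0) →
    ∀ ε : ℝ, 0 < ε → ∃ τ : ℝ, 0 < τ ∧ τ ≤ 1 ∧ ∃ P0 : ℕ,
    ∀ P : ℕ, P0 ≤ P → ∃ K₀ : ℕ, ∀ (B : κ → ℕ) (x : ℕ) (K : κ → ℕ) (s : ℕ), (∀ j, K₀ ≤ B j) →
      K₀ ≤ x → (∀ j, K₀ ≤ K j) →
    ∀ q : ℕ, q.Prime → P ≤ q → (q : ℝ) ≤ (1 + τ) * (P + 1) →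
    ∀ (F : ι → ℤ → ℂ) (g : ι → ℕ → ℂ) (F₂ : ι → ℤ → ℂ) (P00 T : ℕ), MG F g F₂ P00 T →
      P00 ≤ q → q ≤ T →
    ∀ (N : I → κ → ℤ) (θ : κ → ℝ),
      SS (fun j => B j / q) s (fun j => K j / q) (fun y => ∏ i, cj (σ i)
          (cc a L (fun i m => F i ((q : ℤ) * m)) (x / q) (y + N i))) θ
        ≤ 2 * SS (fun j => B j / P) s (fun j => K j / P)
            (fun y => ∏ i, cj (σ i) (cc a L F₂ (x / P) (y + N i))) θ + ε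

open Classical in
/-- the engine -/
def S_ENG : Prop :=
  ∀ (κ Z I ι : Type) [Fintype κ] [DecidableEq κ] [Fintype Z] [DecidableEq Z] [Fintype I]
    [DecidableEq I] [Fintype ι] [DecidableEq ι] [Nonempty I] (φ : I → Z → ℤ) (σ : I → Bool)
    (a : ι → ℤ) (L : ι → κ → ℤ), (∀ i, a i ≠ 0) →
    ∀ s P00 : ℕ, 0 < s → ∀ δ ρ : ℝ, 0 < δ → δ ≤ 1 → 0 < ρ → ρ ≤ 1 →
    ∃ (P₁ Q' K₀ : ℕ) (δ₁ c₀ : ℝ), 0 < δ₁ ∧ 0 < c₀ ∧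
    ∀ (B : κ → ℕ) (x : ℕ) (K H : κ → ℕ), (∀ j, K₀ ≤ B j) → K₀ ≤ x → (∀ j, K₀ ≤ K j) →
      (∀ j, K₀ ≤ H j) → (∀ j, (H j : ℝ) ≤ c₀ * B j) →
    ∀ (F : ι → ℤ → ℂ) (g : ι → ℕ → ℂ) (F₂ : ι → ℤ → ℂ), MG F g F₂ P00 P₁ →
      (∀ q : ℕ, q.Prime → q ≤ P₁ → ∃ θ : (Z × κ → ℤ) → κ → ℝ,
        ρ ≤ ER (fun zj : Z × κ => H zj.2 / q) (fun l =>
          if δ ≤ SS B s K (cub φ σ (cc a L F x) ((s : ℤ) * q) l) (θ l) then (1 : ℝ) else 0)) →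
      ∃ q : ℕ, q.Prime ∧ q ≤ P₁ ∧ ∃ θ : κ → ℝ, MA Q' K θ ∧
        δ₁ ≤ ER (fun zj : Z × κ => H zj.2 / q) (fun l =>
          SS B s K (cub φ σ (cc a L F x) ((s : ℤ) * q) l) θ)

/-- one step of the descent -/
def S_STEP : Prop :=
  ∀ (κ ι : Type) [Fintype κ] [DecidableEq κ] [Fintype ι] [DecidableEq ι] (a : ι → ℤ)
    (L : ι → κ → ℤ), (∀ i, a i ≠ 0) →
    ∀ j s P00 : ℕ, 0 < s → ∀ δ : ℝ, 0 < δ → δ ≤ 1 → ∃ η₀ : ℝ, 0 < η₀ ∧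
    ∀ η : ℝ, 0 < η → η ≤ η₀ → ∃ (T : ℕ) (δ₁ η₁ : ℝ), 0 < T ∧ 0 < δ₁ ∧ δ₁ ≤ 1 ∧ 0 < η₁ ∧
    ∀ η' : ℝ, 0 < η' → η' ≤ η₁ → ∃ K₀ : ℕ, ∀ (B : κ → ℕ) (x : ℕ), (∀ i, K₀ ≤ B i) → K₀ ≤ x →
    ∀ (F : ι → ℤ → ℂ) (g : ι → ℕ → ℂ) (F₂ : ι → ℤ → ℂ), MG F g F₂ P00 T →
      δ ≤ NN B (List.replicate (j + 2) (s, fun i => ⌊η * B i⌋₊)) (cc a L F x) →
      δ₁ ≤ NN B (List.replicate (j + 1) (s * T, fun i => ⌊η' * B i⌋₊)) (cc a L F x)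

/-- the structure theorem -/
def S_STRUCT : Prop :=
  ∀ (κ ι : Type) [Fintype κ] [DecidableEq κ] [Fintype ι] [DecidableEq ι] (a : ι → ℤ)
    (L : ι → κ → ℤ), (∀ i, a i ≠ 0) →
    ∀ (P00 R : ℕ) (ε : ℝ), 0 < ε → ∃ (T : ℕ) (δ η₁ : ℝ), 0 < T ∧ 0 < δ ∧ 0 < η₁ ∧
    ∀ η : ℝ, 0 < η → η ≤ η₁ → ∃ K₀ : ℕ, ∀ (B : κ → ℕ) (x : ℕ), (∀ i, K₀ ≤ B i) → K₀ ≤ x →
      (∀ i, B i ≤ R * x) →
    ∀ (F : ι → ℤ → ℂ) (g : ι → ℕ → ℂ) (F₂ : ι → ℤ → ℂ), MG F g F₂ P00 T →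
      ε ≤ ER B (fun y => ‖cc a L F x y‖ ^ 2) →
      δ ≤ T1 B (T, fun i => ⌊η * B i⌋₊) (cc a L F x)

end Pool.Agent.N675.M.G12
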