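import Pool.Agent.J4.H12.LO.Step
import Pool.Agent.N675.M.Struct

/-! The structure theorem (`Pool.Agent.N675.M.struct`) for functions `F` with `F (p m) = g(p) G(m)`. -/

namespace Pool.Agent.N675.M.G12

open Finset Pool.Agent.N675 Pool.Agent.N781.A Pool.Agent.N781.FV
open Pool.Agent.N675.M
open Pool.Agent.N781.OM (MG)

lemma descend (hP : S_PERM) (hM : S_MONO) (hSt : G12.S_STEP) (κ ι : Type) [Fintype κ] [DecidableEq κ]
    [Fintype ι] [DecidableEq ι] (a : ι → ℤ) (L : ι → κ → ℤ) (ha : ∀ i, a i ≠ 0) (P00 : ℕ) :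
    ∀ (m s : ℕ), 0 < s → ∀ δ : ℝ, 0 < δ → δ ≤ 1 → ∃ η₀ : ℝ, 0 < η₀ ∧
    ∀ η : ℝ, 0 < η → η ≤ η₀ → ∃ (T : ℕ) (δ' η₁ : ℝ), 0 < T ∧ 0 < δ' ∧ 0 < η₁ ∧
    ∀ η' : ℝ, 0 < η' → η' ≤ η₁ → ∃ K₀ : ℕ, ∀ (B : κ → ℕ) (x : ℕ), (∀ i, K₀ ≤ B i) → K₀ ≤ x →
    ∀ (F : ι → ℤ → ℂ) (g : ι → ℕ → ℂ) (F₂ : ι → ℤ → ℂ), MG F g F₂ P00 T →
      δ ≤ NN B (List.replicate (m + 1) (s, fun i => ⌊η * B i⌋₊)) (cc a L F x) →
      δ' ≤ T1 B (s * T, fun i => ⌊η' * B i⌋₊) (cc a L F x) := by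
  classical
  set r : ℝ := (Fintype.card κ : ℝ) with hr
  have hr0 : 0 ≤ r := Nat.cast_nonneg _
  intro m
  induction m with
  | zero =>
    intro s hs δ hδ0 hδ1
    have hsR : (0 : ℝ) < s := by exact_mod_cast hs
    obtain ⟨η₀, hη₀0, hη₀1, -, -⟩ := ex3 (C₁ := r * s) (C₂ := 0) (C₃ := 0)
      (b₁ := δ / 4) (b₂ := 1) (b₃ := 1) (by positivity) le_rfl le_rfl
      (by positivity) one_pos one_pos
    refine ⟨η₀, hη₀0, fun η hη0 hη => ?_⟩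
    obtain ⟨η₁, hη₁0, hη₁1, -, -⟩ := ex3 (C₁ := r * (8 / η)) (C₂ := 0) (C₃ := 0)
      (b₁ := δ / 4) (b₂ := 1) (b₃ := 1) (by positivity) le_rfl le_rfl
      (by positivity) one_pos one_pos
    refine ⟨1, δ / 2, η₁, one_pos, by positivity, hη₁0, fun η' hη'0 hη' => ?_⟩
    obtain ⟨K₀, hK₀1, hK₀⟩ : ∃ K₀ : ℕ, 1 ≤ K₀ ∧ ∀ b : ℕ, K₀ ≤ b → ((2 : ℕ) : ℝ) ≤ η * b ∧
        ((2 : ℕ) : ℝ) ≤ η' * b := by
      have key : ∀ e : ℝ, 0 < e → ∃ K : ℕ, ∀ b : ℕ, K ≤ b → ((2 : ℕ) : ℝ) ≤ e * b := by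
        intro e he
        obtain ⟨K, hK⟩ := exists_nat_ge (((2 : ℕ) : ℝ) / e)
        refine ⟨K, fun b hb => ?_⟩
        have hb' : (K : ℝ) ≤ b := by exact_mod_cast hb
        rw [div_le_iff₀ he] at hK
        nlinarith
      obtain ⟨k1, h1⟩ := key η hη0
      obtain ⟨k2, h2⟩ := key η' hη'0
      exact ⟨1 + k1 + k2, by omega, fun b hb => ⟨h1 b (by omega), h2 b (by omega)⟩⟩
    refine ⟨K₀, fun B x hB hx F g F₂ hF hNN => ?_⟩
    have hB0 : ∀ i, 0 < B i := fun i => lt_of_lt_of_le (by omega) (hB i)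
    have hBR : ∀ i, (0 : ℝ) < B i := fun i => by exact_mod_cast hB0 i
    have fH := fun i => fl le_rfl (hK₀ (B i) (hB i)).1
    have fH' := fun i => fl le_rfl (hK₀ (B i) (hB i)).2
    have pH : ∀ i, 0 < ⌊η * B i⌋₊ := fun i => lt_of_lt_of_le two_pos (fH i).2.2
    have pH' : ∀ i, 0 < ⌊η' * B i⌋₊ := fun i => lt_of_lt_of_le two_pos (fH' i).2.2
    have h1 := hM κ B s 1 (fun i => ⌊η * B i⌋₊) (fun i => ⌊η' * B i⌋₊) [] (cc a L F x)
      (norm_cc_le a L F hF.1 x) hB0 pH pH'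
    have h2 : ∑ i, (4 * ((1 : ℕ) : ℝ) * ((⌊η' * B i⌋₊ : ℕ) : ℝ) / ((⌊η * B i⌋₊ : ℕ) : ℝ)
        + s * ((⌊η * B i⌋₊ : ℕ) : ℝ) / B i) ≤ r * (8 / η * η' + s * η) := by
      refine sum_le_card _ fun i => ?_
      have pHR : (0 : ℝ) < ((⌊η * B i⌋₊ : ℕ) : ℝ) := by exact_mod_cast pH i
      have a1 : 4 * ((1 : ℕ) : ℝ) * ((⌊η' * B i⌋₊ : ℕ) : ℝ) / ((⌊η * B i⌋₊ : ℕ) : ℝ)
          ≤ 8 / η * η' := by
        rw [div_le_iff₀ pHR]
        push_cast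
        calc 4 * 1 * ((⌊η' * B i⌋₊ : ℕ) : ℝ) ≤ 4 * (η' * B i) := by
              have := (fH' i).2.1
              linarith
          _ = 8 / η * η' * (η * B i / 2) := by field_simp; ring
          _ ≤ _ := mul_le_mul_of_nonneg_left (fH i).1 (by positivity)
      have a2 : (s : ℝ) * ((⌊η * B i⌋₊ : ℕ) : ℝ) / B i ≤ s * η := by
        rw [div_le_iff₀ (hBR i)]
        calc (s : ℝ) * ((⌊η * B i⌋₊ : ℕ) : ℝ) ≤ s * (η * B i) :=
              mul_le_mul_of_nonneg_left (fH i).2.1 hsR.le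
          _ = _ := by ring
      linarith
    have h3 : r * (8 / η * η' + s * η) ≤ δ / 4 + δ / 4 := by
      have b1 : r * (8 / η) * η' ≤ r * (8 / η) * η₁ := by gcongr
      have b2 : r * s * η ≤ r * s * η₀ := by gcongr
      have b3 : r * (8 / η * η' + s * η) = r * (8 / η) * η' + r * s * η := by ring
      linarith
    have h4 : NN B [(s, fun i => ⌊η * B i⌋₊)] (cc a L F x)
        ≤ T1 B (s * 1, fun i => ⌊η' * B i⌋₊) (cc a L F x)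
          + ∑ i, (4 * ((1 : ℕ) : ℝ) * ((⌊η' * B i⌋₊ : ℕ) : ℝ) / ((⌊η * B i⌋₊ : ℕ) : ℝ)
        + s * ((⌊η * B i⌋₊ : ℕ) : ℝ) / B i) := h1
    have h5 : δ ≤ NN B [(s, fun i => ⌊η * B i⌋₊)] (cc a L F x) := hNN
    linarith
  | succ m ih =>
    intro s hs δ hδ0 hδ1
    obtain ⟨η₀, hη₀0, h1⟩ := hSt κ ι a L ha m s P00 hs δ hδ0 hδ1
    refine ⟨η₀, hη₀0, fun η hη0 hη => ?_⟩
    obtain ⟨T₁, δ₁, η₁, hT₁, hδ₁0, hδ₁1, hη₁0, h2⟩ := h1 η hη0 hη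
    obtain ⟨η₂, hη₂0, h3⟩ := ih (s * T₁) (Nat.mul_pos hs hT₁) δ₁ hδ₁0 hδ₁1
    obtain ⟨T₂, δ₂, η₃, hT₂, hδ₂0, hη₃0, h4⟩ := h3 (min η₁ η₂) (lt_min hη₁0 hη₂0) (min_le_right _ _)
    obtain ⟨K₁, h5⟩ := h2 (min η₁ η₂) (lt_min hη₁0 hη₂0) (min_le_left _ _)
    refine ⟨T₁ * T₂, δ₂, η₃, Nat.mul_pos hT₁ hT₂, hδ₂0, hη₃0, fun η' hη'0 hη' => ?_⟩
    obtain ⟨K₂, h6⟩ := h4 η' hη'0 hη'
    refine ⟨max K₁ K₂, fun B x hB hx F g F₂ hF hNN => ?_⟩
    have h7 := h5 B x (fun i => (le_max_left _ _).trans (hB i)) ((le_max_left _ _).trans hx) F g F₂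
      (mg_mono hF (Nat.le_mul_of_pos_right _ hT₂)) hNN
    have h8 := h6 B x (fun i => (le_max_right _ _).trans (hB i)) ((le_max_right _ _).trans hx) F g F₂
      (mg_mono hF (Nat.le_mul_of_pos_left _ hT₁)) h7
    rw [← mul_assoc]
    exact h8

lemma mg_conj {ι : Type} {F F₂ : ι → ℤ → ℂ} {g : ι → ℕ → ℂ} {P0 T : ℕ} (h : MG F g F₂ P0 T) :
    MG (fun i m => (starRingEnd ℂ) (F i m)) (fun i p => (starRingEnd ℂ) (g i p))
      (fun i m => (starRingEnd ℂ) (F₂ i m)) P0 T := by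
  refine ⟨fun i m => ?_, fun i m => ?_, fun i p hp h0 h1 => ?_, fun i p hp h0 h1 m hm => ?_⟩
  · rw [Complex.norm_conj]; exact h.1 i m
  · rw [Complex.norm_conj]; exact h.2.1 i m
  · rw [Complex.norm_conj]; exact h.2.2.1 i p hp h0 h1
  · show (starRingEnd ℂ) (F i ((p : ℤ) * m)) = (starRingEnd ℂ) (g i p) * (starRingEnd ℂ) (F₂ i m)
    rw [h.2.2.2 i p hp h0 h1 m hm, map_mul]

theorem struct (hP : S_PERM) (hM : S_MONO) (hSt : G12.S_STEP) (hG : S_GVN) : G12.S_STRUCT := by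
  classical
  intro κ ι _ _ _ _ a L ha P00 R ε hε
  set r : ℝ := (Fintype.card κ : ℝ) with hr
  have hr0 : 0 ≤ r := Nat.cast_nonneg _
  rcases Nat.eq_zero_or_pos (Fintype.card ι) with hι | hι
  · -- no forms
    refine ⟨1, 1, 1, one_pos, one_pos, one_pos, fun η hη0 hη1 => ?_⟩
    obtain ⟨K₀, hK₀⟩ := exists_nat_ge (2 / η)
    refine ⟨K₀ + 1, fun B x hB hx _ F g F₂ hF _ => ?_⟩
    have hι' : IsEmpty ι := Fintype.card_eq_zero_iff.mp hι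
    have hxR : (x : ℂ) ≠ 0 := by
      have : x ≠ 0 := by omega
      exact_mod_cast this
    have h1 : ∀ y, cc a L F x y = 1 := by
      intro y
      unfold cc av
      simp only [Finset.univ_eq_empty, Finset.prod_empty, Finset.sum_const, Int.card_Icc,
        nsmul_eq_mul]
      simp
      omega
    have hwin : ∀ i, 0 < ⌊η * B i⌋₊ := by
      intro i
      have h2 : (K₀ : ℝ) ≤ B i := by
        have := hB i
        exact_mod_cast (by omega : K₀ ≤ B i)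
      have h3 : ((2 : ℕ) : ℝ) ≤ η * B i := by
        rw [div_le_iff₀ hη0] at hK₀
        push_cast
        nlinarith
      exact lt_of_lt_of_le two_pos (fl le_rfl h3).2.2
    have h4 : ∀ y : κ → ℤ, (EE (fun i => ⌊η * B i⌋₊) fun k => cc a L F x (y + ((1 : ℕ) : ℤ) • k))
        = 1 := by
      intro y
      simp only [h1]
      unfold EE
      rw [Finset.sum_const, nsmul_eq_mul, mul_one]
      have h5 : (((Box fun i => ⌊η * B i⌋₊).card : ℕ) : ℂ)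
          = ((∏ i, ((⌊η * B i⌋₊ : ℕ) : ℝ) : ℝ) : ℂ) := by
        rw [← Box_card]; push_cast; rfl
      have h6 : (0 : ℝ) < ∏ i, ((⌊η * B i⌋₊ : ℕ) : ℝ) :=
        Finset.prod_pos fun i _ => by exact_mod_cast hwin i
      rw [h5]
      have h7 : (∏ i, ((⌊η * B i⌋₊ : ℕ) : ℂ)) = ((∏ i, ((⌊η * B i⌋₊ : ℕ) : ℝ) : ℝ) : ℂ) := by
        push_cast; rfl
      rw [h7]
      exact div_self (by exact_mod_cast h6.ne')
    unfold T1
    simp only [h4, norm_one, one_pow]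
    rw [ER_const B fun i => lt_of_lt_of_le (by omega) (hB i)]
  · set k := Fintype.card ι with hk
    set e : Fin k ≃ ι := (Fintype.equivFin ι).symm with he
    obtain ⟨s, C, hs, hC, hGV⟩ := hG κ k (fun i => a (e i)) (fun i => L (e i)) hι (fun i => ha _)
    set ε' : ℝ := min ε 1 with hε'
    have hε'0 : 0 < ε' := lt_min hε one_pos
    have hε'1 : ε' ≤ 1 := min_le_right _ _
    set δ : ℝ := ε' ^ (2 ^ k) / 2 with hδ
    have hpow0 : 0 < ε' ^ (2 ^ k) := pow_pos hε'0 _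
    have hpow1 : ε' ^ (2 ^ k) ≤ 1 := pow_le_one₀ hε'0.le hε'1
    have hδ0 : 0 < δ := by positivity
    obtain ⟨m, hm⟩ : ∃ m, k = m + 1 := ⟨k - 1, by omega⟩
    obtain ⟨η₀, hη₀0, h1⟩ := descend hP hM hSt κ ι a L ha P00 m s hs δ hδ0 (by linarith)
    obtain ⟨η₁, hη₁0, hη₁1, hη₁2, -⟩ := ex3 (C₁ := 1) (C₂ := C * (r * (1 + R))) (C₃ := 0)
      (b₁ := η₀) (b₂ := δ) (b₃ := 1) zero_le_one (by positivity) le_rfl hη₀0 hδ0 one_pos
    rw [one_mul] at hη₁1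
    obtain ⟨T, δ', η₂, hT, hδ'0, hη₂0, h2⟩ := h1 η₁ hη₁0 hη₁1
    refine ⟨s * T, δ', η₂, Nat.mul_pos hs hT, hδ'0, hη₂0, fun η' hη'0 hη' => ?_⟩
    obtain ⟨K₁, h3⟩ := h2 η' hη'0 hη'
    obtain ⟨K₂, hK₂⟩ := exists_nat_ge (2 / η₁)
    refine ⟨K₁ + K₂ + 1, fun B x hB hx hBx F g F₂ hF hbig => ?_⟩
    have hB0 : ∀ i, 0 < B i := fun i => lt_of_lt_of_le (by omega) (hB i)
    have hBR : ∀ i, (0 : ℝ) < B i := fun i => by exact_mod_cast hB0 i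
    have hx0 : 0 < x := by omega
    have hxR : (0 : ℝ) < x := by exact_mod_cast hx0
    have fH : ∀ i, 0 < ⌊η₁ * B i⌋₊ ∧ (⌊η₁ * B i⌋₊ : ℝ) ≤ η₁ * B i := by
      intro i
      have h2 : (K₂ : ℝ) ≤ B i := by
        have := hB i
        exact_mod_cast (by omega : K₂ ≤ B i)
      have h3 : ((2 : ℕ) : ℝ) ≤ η₁ * B i := by
        rw [div_le_iff₀ hη₁0] at hK₂
        push_cast
        nlinarith
      exact ⟨lt_of_lt_of_le two_pos (fl le_rfl h3).2.2, (fl le_rfl h3).2.1⟩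
    set W : (κ → ℤ) → ℂ := cc a L (fun i m => (starRingEnd ℂ) (F i m)) x with hW
    have hWb : ∀ m, ‖W m‖ ≤ 1 := norm_cc_le a L _ (mg_conj hF).1 x
    have h4 := hGV (fun i => F (e i)) (fun i m => hF.1 _ m) W hWb B (fun i => ⌊η₁ * B i⌋₊) x hB0 hx0
      (fun i => (fH i).1)
    have h5 : (EE B fun y => W y * cc (fun i => a (e i)) (fun i => L (e i)) (fun i => F (e i)) x y)
        = ((ER B (fun y => ‖cc a L F x y‖ ^ 2) : ℝ) : ℂ) := by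
      unfold EE ER
      push_cast
      congr 1
      refine Finset.sum_congr rfl fun y _ => ?_
      rw [cc_equiv e a L F x y, hW, cc_conj, mul_comm, Complex.mul_conj, Complex.normSq_eq_norm_sq]
      push_cast
      rfl
    rw [h5, Complex.norm_real, Real.norm_eq_abs, abs_of_nonneg (by
      exact ER_nonneg B fun _ _ => sq_nonneg _)] at h4
    have h6 : ε' ^ (2 ^ k) ≤ (ER B (fun y => ‖cc a L F x y‖ ^ 2)) ^ (2 ^ k) :=
      pow_le_pow_left₀ hε'0.le ((min_le_left _ _).trans hbig) _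
    have h7 : C * ∑ i, (((⌊η₁ * B i⌋₊ : ℕ) : ℝ) / B i + ((⌊η₁ * B i⌋₊ : ℕ) : ℝ) / x) ≤ δ := by
      have h8 : ∑ i, (((⌊η₁ * B i⌋₊ : ℕ) : ℝ) / B i + ((⌊η₁ * B i⌋₊ : ℕ) : ℝ) / x)
          ≤ r * (η₁ + R * η₁) := by
        refine sum_le_card _ fun i => ?_
        have b1 : ((⌊η₁ * B i⌋₊ : ℕ) : ℝ) / B i ≤ η₁ := by
          rw [div_le_iff₀ (hBR i)]; exact (fH i).2
        have b2 : ((⌊η₁ * B i⌋₊ : ℕ) : ℝ) / x ≤ R * η₁ := by
          rw [div_le_iff₀ hxR]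
          have b3 : (B i : ℝ) ≤ R * x := by exact_mod_cast hBx i
          calc ((⌊η₁ * B i⌋₊ : ℕ) : ℝ) ≤ η₁ * B i := (fH i).2
            _ ≤ η₁ * (R * x) := mul_le_mul_of_nonneg_left b3 hη₁0.le
            _ = _ := by ring
        linarith
      calc _ ≤ C * (r * (η₁ + R * η₁)) := mul_le_mul_of_nonneg_left h8 hC
        _ = C * (r * (1 + R)) * η₁ := by ring
        _ ≤ δ := hη₁2
    have h8 : δ ≤ NN B (List.replicate (m + 1) (s, fun i => ⌊η₁ * B i⌋₊)) W := by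
      rw [← hm]
      have h9 : ε' ^ (2 ^ k) = δ + δ := by rw [hδ]; ring
      linarith
    have h10 := h3 B x (fun i => by have := hB i; omega) (by omega)
      (fun i m => (starRingEnd ℂ) (F i m)) (fun i p => (starRingEnd ℂ) (g i p))
      (fun i m => (starRingEnd ℂ) (F₂ i m))
      (mg_conj (mg_mono hF (Nat.le_mul_of_pos_left _ hs))) h8
    rw [T1_conj] at h10
    exact h10

end Pool.Agent.N675.M.G12
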